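import Pool.Agent.Lib.MP_021685_agTP.P0
import Pool.Agent.Lib.MP_021685_agTI.FG

/-! LEAF PE (medium).  The weights of a form on generalised eigenspaces.

PROOF.  For `v ∈ F.maxGenEigenspace y` let the height of `v` be the least `n` with `((F - y) ^ n) v = 0`.  Consider all the tuples
`v` with `v a ∈ F.maxGenEigenspace (y a)` and `T v ≠ 0`, and choose one with the smallest sum of heights (`Nat.find`; it is
convenient to consider the pairs `(n, v)` with `((F - y a) ^ (n a)) (v a) = 0` for all `a`, `T v ≠ 0`, and to take `∑ a, n a` minimal).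
Let `N a = F ^ d - y a ^ d`: as `X - y` divides `X ^ d - y ^ d`, `((F - y a) ^ (n a - 1)) (N a (v a)) = 0` if `n a > 0` (and `v a = 0` is
impossible, as `T v ≠ 0`, so `n a > 0`).  Replace in the tuple some of the `v a`, at least one, by `N a (v a)`, and the other by
`y a ^ d • v a`: the sum of the heights is smaller, so `T` vanishes there.  By `MultilinearMap.map_add_univ` for
`(F ^ d) (v a) = y a ^ d • v a + N a (v a)` only one term remains: `T (fun a => (F ^ d) (v a)) = (∏ a, y a ^ d) • T v`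
(`MultilinearMap.map_smul_univ`).  So with `ℓ = T v ≠ 0`: `(∏ a, y a ^ d) * ℓ ((Φ ^ d) w) = c * ℓ w`, so
`ℓ ((Φ ^ d) w) = c / (∏ a, y a ^ d) * ℓ w` (`y a ≠ 0`), and `TI.eig Φ d _ ℓ ..` (`MP_021685_agTI/FG.lean`) gives a root `z` of
`Φ.charpoly`, hence an eigenvalue (`Module.End.hasEigenvalue_iff_isRoot_charpoly`), with `z ^ d = c / ∏ a, y a ^ d`.

(Instead of the expansion one can replace the arguments one by one: by induction on a finite set `s` of indices,
`T (s.piecewise (fun a => (F ^ d) (v a)) v) = (∏ a ∈ s, y a ^ d) • T v`, together with the same statement for all tuples with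
heights `≤ n` (both sides are zero if some height is smaller).) -/

set_option autoImplicit false

namespace TPR

open Polynomial Module Function

/-- The power of `F` minus the power of the eigenvalue has a factor which commutes. -/
private theorem PE_fac {H : Type} [AddCommGroup H] [Module ℂ H] (F : End ℂ H) (y : ℂ) (d : ℕ) :
    ∃ G : End ℂ H, F ^ d - (y ^ d) • (1 : End ℂ H) = G * (F - y • (1 : End ℂ H)) ∧
      Commute (F - y • (1 : End ℂ H)) G := by
  have hc : Commute F (y • (1 : End ℂ H)) := (Commute.one_right F).smul_right y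
  have h1 := hc.geom_sum₂_mul d
  have h2 := hc.mul_geom_sum₂ d
  have h3 : (y • (1 : End ℂ H)) ^ d = (y ^ d) • (1 : End ℂ H) := by
    rw [_root_.smul_pow, one_pow]
  refine ⟨∑ i ∈ Finset.range d, F ^ i * (y • (1 : End ℂ H)) ^ (d - 1 - i), ?_, ?_⟩
  · rw [h1, h3]
  · exact h2.trans h1.symm

theorem eig_prod {H W : Type} [AddCommGroup H] [Module ℂ H] [AddCommGroup W] [Module ℂ W] [FiniteDimensional ℂ H]
    [FiniteDimensional ℂ W] {k : ℕ} {T : MultilinearMap ℂ (fun _ : Fin k => H) (W →ₗ[ℂ] ℂ)} {F : End ℂ H} {Φ : End ℂ W}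
    {d : ℕ} {c : ℂ} (hT : ∀ v w, T (fun a => (F ^ d) (v a)) ((Φ ^ d) w) = c * T v w) {y : Fin k → ℂ}
    (hy : ∀ a, y a ≠ 0) {v : Fin k → H} (hv : ∀ a, v a ∈ F.maxGenEigenspace (y a)) (hne : T v ≠ 0) :
    ∃ z : ℂ, End.HasEigenvalue Φ z ∧ (∏ a, y a) ^ d * z ^ d = c := by
  classical
  have hex : ∃ s : ℕ, ∃ n : Fin k → ℕ, ∃ v : Fin k → H, ∑ a, n a = s ∧
      (∀ a, ((F - y a • (1 : End ℂ H)) ^ (n a)) (v a) = 0) ∧ T v ≠ 0 := by
    choose n hn using fun a => (End.mem_maxGenEigenspace F (y a) (v a)).1 (hv a)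
    exact ⟨_, n, v, rfl, hn, hne⟩
  obtain ⟨n, v, hs, hn, hne⟩ := Nat.find_spec hex
  have hmin : ∀ (n' : Fin k → ℕ) (v' : Fin k → H), ∑ a, n' a < ∑ a, n a →
      (∀ a, ((F - y a • (1 : End ℂ H)) ^ (n' a)) (v' a) = 0) → T v' = 0 := by
    intro n' v' hlt h'
    by_contra h0
    rw [hs] at hlt
    exact Nat.find_min hex hlt ⟨n', v', rfl, h', h0⟩
  have hpos : ∀ a, 0 < n a := by
    intro a
    rcases Nat.eq_zero_or_pos (n a) with h0 | h0
    · exfalso
      have h1 := hn a
      rw [h0, pow_zero, Module.End.one_apply] at h1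
      exact hne (T.map_coord_zero a h1)
    · exact h0
  choose G hG hC using fun a => PE_fac F (y a) d
  have hN : ∀ a, ((F - y a • (1 : End ℂ H)) ^ (n a - 1)) ((F ^ d - (y a ^ d) • (1 : End ℂ H)) (v a)) = 0 := by
    intro a
    have h1 : (F - y a • (1 : End ℂ H)) ^ (n a - 1) * (F ^ d - (y a ^ d) • (1 : End ℂ H)) =
        G a * (F - y a • (1 : End ℂ H)) ^ (n a) := by
      rw [hG a, ← mul_assoc, ((hC a).pow_left (n a - 1)).eq, mul_assoc, ← pow_succ, Nat.sub_add_cancel (hpos a)]
    have h2 := congrArg (fun f : End ℂ H => f (v a)) h1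
    simp only [Module.End.mul_apply] at h2
    rw [h2, hn a, map_zero]
  have key : T (fun a => (F ^ d) (v a)) = (∏ a, y a ^ d) • T v := by
    have h1 : (fun a => (F ^ d) (v a)) = (fun a => (F ^ d - (y a ^ d) • (1 : End ℂ H)) (v a)) +
        fun a => y a ^ d • v a := by
      funext a
      rw [Pi.add_apply, LinearMap.sub_apply, LinearMap.smul_apply, Module.End.one_apply, sub_add_cancel]
    rw [h1, MultilinearMap.map_add_univ, Finset.sum_eq_single ∅]
    · rw [Finset.piecewise_empty, MultilinearMap.map_smul_univ]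
    · intro s _ hs
      obtain ⟨b, hb⟩ := Finset.nonempty_iff_ne_empty.2 hs
      refine hmin (fun a => if a ∈ s then n a - 1 else n a) _ ?_ fun a => ?_
      · refine Finset.sum_lt_sum (fun a _ => ?_) ⟨b, Finset.mem_univ b, ?_⟩
        · by_cases ha : a ∈ s
          · rw [if_pos ha]
            exact Nat.sub_le _ _
          · rw [if_neg ha]
        · rw [if_pos hb]
          exact Nat.sub_lt (hpos b) one_pos
      · by_cases ha : a ∈ s
        · rw [if_pos ha, Finset.piecewise_eq_of_mem _ _ _ ha]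
          exact hN a
        · rw [if_neg ha, Finset.piecewise_eq_of_notMem _ _ _ ha, map_smul, hn a, smul_zero]
    · intro h
      exact absurd (Finset.mem_univ _) h
  have hP : (∏ a, y a ^ d) ≠ 0 := Finset.prod_ne_zero_iff.2 fun a _ => pow_ne_zero _ (hy a)
  have hl : ∀ w, T v ((Φ ^ d) w) = c / (∏ a, y a ^ d) * T v w := by
    intro w
    have h1 := hT v w
    rw [key, LinearMap.smul_apply, smul_eq_mul] at h1
    rw [div_mul_eq_mul_div, eq_div_iff hP, mul_comm, h1]
  obtain ⟨z, hz, hzd⟩ := TI.eig Φ d _ (T v) hne hl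
  refine ⟨z, (Module.End.hasEigenvalue_iff_isRoot_charpoly Φ z).2 hz, ?_⟩
  rw [hzd, ← Finset.prod_pow, mul_div_cancel₀ _ hP]

end TPR
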