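import Pool.Agent.Lib.MP_021685_agTP.PD
import Pool.Agent.Lib.MP_021685_agTG.G0

/-! The context of the proof: no definition here occurs in the statement of the theorem. -/

set_option autoImplicit false

namespace TPR

open Module

section

variable {H : Type} [AddCommGroup H] [Module ℂ H]

/-- The endomorphism `v ↦ ψ (a, v) b + ψ (b, v) a`. -/
def sq (ψ : H →ₗ[ℂ] H →ₗ[ℂ] ℂ) (a b : H) : End ℂ H := (ψ a).smulRight b + (ψ b).smulRight a

theorem sq_apply (ψ : H →ₗ[ℂ] H →ₗ[ℂ] ℂ) (a b v : H) : sq ψ a b v = ψ a v • b + ψ b v • a := rfl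

theorem sq_comm (ψ : H →ₗ[ℂ] H →ₗ[ℂ] ℂ) (a b : H) : sq ψ a b = sq ψ b a := add_comm _ _

theorem sq_add (ψ : H →ₗ[ℂ] H →ₗ[ℂ] ℂ) (a b c : H) : sq ψ a (b + c) = sq ψ a b + sq ψ a c := by
  apply LinearMap.ext
  intro v
  rw [LinearMap.add_apply, sq_apply, sq_apply, sq_apply, map_add, LinearMap.add_apply, smul_add, add_smul]
  abel

theorem sq_smul (ψ : H →ₗ[ℂ] H →ₗ[ℂ] ℂ) (z : ℂ) (a b : H) : sq ψ a (z • b) = z • sq ψ a b := by
  apply LinearMap.ext
  intro v
  rw [LinearMap.smul_apply, sq_apply, sq_apply, map_smul, LinearMap.smul_apply, smul_add, smul_eq_mul, mul_smul,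
    smul_comm z (ψ a v)]

theorem sq_zero (ψ : H →ₗ[ℂ] H →ₗ[ℂ] ℂ) (a : H) : sq ψ a 0 = 0 := by
  have h := sq_smul ψ 0 a 0
  rwa [zero_smul, zero_smul] at h

theorem alt_neg {ψ : H →ₗ[ℂ] H →ₗ[ℂ] ℂ} (halt : ∀ u, ψ u u = 0) (u v : H) : ψ u v = - ψ v u := by
  have h := halt (u + v)
  rw [map_add, map_add, LinearMap.add_apply, LinearMap.add_apply, halt, halt, zero_add, add_zero] at h
  linear_combination h

theorem sq_skew {ψ : H →ₗ[ℂ] H →ₗ[ℂ] ℂ} (halt : ∀ u, ψ u u = 0) (a b : H) : sq ψ a b ∈ TGR.sp ψ := by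
  rw [TGR.mem_sp]
  intro u v
  rw [sq_apply, sq_apply, map_add, LinearMap.add_apply, map_smul, map_smul, LinearMap.smul_apply, LinearMap.smul_apply,
    map_add, map_smul, map_smul, smul_eq_mul, smul_eq_mul, smul_eq_mul, smul_eq_mul, alt_neg halt u b, alt_neg halt u a]
  ring

/-- The bracket of two products. -/
theorem sq_bracket {ψ : H →ₗ[ℂ] H →ₗ[ℂ] ℂ} {X : End ℂ H} (hX : X ∈ TGR.sp ψ) (a b : H) :
    X * sq ψ a b - sq ψ a b * X = sq ψ (X a) b + sq ψ a (X b) := by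
  apply LinearMap.ext
  intro v
  have h1 := (TGR.mem_sp.1 hX) a v
  have h2 := (TGR.mem_sp.1 hX) b v
  have h3 : ψ a (X v) = - ψ (X a) v := by linear_combination h1
  have h4 : ψ b (X v) = - ψ (X b) v := by linear_combination h2
  rw [LinearMap.sub_apply, Module.End.mul_apply, Module.End.mul_apply, LinearMap.add_apply, sq_apply, sq_apply, sq_apply,
    sq_apply, map_add, map_smul, map_smul, h3, h4]
  module

/-- Conjugation by a similitude. -/
theorem sq_conj {ψ : H →ₗ[ℂ] H →ₗ[ℂ] ℂ} {γ γ' : End ℂ H} {m : ℂ} (hγ : ∀ u v, ψ (γ u) (γ v) = m * ψ u v)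
    (h1 : ∀ v, γ (γ' v) = v) (a b : H) : m • (γ * sq ψ a b * γ') = sq ψ (γ a) (γ b) := by
  apply LinearMap.ext
  intro v
  have h2 : ψ (γ a) v = m * ψ a (γ' v) := by rw [← hγ, h1]
  have h3 : ψ (γ b) v = m * ψ b (γ' v) := by rw [← hγ, h1]
  rw [LinearMap.smul_apply, Module.End.mul_apply, Module.End.mul_apply, sq_apply, sq_apply, map_add, map_smul, map_smul,
    smul_add, h2, h3, mul_smul, mul_smul]

end

section

variable {G H : Type} [Group G] [AddCommGroup H] [Module ℂ H] (ρ : Representation ℂ G H)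

/-- The subspace `S` is stable under the subgroup `K`. -/
def Stab (K : Subgroup G) (S : Submodule ℂ H) : Prop := ∀ g ∈ K, ∀ v ∈ S, ρ g v ∈ S

/-- The subspace generated by the `g e`, `g` in `K`. -/
def orb (K : Subgroup G) (e : H) : Submodule ℂ H := Submodule.span ℂ {v | ∃ g ∈ K, v = ρ g e}

variable {ρ}

theorem mem_orb (K : Subgroup G) (e : H) : e ∈ orb ρ K e :=
  Submodule.subset_span ⟨1, K.one_mem, by rw [map_one]; rfl⟩

theorem orb_stab (K : Subgroup G) (e : H) : Stab ρ K (orb ρ K e) := by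
  intro g hg v hv
  induction hv using Submodule.span_induction with
  | mem x hx =>
    obtain ⟨h, hh, rfl⟩ := hx
    refine Submodule.subset_span ⟨g * h, K.mul_mem hg hh, ?_⟩
    rw [map_mul]
    rfl
  | zero =>
    rw [map_zero]
    exact zero_mem _
  | add x y _ _ hx hy =>
    rw [map_add]
    exact add_mem hx hy
  | smul c x _ hx =>
    rw [map_smul]
    exact Submodule.smul_mem _ _ hx

theorem orb_le {K : Subgroup G} {e : H} {S : Submodule ℂ H} (hS : Stab ρ K S) (he : e ∈ S) : orb ρ K e ≤ S := by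
  refine Submodule.span_le.2 ?_
  rintro v ⟨g, hg, rfl⟩
  exact hS g hg e he

end

end TPR
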