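import Pool.Agent.Lib.MP_021685_agTP.P0

/-! LEAF PB (medium).  The eigenvectors for the roots of `P`.

PROOF.  Let `p = F.charpoly = (∏ i, (X - C (lam i))) * R`.  `lam i` is a root of `p`, so it is an eigenvalue
(`Module.End.hasEigenvalue_iff_isRoot_charpoly`), with an eigenvector `e i ≠ 0`.  Its multiplicity in `p` is one: `R` does not
vanish at `lam i` and `lam l ≠ lam i` for `l ≠ i` (`h` for the exponent `1`, `pow_one`), so
`p = (X - C (lam i)) * q` with `q.eval (lam i) ≠ 0` (`Finset.mul_prod_erase`), so `p.rootMultiplicity (lam i) = 1`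
(`Polynomial.rootMultiplicity_mul`, `rootMultiplicity_X_sub_C_self`, `rootMultiplicity_eq_zero`).  The generalised eigenspace has
the dimension `1`: `LinearMap.finrank_maxGenEigenspace_eq` (in `Mathlib/LinearAlgebra/Eigenspace/Zero.lean`):
`finrank (F.maxGenEigenspace z) = F.charpoly.rootMultiplicity z`.  As it contains `e i ≠ 0` it is `span {e i}`
(`finrank_eq_one_iff`.. or `Submodule.eq_of_le_of_finrank_eq` with `finrank_span_singleton`).

Let `d > 0` and `v ∈ (F ^ d).maxGenEigenspace (lam i ^ d)`: `((F ^ d - lam i ^ d) ^ N) v = 0`.  `H` is the internal direct sum of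
the `F.maxGenEigenspace y` (`Module.End.iSup_maxGenEigenspace_eq_top`, `Module.End.independent_maxGenEigenspace`); all these
spaces are stable under `F ^ d - lam i ^ d`, so for the components `v_y` of `v` we have `((F ^ d - lam i ^ d) ^ N) v_y = 0`.  If
`y ≠ lam i` and `v_y ≠ 0` then `y` is an eigenvalue of `F`, a root of `p`, so `y = lam l` with `l ≠ i` or `R.IsRoot y`, and
`y ^ d ≠ lam i ^ d` by `h`.  The polynomials `(X ^ d - C (lam i ^ d)) ^ N` and `(X - C y) ^ M` are coprime (the first does not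
vanish at `y`), both kill `v_y`, so `v_y = 0`: contradiction.  So `v ∈ F.maxGenEigenspace (lam i) = span {e i}`.  Conversely
`(F ^ d) (e i) = lam i ^ d • e i`.

(Another way, without components: the polynomial `p = (X - C (lam i)) * q` kills `v` (Cayley-Hamilton,
`LinearMap.aeval_self_charpoly`), and so does `(X ^ d - C (lam i ^ d)) ^ N`.  Every root of `q` is `y` with
`y ^ d ≠ lam i ^ d`, so `q` and `(X ^ d - C (lam i ^ d)) ^ N` are coprime, and `X ^ d - C (lam i ^ d)` is divisible by
`X - C (lam i)`: with `a * q + b * (X ^ d - C (lam i ^ d)) ^ N = 1` we get `v = aeval F (a * q) v`, and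
`(F - lam i) v = aeval F (a * p) v = 0`.  So `v` is in the eigenspace of `lam i`, which is `span {e i}`: this uses only that the
eigenspace is one-dimensional.) -/

set_option autoImplicit false

namespace TPR

open Polynomial Module Function

theorem eigen_data {H : Type} [AddCommGroup H] [Module ℂ H] [FiniteDimensional ℂ H] {F : End ℂ H} {ι : Type} [Fintype ι]
    [DecidableEq ι] {lam : ι → ℂ} {R : ℂ[X]} (hchar : F.charpoly = (∏ i, (X - C (lam i))) * R)
    (h : ∀ d : ℕ, 0 < d → ∀ i, (∀ l, l ≠ i → lam l ^ d ≠ lam i ^ d) ∧ ∀ y, R.IsRoot y → y ^ d ≠ lam i ^ d) :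
    ∃ e : ι → H, ∀ i, e i ≠ 0 ∧ F (e i) = lam i • e i ∧
      ∀ d : ℕ, 0 < d → (F ^ d).maxGenEigenspace (lam i ^ d) = Submodule.span ℂ {e i} := by
  classical
  have hev : ∀ i, F.HasEigenvalue (lam i) := by
    intro i
    rw [Module.End.hasEigenvalue_iff_isRoot_charpoly, hchar, ← Finset.mul_prod_erase _ _ (Finset.mem_univ i)]
    rw [IsRoot.def, eval_mul, eval_mul, eval_sub, eval_X, eval_C, sub_self, zero_mul, zero_mul]
  choose e he using fun i => (hev i).exists_hasEigenvector
  refine ⟨e, fun i => ⟨(he i).2, (he i).apply_eq_smul, ?_⟩⟩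
  obtain ⟨q, hq⟩ : ∃ q : ℂ[X], q = (∏ l ∈ Finset.univ.erase i, (X - C (lam l))) * R := ⟨_, rfl⟩
  have hpq : F.charpoly = (X - C (lam i)) * q := by
    rw [hq, hchar, ← Finset.mul_prod_erase _ _ (Finset.mem_univ i), mul_assoc]
  have hroot : ∀ y, q.IsRoot y → ∀ d : ℕ, 0 < d → y ^ d ≠ lam i ^ d := by
    intro y hy d hd
    rw [hq, IsRoot.def, eval_mul, mul_eq_zero] at hy
    rcases hy with hy | hy
    · rw [eval_prod, Finset.prod_eq_zero_iff] at hy
      obtain ⟨l, hl, hl2⟩ := hy
      rw [eval_sub, eval_X, eval_C, sub_eq_zero] at hl2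
      rw [hl2]
      exact (h d hd i).1 l (Finset.ne_of_mem_erase hl)
    · exact (h d hd i).2 y hy
  have hq0 : ¬ q.IsRoot (lam i) := fun g => hroot _ g 1 one_pos rfl
  have hp0 : (X - C (lam i)) * q ≠ 0 := by
    rw [← hpq]
    exact F.charpoly_monic.ne_zero
  have hmul : F.charpoly.rootMultiplicity (lam i) = 1 := by
    rw [hpq, rootMultiplicity_mul hp0, rootMultiplicity_X_sub_C_self, rootMultiplicity_eq_zero hq0]
  have hfin : finrank ℂ (F.maxGenEigenspace (lam i)) = 1 := by
    rw [LinearMap.finrank_maxGenEigenspace_eq, hmul]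
  have hmem : e i ∈ F.maxGenEigenspace (lam i) := by
    rw [Module.End.mem_maxGenEigenspace]
    refine ⟨1, ?_⟩
    rw [pow_one, LinearMap.sub_apply, LinearMap.smul_apply, Module.End.one_apply, (he i).apply_eq_smul, sub_self]
  have hone : ∀ w ∈ F.maxGenEigenspace (lam i), w ∈ Submodule.span ℂ {e i} := by
    intro w hw
    have hne : (⟨e i, hmem⟩ : F.maxGenEigenspace (lam i)) ≠ 0 := fun g =>
      (he i).2 (congrArg Subtype.val g)
    obtain ⟨c, hc⟩ := (finrank_eq_one_iff_of_nonzero' _ hne).1 hfin ⟨w, hw⟩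
    rw [Submodule.mem_span_singleton]
    exact ⟨c, congrArg Subtype.val hc⟩
  intro d hd
  refine le_antisymm ?_ ?_
  · intro v hv
    obtain ⟨N, hN⟩ := (Module.End.mem_maxGenEigenspace _ _ _).1 hv
    have hco : IsCoprime q ((X ^ d - C (lam i ^ d)) ^ N) := by
      refine (Polynomial.isCoprime_iff_aeval_ne_zero_of_isAlgClosed (k := ℂ) ℂ _ _).2 fun y => ?_
      by_cases hy : aeval y q = 0
      · right
        have h1 : y ^ d ≠ lam i ^ d := hroot y (by
          rw [IsRoot.def]
          rw [coe_aeval_eq_eval] at hy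
          exact hy) d hd
        rw [map_pow, map_sub, map_pow, aeval_X, aeval_C]
        exact pow_ne_zero _ (sub_ne_zero.2 h1)
      · exact Or.inl hy
    obtain ⟨a, b, hab⟩ := hco
    have hG : aeval F ((X ^ d - C (lam i ^ d)) ^ N) = (F ^ d - lam i ^ d • (1 : End ℂ H)) ^ N := by
      rw [map_pow, map_sub, map_pow, aeval_X, aeval_C, Algebra.algebraMap_eq_smul_one]
    have hv1 : v = aeval F (a * q) v := by
      have h1 : aeval F (a * q + b * (X ^ d - C (lam i ^ d)) ^ N) v = v := by
        rw [hab, map_one, Module.End.one_apply]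
      rw [map_add, LinearMap.add_apply, map_mul (aeval F) b, Module.End.mul_apply, hG, hN, map_zero,
        add_zero] at h1
      exact h1.symm
    have hv2 : (F - lam i • (1 : End ℂ H)) v = 0 := by
      have h1 : F - lam i • (1 : End ℂ H) = aeval F (X - C (lam i)) := by
        rw [map_sub, aeval_X, aeval_C, Algebra.algebraMap_eq_smul_one]
      rw [h1, hv1, ← Module.End.mul_apply, ← map_mul]
      have h2 : (X - C (lam i)) * (a * q) = a * F.charpoly := by
        rw [hpq]
        ring
      rw [h2, map_mul, LinearMap.aeval_self_charpoly, mul_zero, LinearMap.zero_apply]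
    exact hone v ((Module.End.mem_maxGenEigenspace _ _ _).2 ⟨1, by rw [pow_one]; exact hv2⟩)
  · rw [Submodule.span_singleton_le_iff_mem, Module.End.mem_maxGenEigenspace]
    refine ⟨1, ?_⟩
    rw [pow_one, LinearMap.sub_apply, LinearMap.smul_apply, Module.End.one_apply, (he i).pow_apply, sub_self]

end TPR
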