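import Pool.Agent.Lib.MP_021685_agTP.P0

/-! LEAF PC (medium-).  The projection to a one-dimensional generalised eigenspace is a polynomial in the endomorphism.

PROOF of `exists_proj`.  `f e = z • e`: `e` is in `f.maxGenEigenspace z = span {e}`, which is stable under `f`, so `f e = c • e`,
and `((f - z) ^ N) e = (c - z) ^ N • e = 0`, so `c = z`.  Let `m = f.charpoly` (or `minpoly ℂ f`), `m ≠ 0`, and
`m = (X - C z) ^ n * m₁` with `m₁.eval z ≠ 0` (`n` the multiplicity of the root `z`: `Polynomial.exists_eq_pow_rootMultiplicity_mul_and_not_dvd`).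
Let `π = (m₁.eval z)⁻¹ • aeval f m₁`.  (1) `aeval f m₁ e = m₁.eval z • e` (`Module.End.aeval_apply_of_hasEigenvector`, or by induction),
so `π e = e`.  (2) `((f - z) ^ n) (aeval f m₁ v) = aeval f m v = 0`, so `π v ∈ f.maxGenEigenspace z = span {e}`.
(3) If `f S ⊆ S` then `aeval f m₁ S ⊆ S` (induction on the polynomial).  (4) `ℓ (aeval f m₁ v) = m₁.eval z * ℓ v` (induction on the
polynomial, from `hℓ`), so `ℓ (π v) = ℓ v`. -/

set_option autoImplicit false

namespace TPR

open Polynomial Module Function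

private theorem PC_pow {H : Type} [AddCommGroup H] [Module ℂ H] {f : End ℂ H} {c : ℂ} {e : H} (h : f e = c • e)
    (n : ℕ) : (f ^ n) e = c ^ n • e := by
  induction n with
  | zero => rw [pow_zero, pow_zero, one_smul, Module.End.one_apply]
  | succ n ih => rw [pow_succ', Module.End.mul_apply, ih, map_smul, h, smul_smul, pow_succ]

private theorem PC_mem {H : Type} [AddCommGroup H] [Module ℂ H] {f : End ℂ H} {S : Submodule ℂ H}
    (hS : ∀ v ∈ S, f v ∈ S) (p : ℂ[X]) : ∀ v ∈ S, aeval f p v ∈ S := by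
  have hn : ∀ n : ℕ, ∀ v ∈ S, (f ^ n) v ∈ S := by
    intro n
    induction n with
    | zero =>
      intro v hv
      rw [pow_zero, Module.End.one_apply]
      exact hv
    | succ n ih =>
      intro v hv
      rw [pow_succ', Module.End.mul_apply]
      exact hS _ (ih v hv)
  induction p using Polynomial.induction_on' with
  | add p q hp hq =>
    intro v hv
    rw [map_add, LinearMap.add_apply]
    exact S.add_mem (hp v hv) (hq v hv)
  | monomial n a =>
    intro v hv
    rw [aeval_monomial, ← Algebra.smul_def, LinearMap.smul_apply]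
    exact S.smul_mem a (hn n v hv)

private theorem PC_ev {H : Type} [AddCommGroup H] [Module ℂ H] {f : End ℂ H} {z : ℂ} {ℓ : H →ₗ[ℂ] ℂ}
    (hℓ : ∀ v, ℓ (f v) = z * ℓ v) (p : ℂ[X]) : ∀ v, ℓ (aeval f p v) = p.eval z * ℓ v := by
  have hn : ∀ n : ℕ, ∀ v, ℓ ((f ^ n) v) = z ^ n * ℓ v := by
    intro n
    induction n with
    | zero =>
      intro v
      rw [pow_zero, pow_zero, one_mul, Module.End.one_apply]
    | succ n ih =>
      intro v
      rw [pow_succ', Module.End.mul_apply, hℓ, ih, pow_succ', mul_assoc]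
  induction p using Polynomial.induction_on' with
  | add p q hp hq =>
    intro v
    rw [map_add, LinearMap.add_apply, map_add, hp, hq, eval_add, add_mul]
  | monomial n a =>
    intro v
    rw [aeval_monomial, ← Algebra.smul_def, LinearMap.smul_apply, map_smul, hn, eval_monomial, smul_eq_mul, mul_assoc]

theorem exists_proj {H : Type} [AddCommGroup H] [Module ℂ H] [FiniteDimensional ℂ H] {f : End ℂ H} {z : ℂ} {e : H}
    (he : e ≠ 0) (h : f.maxGenEigenspace z = Submodule.span ℂ {e}) {ℓ : H →ₗ[ℂ] ℂ} (hℓ : ∀ v, ℓ (f v) = z * ℓ v) :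
    ∃ π : End ℂ H, π e = e ∧ (∀ v, ∃ c : ℂ, π v = c • e) ∧
      (∀ S : Submodule ℂ H, (∀ v ∈ S, f v ∈ S) → ∀ v ∈ S, π v ∈ S) ∧ ∀ v, ℓ (π v) = ℓ v := by
  have hem : e ∈ f.maxGenEigenspace z := by
    rw [h]
    exact Submodule.mem_span_singleton_self e
  obtain ⟨c, hc⟩ : ∃ c : ℂ, f e = c • e := by
    have h1 : f e ∈ f.maxGenEigenspace z :=
      Module.End.mapsTo_maxGenEigenspace_of_comm (Commute.refl f) z hem
    rw [h, Submodule.mem_span_singleton] at h1
    obtain ⟨c, hc⟩ := h1
    exact ⟨c, hc.symm⟩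
  have hcz : c = z := by
    obtain ⟨N, hN⟩ := (Module.End.mem_maxGenEigenspace f z e).1 hem
    have h1 : (f - z • (1 : End ℂ H)) e = (c - z) • e := by
      rw [LinearMap.sub_apply, LinearMap.smul_apply, Module.End.one_apply, hc, sub_smul]
    rw [PC_pow h1] at hN
    rcases smul_eq_zero.1 hN with h2 | h2
    · exact sub_eq_zero.1 (by by_contra h3; exact pow_ne_zero N h3 h2)
    · exact absurd h2 he
  subst hcz
  obtain ⟨m₁, hm, hd⟩ := exists_eq_pow_rootMultiplicity_mul_and_not_dvd f.charpoly (LinearMap.charpoly_monic f).ne_zero c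
  have hm1 : m₁.eval c ≠ 0 := fun h1 => hd (dvd_iff_isRoot.2 h1)
  refine ⟨(m₁.eval c)⁻¹ • aeval f m₁, ?_, ?_, ?_, ?_⟩
  · rw [LinearMap.smul_apply, Module.End.aeval_apply_of_hasEigenvector ⟨Module.End.mem_eigenspace_iff.2 hc, he⟩,
      smul_smul, inv_mul_cancel₀ hm1, one_smul]
  · intro v
    have h1 : aeval f m₁ v ∈ f.maxGenEigenspace c := by
      rw [Module.End.mem_maxGenEigenspace]
      refine ⟨f.charpoly.rootMultiplicity c, ?_⟩
      have h2 := LinearMap.aeval_self_charpoly f
      rw [hm, map_mul, map_pow, map_sub, aeval_X, aeval_C, Algebra.algebraMap_eq_smul_one] at h2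
      have h3 := LinearMap.congr_fun h2 v
      rw [Module.End.mul_apply, LinearMap.zero_apply] at h3
      exact h3
    rw [h, Submodule.mem_span_singleton] at h1
    obtain ⟨a, ha⟩ := h1
    refine ⟨(m₁.eval c)⁻¹ * a, ?_⟩
    rw [LinearMap.smul_apply, ← ha, smul_smul]
  · intro S hS v hv
    rw [LinearMap.smul_apply]
    exact S.smul_mem _ (PC_mem hS m₁ v hv)
  · intro v
    rw [LinearMap.smul_apply, map_smul, PC_ev hℓ, smul_eq_mul, ← mul_assoc, inv_mul_cancel₀ hm1, one_mul]

end TPR
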