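import Pool.Agent.Lib.MP_021685_agTP.P0

/-! LEAF PC2 (easy+).  A vector fixed by a projection to its line is in a sum of stable subspaces only if it is in one of them.

PROOF of `mem_of_sSup`.  Suppose `e ∉ S` for all `S ∈ 𝒮`.  For `v ∈ S ∈ 𝒮`: `π v = c • e ∈ S`, so `c = 0` and `π v = 0` (otherwise
`e = c⁻¹ • π v ∈ S`).  So `S ≤ LinearMap.ker π` for all `S ∈ 𝒮`, `sSup 𝒮 ≤ LinearMap.ker π` (`sSup_le`), and `e = π e = 0`:
contradiction.

PROOF of `star`.  Let `c = ψ e f ≠ 0`, `t = sq ψ e f`: `t v = ψ e v • f + ψ f v • e` (`sq_apply`), `ψ f e = - c` (`alt_neg`),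
`ψ f f = ψ e e = 0`.  `t e = - c • e`, `t f = c • f`, and `t (t v) = ψ e v • c • f - ψ f v • c • e`.  Let
`π = (2 * c ^ 2)⁻¹ • (t * t - c • t)`: `π v = - (ψ f v / c) • e`.  So `π e = e` and `π v` is a multiple of `e`.  If `S` is stable under
all `X ∈ 𝔞`, it is stable under `t` and so under `π`.  `e ≠ 0` as `ψ e f ≠ 0`.  Apply `mem_of_sSup`. -/

set_option autoImplicit false

namespace TPR

open Module Function

theorem mem_of_sSup {H : Type} [AddCommGroup H] [Module ℂ H] {π : End ℂ H} {e : H} (he : e ≠ 0) (h1 : π e = e)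
    (h2 : ∀ v, ∃ c : ℂ, π v = c • e) {𝒮 : Set (Submodule ℂ H)} (h : ∀ S ∈ 𝒮, ∀ v ∈ S, π v ∈ S) (hm : e ∈ sSup 𝒮) :
    ∃ S ∈ 𝒮, e ∈ S := by
  by_contra hcon
  push Not at hcon
  have hS : ∀ S ∈ 𝒮, S ≤ LinearMap.ker π := by
    intro S hS v hv
    obtain ⟨c, hc⟩ := h2 v
    have h3 := h S hS v hv
    rw [hc] at h3
    rw [LinearMap.mem_ker, hc]
    by_cases hc0 : c = 0
    · rw [hc0, zero_smul]
    · exfalso
      apply hcon S hS
      have h4 := S.smul_mem c⁻¹ h3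
      rwa [smul_smul, inv_mul_cancel₀ hc0, one_smul] at h4
  have h5 : e ∈ LinearMap.ker π := sSup_le hS hm
  rw [LinearMap.mem_ker, h1] at h5
  exact he h5

theorem star {H : Type} [AddCommGroup H] [Module ℂ H] {ψ : H →ₗ[ℂ] H →ₗ[ℂ] ℂ} (halt : ∀ u, ψ u u = 0) {e f : H}
    (hef : ψ e f ≠ 0) {𝔞 : Set (End ℂ H)} (ht : sq ψ e f ∈ 𝔞) (𝒮 : Set (Submodule ℂ H))
    (h : ∀ S ∈ 𝒮, ∀ X ∈ 𝔞, ∀ v ∈ S, X v ∈ S) (hm : e ∈ sSup 𝒮) : ∃ S ∈ 𝒮, e ∈ S := by
  have hfe : ψ f e = -ψ e f := alt_neg halt f e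
  have he : e ≠ 0 := by
    intro h0
    apply hef
    rw [h0, map_zero, LinearMap.zero_apply]
  have hte : sq ψ e f e = -(ψ e f) • e := by
    rw [sq_apply, halt, zero_smul, zero_add, hfe]
  have htf : sq ψ e f f = ψ e f • f := by
    rw [sq_apply, halt, zero_smul, add_zero]
  have htt : ∀ v, sq ψ e f (sq ψ e f v) - ψ e f • sq ψ e f v = (-(2 * ψ e f * ψ f v)) • e := by
    intro v
    have h1 : sq ψ e f (sq ψ e f v) = ψ e v • sq ψ e f f + ψ f v • sq ψ e f e := by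
      rw [sq_apply ψ e f v, map_add, map_smul, map_smul]
    rw [h1, hte, htf, sq_apply ψ e f v]
    module
  have hπ : ∀ v, ((2 * ψ e f ^ 2)⁻¹ • (sq ψ e f * sq ψ e f - ψ e f • sq ψ e f) : End ℂ H) v =
      (-(ψ f v / ψ e f)) • e := by
    intro v
    rw [LinearMap.smul_apply, LinearMap.sub_apply, Module.End.mul_apply, LinearMap.smul_apply, htt, smul_smul]
    congr 1
    field_simp
  refine mem_of_sSup (π := (2 * ψ e f ^ 2)⁻¹ • (sq ψ e f * sq ψ e f - ψ e f • sq ψ e f)) he ?_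
    (fun v => ⟨_, hπ v⟩) ?_ hm
  · rw [hπ, hfe, neg_div, div_self hef, neg_neg, one_smul]
  · intro S hS v hv
    have h1 : sq ψ e f v ∈ S := h S hS _ ht v hv
    have h2 : sq ψ e f (sq ψ e f v) ∈ S := h S hS _ ht _ h1
    rw [LinearMap.smul_apply, LinearMap.sub_apply, Module.End.mul_apply, LinearMap.smul_apply]
    exact S.smul_mem _ (S.sub_mem h2 (S.smul_mem _ h1))

end TPR
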