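import Pool.Agent.Lib.MP_021685_agTP.P0
import Pool.Agent.Lib.MP_021685_agTG.GN3

/-! LEAF PA (easy+).  The powers of the roots of `P` are distinct from each other and from the powers of small numbers.

PROOF.  `TGR.rel_of_fullOver hQ hg hF hlam hinj bar hbb hbar n hy hn i : n (bar i) = n i` (file `MP_021685_agTG/GN3.lean`) for
every relation `(∏ i, lam i ^ n i) * y = 1` with `TAR.Small Q P g y`.  (1) If `lam l ^ d = lam i ^ d` with `l ≠ i`, take
`n = fun j => (if j = i then d else 0) - (if j = l then d else 0)` (integers) and `y = 1` (`TGR.small_one`): the product is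
`lam i ^ d * (lam l ^ d)⁻¹ = 1` (`lam j ≠ 0` from `hbar`, `Q ≠ 0`; `zpow_sub₀`, `Finset.prod_mul_distrib`/`Finset.prod_ite_eq'`, or
write `n` as a sum of two `Pi.single`).  So `n (bar i) = n i = d` (as `l ≠ i`); but `bar i ≠ i`, so `n (bar i)` is `0` or `- d`:
contradiction to `0 < d`.  (2) If `y ^ d = lam i ^ d`, `y` small: `y ≠ 0`; take `n = fun j => if j = i then d else 0` and the
number `(y ^ d)⁻¹`, which is small (`TGR.small_inv` and `small_prod`; a power of a small number is small: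
`TGR.small_prod` for `κ = Fin 1` or `Unit`, `rho = fun _ => y`, `l = fun _ => - d` gives `y ^ (- d)` directly).  So
`0 = n (bar i) = n i = d`: contradiction. -/

set_option autoImplicit false

namespace TPR

open Polynomial Module Function

private theorem PA_single {ι : Type} [Fintype ι] [DecidableEq ι] (lam : ι → ℂ) (i : ι) (m : ℤ) :
    ∏ j, lam j ^ (Pi.single i m : ι → ℤ) j = lam i ^ m := by
  rw [Finset.prod_eq_single i]
  · rw [Pi.single_eq_same]
  · intro j _ hj
    rw [Pi.single_eq_of_ne hj, zpow_zero]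
  · intro h
    exact absurd (Finset.mem_univ i) h

theorem pow_ne {Q g : ℕ} (hQ : 1 < Q) (hg : 0 < g) {P : ℤ[X]} (hF : TAR.FullOver Q P g) {ι : Type} [Fintype ι]
    [DecidableEq ι] {lam : ι → ℂ} (hlam : P.map (Int.castRingHom ℂ) = ∏ i, (X - C (lam i)))
    (hinj : Function.Injective lam) {bar : ι → ι} (hbb : ∀ i, bar (bar i) = i) (hbn : ∀ i, bar i ≠ i)
    (hbar : ∀ i, lam i * lam (bar i) = (Q : ℂ)) {d : ℕ} (hd : 0 < d) (i : ι) :
    (∀ l, l ≠ i → lam l ^ d ≠ lam i ^ d) ∧ ∀ y, TAR.Small Q P g y → y ^ d ≠ lam i ^ d := by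
  have hq0c : (Q : ℂ) ≠ 0 := by
    have : Q ≠ 0 := by omega
    exact_mod_cast this
  have hlam0 : ∀ i, lam i ≠ 0 := by
    intro i h
    have h1 := hbar i
    rw [h, zero_mul] at h1
    exact hq0c h1.symm
  constructor
  · intro l hl h
    have h1 : ∏ j, lam j ^ (Pi.single i (d : ℤ) - Pi.single l (d : ℤ) : ι → ℤ) j = 1 := by
      have h2 : ∀ j, lam j ^ (Pi.single i (d : ℤ) - Pi.single l (d : ℤ) : ι → ℤ) j =
          lam j ^ (Pi.single i (d : ℤ) : ι → ℤ) j / lam j ^ (Pi.single l (d : ℤ) : ι → ℤ) j := fun j => by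
        rw [Pi.sub_apply, zpow_sub₀ (hlam0 j)]
      rw [Finset.prod_congr rfl fun j _ => h2 j, Finset.prod_div_distrib, PA_single, PA_single, zpow_natCast,
        zpow_natCast, h, div_self (pow_ne_zero _ (hlam0 i))]
    have h3 := TGR.rel_of_fullOver hQ hg hF hlam hinj bar hbb hbar _ TGR.small_one (by rw [h1, mul_one]) i
    rw [Pi.sub_apply, Pi.sub_apply, Pi.single_eq_same, Pi.single_eq_of_ne (hbn i), Pi.single_eq_of_ne (Ne.symm hl)]
      at h3
    by_cases h4 : bar i = l
    · rw [h4, Pi.single_eq_same] at h3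
      omega
    · rw [Pi.single_eq_of_ne h4] at h3
      omega
  · intro y hy h
    have hy0 : y ≠ 0 := by
      intro h0
      rw [h0, zero_pow hd.ne'] at h
      exact pow_ne_zero _ (hlam0 i) h.symm
    have h1 := (TGR.small_prod (κ := Unit) (rho := fun _ => y) (fun _ => ⟨hy0, hy⟩) fun _ => -(d : ℤ)).2
    rw [Finset.univ_unique, Finset.prod_singleton] at h1
    have h2 : (∏ j, lam j ^ (Pi.single i (d : ℤ) : ι → ℤ) j) * y ^ (-(d : ℤ)) = 1 := by
      rw [PA_single, zpow_natCast, zpow_neg, zpow_natCast, h, mul_inv_cancel₀ (pow_ne_zero _ (hlam0 i))]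
    have h3 := TGR.rel_of_fullOver hQ hg hF hlam hinj bar hbb hbar _ h1 h2 i
    rw [Pi.single_eq_same, Pi.single_eq_of_ne (hbn i)] at h3
    omega

end TPR
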