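import Pool.Agent.Lib.MP_021685_agTP.PE
import Pool.Agent.Lib.MP_021685_agTP.PA

/-! LEAF PF (medium+).  The torus of the roots of `P` kills the form.

PROOF.  `H` is the sum of the `F.maxGenEigenspace y` (`Module.End.iSup_maxGenEigenspace_eq_top`), and
`v ↦ ∑ a, T (update v a (X (v a)))` is multilinear in `v` (it is `TGR.der X T`, `TGR.der_apply`), so it is enough to show that it
vanishes if every `v a` is in some `F.maxGenEigenspace (y a)`: a multilinear map which vanishes on the tuples of a generating set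
vanishes (for example: the `v` can be taken in a basis adapted to the decomposition, or replace the arguments one by one with
`Submodule.iSup_induction`/`Submodule.span_induction`).  Let `v a ∈ F.maxGenEigenspace (y a)`, `v a ≠ 0`; then `y a` is an
eigenvalue of `F`, a root of `P.map .. * R`; `y a ≠ 0`, as `F` is injective (`ψ (F u) (F v) = Q ψ u v`, `ψ` non-degenerate).

`ψ (e i) u ≠ 0` for some `u ∈ F.maxGenEigenspace y` implies `lam i * y = Q`, that is `y = lam (bar i)`: `ψ (e i) (F u) = (Q / lam i) * ψ (e i) u`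
(`hψ` and `F (e i) = lam i • e i`), so `ψ (e i) (((F - y) ^ n) u) = (Q / lam i - y) ^ n * ψ (e i) u`.
So for `X = sq ψ (e i) (e (bar i))`: `X (v a) = ψ (e i) (v a) • e (bar i) + ψ (e (bar i)) (v a) • e i` is zero unless `y a = lam (bar i)` or
`y a = lam i`; if `y a = lam i` then `v a = c • e i` (`hgen` for the exponent `1`), and `X (v a) = ψ (e (bar i)) (e i) • v a = - κ • v a`,
`κ = ψ (e i) (e (bar i))`; if `y a = lam (bar i)` then `X (v a) = κ • v a`.  So the sum is `κ (n₂ - n₁) T v`, where `n₁`, `n₂` are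
the numbers of the `a` with `y a = lam i`, `y a = lam (bar i)`.  If `T v = 0` it is zero.  If `T v ≠ 0`, `eig_prod` gives an eigenvalue `z` of `Φ`
with `(∏ a, y a) ^ d * z ^ d = Q ^ j`.  Let `cnt l` be the number of the `a` with `y a = lam l` and `y'` the product of the other `y a`
(roots of `R`, small): `∏ a, y a = (∏ l, lam l ^ cnt l) * y'`.  So `(∏ l, lam l ^ (d * cnt l : ℤ)) * (y' ^ d * z ^ d * Q ^ (- j)) = 1`, and
the second factor is small (`TGR.small_prod`, `TGR.small_nat hg Q`, `TGR.small_mul`; `z ≠ 0`, as the product is not zero).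
`TGR.rel_of_fullOver` gives `d * cnt (bar i) = d * cnt i`, so `n₂ = n₁`.  (Compare the proof of `TGR.weight` in
`MP_021685_agTG/GB2.lean`.) -/

set_option autoImplicit false

namespace TPR

open Polynomial Module Function

private theorem PF_ext {H N : Type} [AddCommGroup H] [Module ℂ H] [AddCommGroup N] [Module ℂ N] {k : ℕ}
    (M : MultilinearMap ℂ (fun _ : Fin k => H) N) (S : Set H) (hS : ⊤ ≤ Submodule.span ℂ S)
    (h : ∀ v : Fin k → H, (∀ a, v a ∈ S) → M v = 0) : ∀ v, M v = 0 := by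
  have h1 : M = 0 := by
    refine Module.Basis.ext_multilinear (fun _ => Module.Basis.ofSpan hS) fun v => ?_
    show M _ = 0
    exact h _ fun a => Module.Basis.ofSpan_subset hS (Set.mem_range_self _)
  intro v
  rw [h1]
  rfl

private theorem PF_pow {H : Type} [AddCommGroup H] [Module ℂ H] {F : End ℂ H} {f : H →ₗ[ℂ] ℂ} {μ y : ℂ}
    (hf : ∀ u, f (F u) = μ * f u) (n : ℕ) (u : H) :
    f (((F - y • (1 : End ℂ H)) ^ n) u) = (μ - y) ^ n * f u := by
  induction n generalizing u with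
  | zero => rw [pow_zero, pow_zero, one_mul]; rfl
  | succ n ih =>
    rw [pow_succ, Module.End.mul_apply, ih, LinearMap.sub_apply, LinearMap.smul_apply, Module.End.one_apply, map_sub, hf,
      map_smul, smul_eq_mul]
    ring

private theorem PF_val {H : Type} [AddCommGroup H] [Module ℂ H] {F : End ℂ H} {f : H →ₗ[ℂ] ℂ} {μ y : ℂ}
    (hf : ∀ u, f (F u) = μ * f u) {u : H} (hu : u ∈ F.maxGenEigenspace y) (hne : f u ≠ 0) : y = μ := by
  rw [Module.End.mem_maxGenEigenspace] at hu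
  obtain ⟨n, hn⟩ := hu
  have h1 := PF_pow (y := y) hf n u
  rw [hn, map_zero] at h1
  have h2 : (μ - y) ^ n = 0 := by
    rcases mul_eq_zero.1 h1.symm with h | h
    · exact h
    · exact absurd h hne
  have h3 : μ - y = 0 := by
    by_contra hc
    exact pow_ne_zero n hc h2
  exact (sub_eq_zero.1 h3).symm

private theorem PF_eig {H : Type} [AddCommGroup H] [Module ℂ H] {F : End ℂ H} {y : ℂ} {u : H}
    (hu : u ∈ F.maxGenEigenspace y) (hne : u ≠ 0) : ∃ w, w ≠ 0 ∧ F w = y • w := by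
  classical
  rw [Module.End.mem_maxGenEigenspace] at hu
  have h0 := Nat.find_spec hu
  have h1 : Nat.find hu ≠ 0 := by
    intro h
    rw [h, pow_zero] at h0
    exact hne h0
  obtain ⟨n, hn⟩ := Nat.exists_eq_succ_of_ne_zero h1
  refine ⟨((F - y • (1 : End ℂ H)) ^ n) u, fun h => ?_, ?_⟩
  · have := Nat.find_min' hu h
    omega
  · rw [hn, Nat.succ_eq_add_one, pow_succ', Module.End.mul_apply, LinearMap.sub_apply, LinearMap.smul_apply,
      Module.End.one_apply, sub_eq_zero] at h0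
    exact h0

private theorem PF_zpow {q : ℕ} {P : ℤ[X]} {g : ℕ} {y : ℂ} (h0 : y ≠ 0) (h : TAR.Small q P g y) (l : ℤ) :
    TAR.Small q P g (y ^ l) := by
  have h1 := (TGR.small_prod (κ := Unit) (rho := fun _ => y) (fun _ => ⟨h0, h⟩) (fun _ => l)).2
  rwa [Fintype.prod_unique] at h1

/-- The weights of the factors agree. -/
private theorem PF_count {Q g : ℕ} (hQ : 1 < Q) (hg : 0 < g) {P : ℤ[X]} (hF : TAR.FullOver Q P g) {ι : Type}
    [Fintype ι] [DecidableEq ι] {lam : ι → ℂ} (hlam : P.map (Int.castRingHom ℂ) = ∏ i, (X - C (lam i)))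
    (hinj : Function.Injective lam) {bar : ι → ι} (hbb : ∀ i, bar (bar i) = i)
    (hbar : ∀ i, lam i * lam (bar i) = (Q : ℂ)) {d : ℕ} (hd : 0 < d) {j : ℤ} {k : ℕ} {y : Fin k → ℂ} (hy0 : ∀ a, y a ≠ 0)
    (hy : ∀ a, (∃ l, y a = lam l) ∨ TAR.Small Q P g (y a)) {z : ℂ} (hz : TAR.Small Q P g z)
    (hyz : (∏ a, y a) ^ d * z ^ d = (Q : ℂ) ^ j) (i : ι) :
    (∑ a, if y a = lam (bar i) then 1 else 0 : ℕ) = ∑ a, if y a = lam i then 1 else 0 := by
  classical
  have hQ0 : (Q : ℂ) ≠ 0 := by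
    have : Q ≠ 0 := by omega
    exact_mod_cast this
  have hz0 : z ≠ 0 := by
    intro h
    rw [h, zero_pow hd.ne', mul_zero] at hyz
    exact zpow_ne_zero j hQ0 hyz.symm
  have hlam0 : ∀ l, lam l ≠ 0 := by
    intro l h
    have h1 := hbar l
    rw [h, zero_mul] at h1
    exact hQ0 h1.symm
  obtain ⟨s, hs⟩ : ∃ s : Fin k → ℂ, ∀ a, s a = if (∃ l, y a = lam l) then 1 else y a := ⟨_, fun _ => rfl⟩
  obtain ⟨cnt, hcnt⟩ : ∃ cnt : ι → ℕ, ∀ l, cnt l = ∑ a, if y a = lam l then 1 else 0 := ⟨_, fun _ => rfl⟩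
  have h1 : ∀ a, y a = (∏ l, lam l ^ (if y a = lam l then 1 else 0 : ℕ)) * s a := by
    intro a
    rw [hs a]
    by_cases ha : ∃ l, y a = lam l
    · rw [if_pos ha, mul_one]
      obtain ⟨l, hl⟩ := ha
      rw [Finset.prod_eq_single l]
      · rw [if_pos hl, pow_one, hl]
      · intro b _ hb
        rw [if_neg, pow_zero]
        intro h
        exact hb (hinj (h.symm.trans hl))
      · intro h
        exact absurd (Finset.mem_univ l) h
    · rw [if_neg ha, Finset.prod_eq_one, one_mul]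
      intro l _
      rw [if_neg, pow_zero]
      exact fun h => ha ⟨l, h⟩
  have h2 : ∏ a, y a = (∏ l, lam l ^ cnt l) * ∏ a, s a := by
    rw [Finset.prod_congr rfl fun a _ => h1 a, Finset.prod_mul_distrib, Finset.prod_comm]
    congr 1
    refine Finset.prod_congr rfl fun l _ => ?_
    rw [Finset.prod_pow_eq_pow_sum, hcnt]
  have h3 : ∀ a, s a ≠ 0 ∧ TAR.Small Q P g (s a) := by
    intro a
    rw [hs a]
    by_cases ha : ∃ l, y a = lam l
    · rw [if_pos ha]
      exact ⟨one_ne_zero, TGR.small_one⟩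
    · rw [if_neg ha]
      exact ⟨hy0 a, (hy a).resolve_left ha⟩
  have h4 := TGR.small_prod h3 (fun _ => (1 : ℤ))
  have h5 : ∏ a, s a ^ (1 : ℤ) = ∏ a, s a := Finset.prod_congr rfl fun a _ => zpow_one (s a)
  rw [h5] at h4
  have h6 : TAR.Small Q P g ((∏ a, s a) ^ (d : ℤ) * z ^ (d : ℤ) * (Q : ℂ) ^ (-j)) :=
    TGR.small_mul (TGR.small_mul (PF_zpow h4.1 h4.2 _) (PF_zpow hz0 hz _)) (PF_zpow hQ0 (TGR.small_nat hg Q) _)
  have h7 : (∏ l, lam l ^ (((d * cnt l : ℕ)) : ℤ)) * ((∏ a, s a) ^ (d : ℤ) * z ^ (d : ℤ) * (Q : ℂ) ^ (-j)) = 1 := by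
    have h8 : (∏ l, lam l ^ (((d * cnt l : ℕ)) : ℤ)) = (∏ l, lam l ^ cnt l) ^ d := by
      rw [← Finset.prod_pow]
      refine Finset.prod_congr rfl fun l _ => ?_
      rw [zpow_natCast, mul_comm d, pow_mul]
    rw [h8, zpow_natCast, zpow_natCast, ← mul_assoc, ← mul_assoc, ← mul_pow, ← h2, hyz, ← zpow_add₀ hQ0, add_neg_cancel,
      zpow_zero]
  have h9 := TGR.rel_of_fullOver hQ hg hF hlam hinj bar hbb hbar (fun l => ((d * cnt l : ℕ) : ℤ)) h6 h7 i
  have h10 : d * cnt (bar i) = d * cnt i := by exact_mod_cast h9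
  rw [← hcnt, ← hcnt]
  exact Nat.eq_of_mul_eq_mul_left hd h10

theorem torus_kill {H W : Type} [AddCommGroup H] [Module ℂ H] [AddCommGroup W] [Module ℂ W] [FiniteDimensional ℂ H]
    [FiniteDimensional ℂ W] {Q g : ℕ} (hQ : 1 < Q) (hg : 0 < g) {P : ℤ[X]} (hF : TAR.FullOver Q P g) {ι : Type}
    [Fintype ι] [DecidableEq ι] {lam : ι → ℂ} (hlam : P.map (Int.castRingHom ℂ) = ∏ i, (X - C (lam i)))
    (hinj : Function.Injective lam) {bar : ι → ι} (hbb : ∀ i, bar (bar i) = i) (hbn : ∀ i, bar i ≠ i)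
    (hbar : ∀ i, lam i * lam (bar i) = (Q : ℂ)) {F : End ℂ H} {R : ℂ[X]}
    (hchar : F.charpoly = P.map (Int.castRingHom ℂ) * R) (hR : ∀ y, R.IsRoot y → TAR.Small Q P g y) {e : ι → H}
    (he : ∀ i, e i ≠ 0 ∧ F (e i) = lam i • e i ∧
      ∀ d : ℕ, 0 < d → (F ^ d).maxGenEigenspace (lam i ^ d) = Submodule.span ℂ {e i})
    {ψ : H →ₗ[ℂ] H →ₗ[ℂ] ℂ} (halt : ∀ u, ψ u u = 0) (hnd : ∀ u, (∀ v, ψ u v = 0) → u = 0)
    (hψ : ∀ u v, ψ (F u) (F v) = (Q : ℂ) * ψ u v) {Φ : End ℂ W} (hsm : ∀ y, End.HasEigenvalue Φ y → TAR.Small Q P g y)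
    {d : ℕ} (hd : 0 < d) {j : ℤ} {k : ℕ} {T : MultilinearMap ℂ (fun _ : Fin k => H) (W →ₗ[ℂ] ℂ)}
    (hT : ∀ v w, T (fun a => (F ^ d) (v a)) ((Φ ^ d) w) = (Q : ℂ) ^ j * T v w) (i : ι) :
    sq ψ (e i) (e (bar i)) ∈ TGR.kill T := by
  classical
  have hQ0 : (Q : ℂ) ≠ 0 := by
    have : Q ≠ 0 := by omega
    exact_mod_cast this
  have hlam0 : ∀ l, lam l ≠ 0 := by
    intro l h
    have h1 := hbar l
    rw [h, zero_mul] at h1
    exact hQ0 h1.symm
  have hFψ : ∀ l u, ψ (e l) (F u) = lam (bar l) * ψ (e l) u := by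
    intro l u
    have h1 := hψ (e l) u
    rw [(he l).2.1, map_smul, LinearMap.smul_apply, smul_eq_mul, ← hbar l, mul_assoc] at h1
    exact mul_left_cancel₀ (hlam0 l) h1
  have hmem : ∀ l u, u ∈ F.maxGenEigenspace (lam l) → ∃ c : ℂ, c • e l = u := by
    intro l u hu
    have h1 := (he l).2.2 1 one_pos
    rw [pow_one, pow_one] at h1
    rw [h1] at hu
    exact Submodule.mem_span_singleton.1 hu
  have hne : lam i ≠ lam (bar i) := fun h => hbn i (hinj h).symm
  obtain ⟨κ, hκ⟩ : ∃ κ : ℂ, κ = ψ (e i) (e (bar i)) := ⟨_, rfl⟩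
  have hact : ∀ y u, u ∈ F.maxGenEigenspace y → sq ψ (e i) (e (bar i)) u =
      (κ * (((if y = lam (bar i) then 1 else 0 : ℕ) : ℂ) - ((if y = lam i then 1 else 0 : ℕ) : ℂ))) • u := by
    intro y u hu
    rw [sq_apply]
    by_cases h1 : y = lam (bar i)
    · have h2 : y ≠ lam i := fun h => hne (h.symm.trans h1)
      rw [if_pos h1, if_neg h2]
      rw [h1] at hu
      obtain ⟨c, rfl⟩ := hmem _ _ hu
      rw [map_smul, map_smul, halt, ← hκ, smul_eq_mul, smul_zero, zero_smul, add_zero, smul_smul]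
      congr 1
      push_cast
      ring
    · by_cases h2 : y = lam i
      · rw [if_neg h1, if_pos h2]
        rw [h2] at hu
        obtain ⟨c, rfl⟩ := hmem _ _ hu
        rw [map_smul, map_smul, halt, alt_neg halt (e (bar i)), ← hκ, smul_eq_mul, smul_eq_mul, mul_zero, zero_smul, zero_add, smul_smul]
        congr 1
        push_cast
        ring
      · rw [if_neg h1, if_neg h2]
        have h3 : ψ (e i) u = 0 := by
          by_contra hc
          exact h1 (PF_val (hFψ i) hu hc)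
        have h4 : ψ (e (bar i)) u = 0 := by
          by_contra hc
          have h5 := PF_val (hFψ (bar i)) hu hc
          rw [hbb] at h5
          exact h2 h5
        rw [h3, h4, zero_smul, zero_smul, add_zero]
        push_cast
        rw [sub_zero, mul_zero, zero_smul]
  have hroot : ∀ y u, u ∈ F.maxGenEigenspace y → u ≠ 0 → y ≠ 0 ∧ ((∃ l, y = lam l) ∨ TAR.Small Q P g y) := by
    intro y u hu hu0
    obtain ⟨w, hw0, hw⟩ := PF_eig hu hu0
    constructor
    · intro hy0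
      rw [hy0, zero_smul] at hw
      refine hw0 (hnd w fun v => ?_)
      have h1 := hψ w v
      rw [hw, map_zero, LinearMap.zero_apply] at h1
      rcases mul_eq_zero.1 h1.symm with h | h
      · exact absurd h hQ0
      · exact h
    · have h1 : End.HasEigenvalue F y :=
        Module.End.hasEigenvalue_of_hasEigenvector (x := w) ⟨Module.End.mem_eigenspace_iff.2 hw, hw0⟩
      rw [Module.End.hasEigenvalue_iff_isRoot_charpoly, hchar, root_mul] at h1
      rcases h1 with h1 | h1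
      · left
        rw [hlam, IsRoot.def, eval_prod, Finset.prod_eq_zero_iff] at h1
        obtain ⟨l, _, hl⟩ := h1
        rw [eval_sub, eval_X, eval_C, sub_eq_zero] at hl
        exact ⟨l, hl⟩
      · exact Or.inr (hR y h1)
  rw [TGR.mem_kill]
  intro v
  rw [← TGR.der_apply]
  refine PF_ext (TGR.der (sq ψ (e i) (e (bar i))) T) (⋃ y, (F.maxGenEigenspace y : Set H)) ?_ ?_ v
  · rw [← Module.End.iSup_maxGenEigenspace_eq_top F, Submodule.span_iUnion]
    refine iSup_mono fun y => ?_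
    exact Submodule.subset_span
  · intro v hv
    have hv1 : ∀ a, ∃ y, v a ∈ F.maxGenEigenspace y := fun a => Set.mem_iUnion.1 (hv a)
    choose y hy using hv1
    rw [TGR.der_apply]
    have h1 : ∀ a, T (update v a (sq ψ (e i) (e (bar i)) (v a))) =
        (κ * (((if y a = lam (bar i) then 1 else 0 : ℕ) : ℂ) - ((if y a = lam i then 1 else 0 : ℕ) : ℂ))) • T v := by
      intro a
      rw [hact (y a) (v a) (hy a), MultilinearMap.map_update_smul, update_eq_self]
    rw [Finset.sum_congr rfl fun a _ => h1 a, ← Finset.sum_smul]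
    by_cases hTv : T v = 0
    · rw [hTv, smul_zero]
    · have hv0 : ∀ a, v a ≠ 0 := fun a h => hTv (T.map_coord_zero a h)
      obtain ⟨z, hz1, hz2⟩ := eig_prod hT (fun a => (hroot _ _ (hy a) (hv0 a)).1) hy hTv
      have h2 := PF_count hQ hg hF hlam hinj hbb hbar hd (fun a => (hroot _ _ (hy a) (hv0 a)).1)
        (fun a => (hroot _ _ (hy a) (hv0 a)).2) (hsm z hz1) hz2 i
      have h3 : ∑ a, (κ * (((if y a = lam (bar i) then 1 else 0 : ℕ) : ℂ) - ((if y a = lam i then 1 else 0 : ℕ) : ℂ))) = 0 := by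
        rw [← Finset.mul_sum, Finset.sum_sub_distrib, ← Nat.cast_sum, ← Nat.cast_sum, h2, sub_self, mul_zero]
      rw [h3, zero_smul]

end TPR
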