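import Pool.Agent.Lib.MP_021685_agTP.P0

/-! LEAF PG (medium-).  A subgroup of finite index with as many stable subspaces as all its subgroups of finite index.

PROOF.  For a subgroup `K` let `A K = Submodule.span ℂ {X : End ℂ H | ∃ g ∈ K, X = ρ g}`; `K' ≤ K` implies `A K' ≤ A K`.  Choose a
subgroup `K₁ ≤ G'` of finite index with `finrank (A K₁)` minimal (`Nat.find` or well-foundedness of the natural numbers; `End ℂ H` is
finite-dimensional), and `K = K₁.normalCore` (`Subgroup.normalCore_le`, normal, of finite index: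
`Subgroup.finiteIndex_normalCore`).  If `K' ≤ K` has finite index then `A K' ≤ A K ≤ A K₁` and the dimensions of `A K'` and `A K₁` are
equal by minimality, so `A K' = A K₁ ∋ ρ g` for `g ∈ K` (`Submodule.eq_of_le_of_finrank_le`).  If `S` is stable under `K'`, all `X ∈ A K'`
map `S` to itself (`Submodule.span_induction`), so `S` is stable under `K`. -/

set_option autoImplicit false

namespace TPR

open Module Function

private theorem PG_min {G H : Type} [Group G] [AddCommGroup H] [Module ℂ H]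
    (ρ : Representation ℂ G H) (G' : Subgroup G) (hG : G'.FiniteIndex) :
    ∃ K₁ : Subgroup G, K₁ ≤ G' ∧ K₁.FiniteIndex ∧ ∀ K' : Subgroup G, K' ≤ G' → K'.FiniteIndex →
      finrank ℂ (Submodule.span ℂ {X : End ℂ H | ∃ g ∈ K₁, X = ρ g}) ≤
        finrank ℂ (Submodule.span ℂ {X : End ℂ H | ∃ g ∈ K', X = ρ g}) := by
  classical
  have hex : ∃ n : ℕ, ∃ K₁ : Subgroup G, K₁ ≤ G' ∧ K₁.FiniteIndex ∧
      finrank ℂ (Submodule.span ℂ {X : End ℂ H | ∃ g ∈ K₁, X = ρ g}) = n := ⟨_, G', le_refl _, hG, rfl⟩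
  obtain ⟨K₁, h1, h2, h3⟩ := Nat.find_spec hex
  refine ⟨K₁, h1, h2, fun K' h1' h2' => ?_⟩
  rw [h3]
  exact Nat.find_min' hex ⟨K', h1', h2', rfl⟩

private theorem PG_span {G H : Type} [Group G] [AddCommGroup H] [Module ℂ H] {ρ : Representation ℂ G H}
    {K' : Subgroup G} {S : Submodule ℂ H} (hS : Stab ρ K' S) {X : End ℂ H}
    (hX : X ∈ Submodule.span ℂ {X : End ℂ H | ∃ g ∈ K', X = ρ g}) : ∀ w ∈ S, X w ∈ S := by
  induction hX using Submodule.span_induction with
  | mem x hx =>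
    obtain ⟨k, hk, rfl⟩ := hx
    exact hS k hk
  | zero =>
    intro w _
    rw [LinearMap.zero_apply]
    exact zero_mem _
  | add x y _ _ hx hy =>
    intro w hw
    rw [LinearMap.add_apply]
    exact add_mem (hx w hw) (hy w hw)
  | smul c x _ hx =>
    intro w hw
    rw [LinearMap.smul_apply]
    exact Submodule.smul_mem _ _ (hx w hw)

theorem exists_min {G H : Type} [Group G] [AddCommGroup H] [Module ℂ H] [FiniteDimensional ℂ H]
    (ρ : Representation ℂ G H) (G' : Subgroup G) (hG : G'.FiniteIndex) :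
    ∃ K : Subgroup G, K ≤ G' ∧ K.FiniteIndex ∧ K.Normal ∧
      ∀ K' : Subgroup G, K' ≤ K → K'.FiniteIndex → ∀ S : Submodule ℂ H, Stab ρ K' S → Stab ρ K S := by
  obtain ⟨K₁, h1, h2, hmin⟩ := PG_min ρ G' hG
  have hc : K₁.normalCore ≤ K₁ := Subgroup.normalCore_le K₁
  refine ⟨K₁.normalCore, hc.trans h1, inferInstance, Subgroup.normalCore_normal K₁, ?_⟩
  intro K' hK' hf S hS g hg v hv
  have hle : Submodule.span ℂ {X : End ℂ H | ∃ g ∈ K', X = ρ g} ≤
      Submodule.span ℂ {X : End ℂ H | ∃ g ∈ K₁, X = ρ g} := by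
    refine Submodule.span_mono ?_
    rintro X ⟨k, hk, rfl⟩
    exact ⟨k, hc (hK' hk), rfl⟩
  have heq := Submodule.eq_of_le_of_finrank_le hle (hmin K' ((hK'.trans hc).trans h1) hf)
  have hg' : ρ g ∈ Submodule.span ℂ {X : End ℂ H | ∃ g ∈ K', X = ρ g} := by
    rw [heq]
    exact Submodule.subset_span ⟨g, hc hg, rfl⟩
  exact PG_span hS hg' v hv

end TPR
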