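import Pool.Agent.Lib.MP_021685_agTP.P0

/-! LEAF PH (medium).  A semisimple representation is semisimple for every normal subgroup (Clifford).

PROOF.  Call a subspace `U ≠ ⊥` with `Stab ρ K U` an atom if every `S ≤ U` with `Stab ρ K S` is `⊥` or `U`.  (1) Every subspace
`S ≠ ⊥` with `Stab ρ K S` contains an atom (take one of smallest dimension among the non-zero stable subspaces of `S`).  (2) The image
`U.map (ρ g)` of an atom is an atom, for all `g : G`: it is stable, as `ρ h (ρ g v) = ρ g (ρ (g⁻¹ h g) v)` and `K` is normal; and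
its stable subspaces are the images of stable subspaces of `U` (`ρ g` is invertible with inverse `ρ g⁻¹`).  (3) Let `B` be the
sum of all atoms.  `B` is stable under `G` by (2) (`Submodule.map_sSup`/`sSup_induction`); let `B'` be a `G`-stable complement
(hypothesis `h`).  If `B' ≠ ⊥`, `B'` contains an atom `U ≤ B` by (1), so `U ≤ B ⊓ B' = ⊥`: contradiction.  So `B' = ⊥` and `B = ⊤`.
(4) Let `Stab ρ K S`, and let `S'` be a subspace of largest dimension among the `S'` with `Stab ρ K S'` and `Disjoint S S'`.  If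
`S ⊔ S' ≠ ⊤` there is an atom `U` with `¬ U ≤ S ⊔ S'` (as `B = ⊤`), so `U ⊓ (S ⊔ S') = ⊥` (it is stable and not `U`), so
`Disjoint S (S' ⊔ U)` and `S' ⊔ U` is stable and larger (`U ≠ ⊥`, `Disjoint S' U`): contradiction. -/

set_option autoImplicit false

namespace TPR

open Module Function

private structure PH_Atom {G H : Type} [Group G] [AddCommGroup H] [Module ℂ H] (ρ : Representation ℂ G H)
    (K : Subgroup G) (U : Submodule ℂ H) : Prop where
  ne : U ≠ ⊥
  st : Stab ρ K U
  min : ∀ S ≤ U, Stab ρ K S → S = ⊥ ∨ S = U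

private theorem PH_inv {G H : Type} [Group G] [AddCommGroup H] [Module ℂ H] (ρ : Representation ℂ G H) (g : G)
    (v : H) : ρ g⁻¹ (ρ g v) = v := by
  have h : (ρ g⁻¹ * ρ g) v = v := by
    rw [← map_mul, inv_mul_cancel, map_one]
    rfl
  exact h

private theorem PH_inv' {G H : Type} [Group G] [AddCommGroup H] [Module ℂ H] (ρ : Representation ℂ G H) (g : G)
    (v : H) : ρ g (ρ g⁻¹ v) = v := by
  have h : (ρ g * ρ g⁻¹) v = v := by
    rw [← map_mul, mul_inv_cancel, map_one]
    rfl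
  exact h

private theorem PH_mul {G H : Type} [Group G] [AddCommGroup H] [Module ℂ H] (ρ : Representation ℂ G H) (g h : G)
    (v : H) : ρ g (ρ h v) = ρ (g * h) v := by
  rw [map_mul]
  rfl

private theorem PH_atom {G H : Type} [Group G] [AddCommGroup H] [Module ℂ H] [FiniteDimensional ℂ H]
    (ρ : Representation ℂ G H) (K : Subgroup G) : ∀ (n : ℕ) (S : Submodule ℂ H), finrank ℂ S = n → S ≠ ⊥ →
      Stab ρ K S → ∃ U ≤ S, PH_Atom ρ K U := by
  intro n
  induction n using Nat.strong_induction_on with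
  | _ n ih =>
    intro S hn hS hst
    by_cases hmin : ∀ S' ≤ S, Stab ρ K S' → S' = ⊥ ∨ S' = S
    · exact ⟨S, le_rfl, ⟨hS, hst, hmin⟩⟩
    · push Not at hmin
      obtain ⟨S', h1, h2, h3, h4⟩ := hmin
      have h5 : finrank ℂ S' < n := by
        rw [← hn]
        exact Submodule.finrank_lt_finrank_of_lt (lt_of_le_of_ne h1 h4)
      obtain ⟨U, hU, hA⟩ := ih _ h5 S' rfl h3 h2
      exact ⟨U, hU.trans h1, hA⟩

private theorem PH_map {G H : Type} [Group G] [AddCommGroup H] [Module ℂ H]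
    {ρ : Representation ℂ G H} {K : Subgroup G} (hK : K.Normal) {U : Submodule ℂ H} (hU : PH_Atom ρ K U) (g : G) :
    PH_Atom ρ K (U.map (ρ g)) := by
  refine ⟨?_, ?_, ?_⟩
  · intro h
    apply hU.ne
    rw [Submodule.eq_bot_iff]
    intro v hv
    have h1 : ρ g v ∈ U.map (ρ g) := Submodule.mem_map_of_mem hv
    rw [h, Submodule.mem_bot] at h1
    rw [← PH_inv ρ g v, h1, map_zero]
  · intro x hx w hw
    obtain ⟨v, hv, rfl⟩ := hw
    have h1 : g⁻¹ * x * g ∈ K := by
      have h2 := hK.conj_mem x hx g⁻¹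
      rwa [inv_inv] at h2
    refine ⟨ρ (g⁻¹ * x * g) v, hU.st _ h1 v hv, ?_⟩
    rw [PH_mul, PH_mul]
    congr 2
    group
  · intro S hS hst
    have hc : Stab ρ K (S.comap (ρ g)) := by
      intro x hx v hv
      show ρ g (ρ x v) ∈ S
      have h1 : g * x * g⁻¹ ∈ K := hK.conj_mem x hx g
      have h2 := hst _ h1 (ρ g v) hv
      have h3 : ρ (g * x * g⁻¹) (ρ g v) = ρ g (ρ x v) := by
        rw [PH_mul, PH_mul]
        congr 2
        group
      rwa [h3] at h2
    have hle : S.comap (ρ g) ≤ U := by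
      intro v hv
      obtain ⟨u, hu, he⟩ := hS hv
      have h1 : u = v := by
        rw [← PH_inv ρ g u, ← PH_inv ρ g v, he]
      rwa [← h1]
    rcases hU.min _ hle hc with h1 | h1
    · left
      rw [Submodule.eq_bot_iff]
      intro w hw
      have h2 : ρ g⁻¹ w ∈ S.comap (ρ g) := by
        show ρ g (ρ g⁻¹ w) ∈ S
        rwa [PH_inv']
      rw [h1, Submodule.mem_bot] at h2
      rw [← PH_inv' ρ g w, h2, map_zero]
    · right
      refine le_antisymm hS ?_
      rintro _ ⟨u, hu, rfl⟩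
      have h2 : u ∈ S.comap (ρ g) := by
        rw [h1]
        exact hu
      exact h2

private theorem PH_sup {G H : Type} [Group G] [AddCommGroup H] [Module ℂ H]
    {ρ : Representation ℂ G H} {K : Subgroup G} {A B : Submodule ℂ H} (hA : Stab ρ K A) (hB : Stab ρ K B) :
    Stab ρ K (A ⊔ B) := by
  intro g hg v hv
  obtain ⟨a, ha, b, hb, rfl⟩ := Submodule.mem_sup.1 hv
  rw [map_add]
  exact Submodule.add_mem_sup (hA g hg a ha) (hB g hg b hb)

theorem semisimple_normal {G H : Type} [Group G] [AddCommGroup H] [Module ℂ H] [FiniteDimensional ℂ H]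
    {ρ : Representation ℂ G H} (h : IsSemisimple ρ) {K : Subgroup G} (hK : K.Normal) {S : Submodule ℂ H}
    (hS : Stab ρ K S) : ∃ S' : Submodule ℂ H, Stab ρ K S' ∧ IsCompl S S' := by
  obtain ⟨B, hB⟩ : ∃ B : Submodule ℂ H, B = sSup {U | PH_Atom ρ K U} := ⟨_, rfl⟩
  have hatB : ∀ U, PH_Atom ρ K U → U ≤ B := by
    intro U hU
    rw [hB]
    exact le_sSup hU
  have hBst : ∀ g, ∀ v ∈ B, ρ g v ∈ B := by
    intro g
    have h1 : B ≤ B.comap (ρ g) := by
      conv_lhs => rw [hB]
      refine sSup_le fun U hU => ?_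
      rw [← Submodule.map_le_iff_le_comap]
      exact hatB _ (PH_map hK hU g)
    exact fun v hv => h1 hv
  obtain ⟨B', hB'st, hcomp⟩ := h B hBst
  have hB' : B' = ⊥ := by
    by_contra hne
    obtain ⟨U, hU, hA⟩ := PH_atom ρ K _ B' rfl hne fun g _ => hB'st g
    apply hA.ne
    have h1 : U ≤ B ⊓ B' := le_inf (hatB U hA) hU
    rw [hcomp.inf_eq_bot] at h1
    exact le_bot_iff.1 h1
  have hBtop : B = ⊤ := by
    have h1 := hcomp.sup_eq_top
    rwa [hB', sup_bot_eq] at h1
  obtain ⟨M, ⟨hMst, hMd⟩, hMmax⟩ := (wellFounded_gt (α := Submodule ℂ H)).has_min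
    {S' | Stab ρ K S' ∧ Disjoint S S'} ⟨⊥, by
      refine ⟨?_, disjoint_bot_right⟩
      intro g _ v hv
      rw [Submodule.mem_bot] at hv ⊢
      rw [hv, map_zero]⟩
  refine ⟨M, hMst, hMd, ?_⟩
  rw [codisjoint_iff]
  by_contra hne
  obtain ⟨U, hU, hnU⟩ : ∃ U, PH_Atom ρ K U ∧ ¬ U ≤ S ⊔ M := by
    by_contra hcon
    push Not at hcon
    apply hne
    rw [eq_top_iff, ← hBtop, hB]
    exact sSup_le fun U hU => hcon U hU
  have hd : Disjoint (S ⊔ M) U := by
    rw [disjoint_comm, disjoint_iff]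
    have h1 : Stab ρ K (U ⊓ (S ⊔ M)) := fun g hg v hv =>
      ⟨hU.st g hg v hv.1, PH_sup hS hMst g hg v hv.2⟩
    rcases hU.min _ inf_le_left h1 with h2 | h2
    · exact h2
    · exact absurd (inf_eq_left.1 h2) hnU
  have hd2 : Disjoint S (M ⊔ U) := hMd.disjoint_sup_right_of_disjoint_sup_left hd
  refine hMmax (M ⊔ U) ⟨PH_sup hMst hU.st, hd2⟩ ?_
  refine lt_of_le_of_ne le_sup_left ?_
  intro he
  apply hnU
  have h3 : U ≤ M := by
    rw [he]
    exact le_sup_right
  exact h3.trans le_sup_right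

end TPR
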