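import Pool.Agent.Lib.MP_021685_agTP.PC2

/-! LEAF PI (medium).  The simple pieces generated by the eigenvectors.

Notation: `V i = orb ρ K (e i)` (`orb_stab`, `orb_le`, `mem_orb` in `P0.lean`); `π i` a projection to the line of `e i` which
preserves all the `K`-stable subspaces.

PROOF of `piece_simple`.  Let `S ≤ V i` be stable and `S'` a stable complement.  `e i = s + s'` is in `sSup {S, S'}`, so by
`mem_of_sSup` `e i ∈ S` or `e i ∈ S'`.  If `e i ∈ S` then `V i ≤ S` (`orb_le`).  If `e i ∈ S'` then `S ≤ V i ≤ S'`, so `S = ⊥`.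

PROOF of `piece_top`.  `⨆ i, V i` is stable; let `S'` be a stable complement.  If `S' ≠ ⊥` then `e l ∈ S'` for some `l` (`hmeet`), and
`e l ∈ V l ≤ ⨆ i, V i`: so `e l = 0`, contradiction.

PROOF of `piece_orth`.  Let `V l ≠ V (bar i)`, and suppose that `ψ u₀ v₀ ≠ 0` for some `u₀ ∈ V i`, `v₀ ∈ V l`.
`{u ∈ V i | ∀ v ∈ V l, ψ u v = 0}` is a stable subspace of `V i` (`hψ`: `ψ (ρ g u) v = ψ (ρ g u) (ρ g (ρ g⁻¹ v)) = m ψ u (ρ g⁻¹ v)`), not
`V i`, so `⊥` (`piece_simple`).  As `e i ≠ 0` is not in it there is `v ∈ V l` with `ψ (e i) v ≠ 0`.  `π (bar i) v ∈ V l` is a multiple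
`c • e (bar i)`, and `ψ (e i) (π (bar i) v) = ψ (e i) v ≠ 0`, so `c ≠ 0` and `e (bar i) ∈ V l`.  So `V (bar i) ≤ V l`
(`orb_le`), and `V (bar i) ≠ ⊥`, so `V (bar i) = V l` (`piece_simple`): contradiction. -/

set_option autoImplicit false

namespace TPR

open Module Function

variable {G H : Type} [Group G] [AddCommGroup H] [Module ℂ H] {ρ : Representation ℂ G H} {K : Subgroup G} {ι : Type}
  {e : ι → H} {π : ι → End ℂ H}

theorem piece_simple (hss : ∀ S, Stab ρ K S → ∃ S' : Submodule ℂ H, Stab ρ K S' ∧ IsCompl S S') (he : ∀ i, e i ≠ 0)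
    (h1 : ∀ i, π i (e i) = e i) (h2 : ∀ i v, ∃ c : ℂ, π i v = c • e i)
    (h3 : ∀ i S, Stab ρ K S → ∀ v ∈ S, π i v ∈ S) (i : ι) {S : Submodule ℂ H} (hS : Stab ρ K S)
    (hle : S ≤ orb ρ K (e i)) : S = ⊥ ∨ S = orb ρ K (e i) := by
  obtain ⟨S', hS', hc⟩ := hss S hS
  have hm : e i ∈ sSup ({S, S'} : Set (Submodule ℂ H)) := by
    rw [sSup_pair, hc.sup_eq_top]
    exact Submodule.mem_top
  obtain ⟨T, hT, heT⟩ := mem_of_sSup (π := π i) (he i) (h1 i) (h2 i) (𝒮 := {S, S'})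
    (by
      intro T hT v hv
      rcases hT with rfl | hT
      · exact h3 i _ hS v hv
      · rw [Set.mem_singleton_iff] at hT
        subst hT
        exact h3 i _ hS' v hv) hm
  rcases hT with rfl | hT
  · exact Or.inr (le_antisymm hle (orb_le hS heT))
  · rw [Set.mem_singleton_iff] at hT
    subst hT
    left
    have h5 : S ≤ T := hle.trans (orb_le hS' heT)
    exact le_bot_iff.1 (hc.disjoint le_rfl h5)

theorem piece_top (hss : ∀ S, Stab ρ K S → ∃ S' : Submodule ℂ H, Stab ρ K S' ∧ IsCompl S S') (he : ∀ i, e i ≠ 0)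
    (hmeet : ∀ S, Stab ρ K S → S ≠ ⊥ → ∃ i, e i ∈ S) : ⨆ i, orb ρ K (e i) = ⊤ := by
  have hst : Stab ρ K (⨆ i, orb ρ K (e i)) := by
    intro g hg
    have h5 : (⨆ i, orb ρ K (e i)) ≤ (⨆ i, orb ρ K (e i)).comap (ρ g) := by
      refine iSup_le fun i => ?_
      intro v hv
      exact (le_iSup (fun i => orb ρ K (e i)) i) (orb_stab K (e i) g hg v hv)
    exact fun v hv => h5 hv
  obtain ⟨S', hS', hc⟩ := hss _ hst
  by_cases hb : S' = ⊥
  · have h6 := hc.sup_eq_top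
    rwa [hb, sup_bot_eq] at h6
  · exfalso
    obtain ⟨l, hl⟩ := hmeet S' hS' hb
    have h7 : e l ∈ ⨆ i, orb ρ K (e i) := (le_iSup (fun i => orb ρ K (e i)) l) (mem_orb K (e l))
    exact he l (Submodule.disjoint_def.1 hc.disjoint _ h7 hl)

theorem piece_orth (hss : ∀ S, Stab ρ K S → ∃ S' : Submodule ℂ H, Stab ρ K S' ∧ IsCompl S S') (he : ∀ i, e i ≠ 0)
    (h1 : ∀ i, π i (e i) = e i) (h2 : ∀ i v, ∃ c : ℂ, π i v = c • e i)
    (h3 : ∀ i S, Stab ρ K S → ∀ v ∈ S, π i v ∈ S) {bar : ι → ι} (hbb : ∀ i, bar (bar i) = i)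
    {ψ : H →ₗ[ℂ] H →ₗ[ℂ] ℂ} {μ : G →* ℂˣ} (hψ : ∀ g u v, ψ (ρ g u) (ρ g v) = μ g * ψ u v)
    (h4 : ∀ i v, ψ (e i) (π (bar i) v) = ψ (e i) v) {i l : ι} (hne : orb ρ K (e l) ≠ orb ρ K (e (bar i))) {u v : H}
    (hu : u ∈ orb ρ K (e i)) (hv : v ∈ orb ρ K (e l)) : ψ u v = 0 := by
  have _ := hbb
  let R : Submodule ℂ H :=
    { carrier := {x | x ∈ orb ρ K (e i) ∧ ∀ y ∈ orb ρ K (e l), ψ x y = 0}
      zero_mem' := ⟨zero_mem _, fun y _ => by rw [map_zero, LinearMap.zero_apply]⟩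
      add_mem' := by
        rintro a b ⟨ha1, ha2⟩ ⟨hb1, hb2⟩
        exact ⟨add_mem ha1 hb1, fun y hy => by rw [map_add, LinearMap.add_apply, ha2 y hy, hb2 y hy, add_zero]⟩
      smul_mem' := by
        rintro c a ⟨ha1, ha2⟩
        exact ⟨Submodule.smul_mem _ _ ha1, fun y hy => by
          rw [map_smul, LinearMap.smul_apply, ha2 y hy, smul_zero]⟩ }
  have hR : ∀ x, x ∈ R ↔ x ∈ orb ρ K (e i) ∧ ∀ y ∈ orb ρ K (e l), ψ x y = 0 := fun _ => Iff.rfl
  have hRs : Stab ρ K R := by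
    intro g hg x hx
    rw [hR] at hx ⊢
    refine ⟨orb_stab K _ g hg x hx.1, ?_⟩
    intro y hy
    have h5 : ρ g (ρ g⁻¹ y) = y := by
      rw [← Module.End.mul_apply, ← map_mul, mul_inv_cancel, map_one, Module.End.one_apply]
    rw [← h5, hψ, hx.2 _ (orb_stab K _ g⁻¹ (K.inv_mem hg) y hy), mul_zero]
  rcases piece_simple hss he h1 h2 h3 i hRs (fun x hx => ((hR x).1 hx).1) with hb | ht
  · exfalso
    have h6 : e i ∉ R := by
      rw [hb, Submodule.mem_bot]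
      exact he i
    have h7 : ∃ y ∈ orb ρ K (e l), ψ (e i) y ≠ 0 := by
      by_contra hcon
      push Not at hcon
      exact h6 ((hR _).2 ⟨mem_orb K (e i), hcon⟩)
    obtain ⟨y, hy, hy0⟩ := h7
    obtain ⟨c, hc⟩ := h2 (bar i) y
    have hc0 : c ≠ 0 := by
      rintro rfl
      apply hy0
      rw [← h4, hc, zero_smul, map_zero]
    have h8 : c • e (bar i) ∈ orb ρ K (e l) := by
      rw [← hc]
      exact h3 (bar i) _ (orb_stab K _) y hy
    have h9 : e (bar i) ∈ orb ρ K (e l) := by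
      have h10 := Submodule.smul_mem _ c⁻¹ h8
      rwa [smul_smul, inv_mul_cancel₀ hc0, one_smul] at h10
    rcases piece_simple hss he h1 h2 h3 l (orb_stab K (e (bar i))) (orb_le (orb_stab K _) h9) with h11 | h11
    · apply he (bar i)
      have h12 := mem_orb (ρ := ρ) K (e (bar i))
      rwa [h11, Submodule.mem_bot] at h12
    · exact hne h11.symm
  · have h13 : u ∈ R := by
      rw [ht]
      exact hu
    exact ((hR u).1 h13).2 v hv

end TPR
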