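import Pool.Agent.Lib.MP_021685_agTP.P0
import Pool.Agent.Lib.MP_021685_agTG.GG

/-! LEAF PJ (medium+).  A normalised set of endomorphisms acts irreducibly (Clifford).

Say that `S` is `𝔞`-stable if `X v ∈ S` for all `X ∈ 𝔞`, `v ∈ S`.  If `S` is `𝔞`-stable and `g ∈ K`, `S.map (ρ g)` is `𝔞`-stable:
`X (ρ g v) = ρ g ((ρ g⁻¹ * X * ρ g) v)` and `ρ g⁻¹ * X * ρ g ∈ 𝔞` (`hn` for `g⁻¹`; `ρ (g⁻¹)⁻¹ = ρ g`).

PROOF.  (1) Let `S ≤ V`, `S ≠ ⊥`, `𝔞`-stable; choose a minimal `𝔞`-stable `S₀ ≠ ⊥` in `S` (smallest dimension): every `𝔞`-stable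
`S' ≤ S₀` is `⊥` or `S₀`.  All the translates `S₀.map (ρ g)`, `g ∈ K`, are `𝔞`-stable, contained in `V` (`hV`), and minimal in the same
sense.  (2) `⨆ g ∈ K, S₀.map (ρ g)` is stable under `K`, contained in `V` and not `⊥`, so it is `V` (`hVs` for `K' = K`).  By `hstar`,
`e ∈ S₁ := S₀.map (ρ g₀)` for some `g₀ ∈ K`.  (3) The set `Sf` of the translates `S₁.map (ρ g)`, `g ∈ K`, is independent:
let `S' ∈ Sf`, and suppose that `S' ⊓ sSup (Sf \ {S'}) ≠ ⊥`; it is an `𝔞`-stable subspace of the minimal `S'`, so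
`S' ≤ sSup (Sf \ {S'})`.  `S' = S₁.map (ρ g)`; apply `ρ g⁻¹`: `S₁ ≤ sSup (Sf \ {S₁})` (the map `S ↦ S.map (ρ g⁻¹)` permutes `Sf` and maps `S'` to
`S₁`).  So `e ∈ sSup (Sf \ {S₁})` and by `hstar` `e ∈ S''` for some `S'' ∈ Sf`, `S'' ≠ S₁`; but `S'' ⊓ S₁ ≠ ⊥` (`e ≠ 0`) is `𝔞`-stable, so it is
`S''` and `S₁`: contradiction.  So `Sf` is an independent set of non-zero subspaces of a finite-dimensional space, hence finite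
(`sSupIndep`, `CompleteLattice.WellFoundedGT.finite_of_sSupIndep`).  (4) `TGR.exists_fix ρ K hK Sf hfin ..` (`MP_021685_agTG/GG.lean`) gives
`K' ≤ K` of finite index with `S₁.map (ρ g) = S₁` for `g ∈ K'`.  So `S₁` is stable under `K'`, not `⊥`, and `S₁ = V` by `hVs`.  Hence
`S₀ = V.map (ρ g₀⁻¹) = V` (or: `finrank S₀ = finrank V` and `S₀ ≤ V`), so `S = V`. -/

set_option autoImplicit false

namespace TPR

open Module Function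

theorem clifford {G H : Type} [Group G] [AddCommGroup H] [Module ℂ H] [FiniteDimensional ℂ H]
    {ρ : Representation ℂ G H} {K : Subgroup G} (hK : K.FiniteIndex) {𝔞 : Set (End ℂ H)}
    (hn : ∀ g ∈ K, ∀ X ∈ 𝔞, ρ g * X * ρ g⁻¹ ∈ 𝔞) {V : Submodule ℂ H} (hV : Stab ρ K V)
    (hVs : ∀ K' : Subgroup G, K' ≤ K → K'.FiniteIndex → ∀ S ≤ V, Stab ρ K' S → S = ⊥ ∨ S = V) {e : H} (he : e ≠ 0)
    (heV : e ∈ V)
    (hstar : ∀ 𝒮 : Set (Submodule ℂ H), (∀ S ∈ 𝒮, ∀ X ∈ 𝔞, ∀ v ∈ S, X v ∈ S) → e ∈ sSup 𝒮 → ∃ S ∈ 𝒮, e ∈ S) :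
    ∀ S ≤ V, S ≠ ⊥ → (∀ X ∈ 𝔞, ∀ v ∈ S, X v ∈ S) → S = V := by
  intro S hSV hS0 hSa
  have hone : ∀ T : Submodule ℂ H, T.map (ρ 1) = T := by
    intro T
    rw [map_one]
    exact Submodule.map_id T
  have hmul : ∀ (g h : G) (T : Submodule ℂ H), T.map (ρ (g * h)) = (T.map (ρ h)).map (ρ g) := by
    intro g h T
    rw [map_mul]
    exact Submodule.map_comp (ρ h) (ρ g) T
  have hinv : ∀ (g : G) (T : Submodule ℂ H), (T.map (ρ g)).map (ρ g⁻¹) = T := by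
    intro g T
    rw [← hmul, inv_mul_cancel, hone]
  have hinv2 : ∀ (g : G) (T : Submodule ℂ H), (T.map (ρ g⁻¹)).map (ρ g) = T := by
    intro g T
    rw [← hmul, mul_inv_cancel, hone]
  -- the subspaces stable under `𝔞`
  obtain ⟨Ast, hAst⟩ : ∃ Ast : Submodule ℂ H → Prop, ∀ T, Ast T ↔ ∀ X ∈ 𝔞, ∀ v ∈ T, X v ∈ T :=
    ⟨_, fun _ => Iff.rfl⟩
  have htr : ∀ g ∈ K, ∀ T, Ast T → Ast (T.map (ρ g)) := by
    intro g hg T hT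
    rw [hAst] at hT ⊢
    rintro X hX v ⟨w, hw, rfl⟩
    have h1 := hn g⁻¹ (K.inv_mem hg) X hX
    rw [inv_inv] at h1
    refine ⟨(ρ g⁻¹ * X * ρ g) w, hT _ h1 w hw, ?_⟩
    have h2 : ∀ u : H, ρ g (ρ g⁻¹ u) = u := by
      intro u
      have h3 : (ρ g * ρ g⁻¹) u = u := by
        rw [← map_mul, mul_inv_cancel, map_one]
        rfl
      exact h3
    exact h2 (X (ρ g w))
  have hinf : ∀ T T', Ast T → Ast T' → Ast (T ⊓ T') := by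
    intro T T' hT hT'
    rw [hAst] at hT hT' ⊢
    exact fun X hX v hv => ⟨hT X hX v hv.1, hT' X hX v hv.2⟩
  have hsup : ∀ 𝒯 : Set (Submodule ℂ H), (∀ T ∈ 𝒯, Ast T) → Ast (sSup 𝒯) := by
    intro 𝒯 h
    rw [hAst]
    intro X hX
    have h1 : sSup 𝒯 ≤ (sSup 𝒯).comap X := by
      refine sSup_le fun T hT v hv => ?_
      exact (le_sSup hT : T ≤ sSup 𝒯) ((hAst T).1 (h T hT) X hX v hv)
    exact fun v hv => h1 hv
  have hSA : Ast S := (hAst S).2 hSa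
  -- a minimal one
  obtain ⟨S₀, ⟨hS₀S, hS₀0, hS₀A⟩, hmin⟩ := (wellFounded_lt : WellFounded ((· < ·) : Submodule ℂ H → Submodule ℂ H → Prop)).has_min
    {T | T ≤ S ∧ T ≠ ⊥ ∧ Ast T} ⟨S, le_rfl, hS0, hSA⟩
  have hmin0 : ∀ T ≤ S₀, Ast T → T = ⊥ ∨ T = S₀ := by
    intro T hT hTA
    by_contra hc
    rw [not_or] at hc
    exact hmin T ⟨hT.trans hS₀S, hc.1, hTA⟩ (lt_of_le_of_ne hT hc.2)
  obtain ⟨𝒮, h𝒮⟩ : ∃ 𝒮 : Set (Submodule ℂ H), ∀ T, T ∈ 𝒮 ↔ ∃ g ∈ K, T = S₀.map (ρ g) :=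
    ⟨{T | ∃ g ∈ K, T = S₀.map (ρ g)}, fun _ => Iff.rfl⟩
  have hA𝒮 : ∀ T ∈ 𝒮, Ast T := by
    intro T hT
    obtain ⟨g, hg, rfl⟩ := (h𝒮 T).1 hT
    exact htr g hg S₀ hS₀A
  have hm𝒮 : ∀ T ∈ 𝒮, ∀ T' ≤ T, Ast T' → T' = ⊥ ∨ T' = T := by
    intro T hT T' hT' hT'A
    obtain ⟨g, hg, rfl⟩ := (h𝒮 T).1 hT
    have h1 : T'.map (ρ g⁻¹) ≤ S₀ := by
      have h2 := Submodule.map_mono (f := ρ g⁻¹) hT'
      rwa [hinv] at h2
    rcases hmin0 _ h1 (htr g⁻¹ (K.inv_mem hg) T' hT'A) with h2 | h2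
    · left
      rw [← hinv2 g T', h2, Submodule.map_bot]
    · right
      rw [← h2, hinv2]
  have hV𝒮 : ∀ T ∈ 𝒮, T ≤ V := by
    intro T hT
    obtain ⟨g, hg, rfl⟩ := (h𝒮 T).1 hT
    rintro v ⟨w, hw, rfl⟩
    exact hV g hg w (hSV (hS₀S hw))
  have hst : ∀ g ∈ K, ∀ T ∈ 𝒮, T.map (ρ g) ∈ 𝒮 := by
    intro g hg T hT
    obtain ⟨h, hh, rfl⟩ := (h𝒮 T).1 hT
    exact (h𝒮 _).2 ⟨g * h, K.mul_mem hg hh, (hmul g h S₀).symm⟩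
  have hS₀𝒮 : S₀ ∈ 𝒮 := (h𝒮 S₀).2 ⟨1, K.one_mem, (hone S₀).symm⟩
  have hsV : sSup 𝒮 = V := by
    have h1 : Stab ρ K (sSup 𝒮) := by
      intro g hg
      have h2 : sSup 𝒮 ≤ (sSup 𝒮).comap (ρ g) := by
        refine sSup_le fun T hT v hv => ?_
        exact (le_sSup (hst g hg T hT) : T.map (ρ g) ≤ sSup 𝒮) ⟨v, hv, rfl⟩
      exact fun v hv => h2 hv
    rcases hVs K le_rfl hK (sSup 𝒮) (sSup_le hV𝒮) h1 with h2 | h2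
    · exact absurd (le_bot_iff.1 (h2 ▸ le_sSup hS₀𝒮 : S₀ ≤ ⊥)) hS₀0
    · exact h2
  obtain ⟨S₁, hS₁𝒮, heS₁⟩ := hstar 𝒮 (fun T hT => (hAst T).1 (hA𝒮 T hT)) (by rw [hsV]; exact heV)
  -- independence
  have hne : ∀ T ∈ 𝒮, T ≠ S₁ → e ∉ T := by
    intro T hT hTne heT
    have h1 := hinf T S₁ (hA𝒮 T hT) (hA𝒮 S₁ hS₁𝒮)
    have h2 : T ⊓ S₁ ≠ ⊥ := by
      intro h3
      have h4 : e ∈ T ⊓ S₁ := ⟨heT, heS₁⟩
      rw [h3] at h4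
      exact he ((Submodule.mem_bot ℂ).1 h4)
    have h3 := (hm𝒮 T hT _ inf_le_left h1).resolve_left h2
    have h4 := (hm𝒮 S₁ hS₁𝒮 _ inf_le_right h1).resolve_left h2
    exact hTne (h3.symm.trans h4)
  have hind : sSupIndep 𝒮 := by
    intro T hT
    rw [disjoint_iff]
    by_contra hc
    have h1 : Ast (sSup (𝒮 \ {T})) := hsup _ fun T' hT' => hA𝒮 T' hT'.1
    have h2 := (hm𝒮 T hT _ inf_le_left (hinf _ _ (hA𝒮 T hT) h1)).resolve_left hc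
    have h3 : T ≤ sSup (𝒮 \ {T}) := inf_eq_left.1 h2
    obtain ⟨g, hg, hTg⟩ := (h𝒮 T).1 hT
    obtain ⟨g₀, hg₀, hSg⟩ := (h𝒮 S₁).1 hS₁𝒮
    obtain ⟨h, hh⟩ : ∃ h : G, h = g₀ * g⁻¹ := ⟨_, rfl⟩
    have hhK : h ∈ K := by
      rw [hh]
      exact K.mul_mem hg₀ (K.inv_mem hg)
    have h4 : T.map (ρ h) = S₁ := by
      rw [hh, hmul, hTg, hinv, hSg]
    have h5 : S₁ ≤ sSup (𝒮 \ {S₁}) := by
      have h6 : sSup (𝒮 \ {T}) ≤ (sSup (𝒮 \ {S₁})).comap (ρ h) := by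
        refine sSup_le fun T' hT' => ?_
        rw [← Submodule.map_le_iff_le_comap]
        refine le_sSup ⟨hst h hhK T' hT'.1, fun h7 => hT'.2 ?_⟩
        have h8 : T'.map (ρ h) = S₁ := h7
        rw [← h4] at h8
        have h9 : (T'.map (ρ h)).map (ρ h⁻¹) = (T.map (ρ h)).map (ρ h⁻¹) := by rw [h8]
        rw [hinv, hinv] at h9
        exact h9
      rw [← h4]
      rw [← h4] at h6
      exact Submodule.map_le_iff_le_comap.2 (h3.trans h6)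
    obtain ⟨T'', hT'', heT''⟩ := hstar (𝒮 \ {S₁}) (fun T' hT' => (hAst T').1 (hA𝒮 T' hT'.1)) (h5 heS₁)
    exact hne T'' hT''.1 hT''.2 heT''
  have hfin : 𝒮.Finite := WellFoundedGT.finite_of_sSupIndep hind
  obtain ⟨K', hK'f, hK'K, hK'⟩ := TGR.exists_fix ρ K hK 𝒮 hfin hst
  have hS₁V : S₁ = V := by
    have h1 : Stab ρ K' S₁ := by
      intro g hg v hv
      have h2 : ρ g v ∈ S₁.map (ρ g) := ⟨v, hv, rfl⟩
      rwa [hK' g hg S₁ hS₁𝒮] at h2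
    rcases hVs K' hK'K hK'f S₁ (hV𝒮 S₁ hS₁𝒮) h1 with h2 | h2
    · rw [h2] at heS₁
      exact absurd ((Submodule.mem_bot ℂ).1 heS₁) he
    · exact h2
  obtain ⟨g₀, hg₀, hSg⟩ := (h𝒮 S₁).1 hS₁𝒮
  have hVS₀ : V ≤ S₀ := by
    have h1 : S₀ = V.map (ρ g₀⁻¹) := by rw [← hS₁V, hSg, hinv]
    rw [h1]
    intro v hv
    refine ⟨ρ g₀ v, hV g₀ hg₀ v hv, ?_⟩
    have h2 : (ρ g₀⁻¹ * ρ g₀) v = v := by
      rw [← map_mul, inv_mul_cancel, map_one]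
      rfl
    exact h2
  exact le_antisymm hSV (hVS₀.trans hS₀S)

end TPR
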