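import Pool.Agent.Lib.MP_021685_agTP.PL1

/-! LEAF PL2 (medium).  A Lie algebra with an element of rank two, acting irreducibly.

PROOF of `rk`.  (0) We may assume that `ψ e f = 1`: replace `f` by `(ψ e f)⁻¹ • f` (`sq_smul`; the hypotheses on `V`, `V'`, `𝔞` do not change).
(1) For `m, n` with `ψ e m = ψ f m = ψ e n = ψ f n = 0`, `sq ψ f m ∈ 𝔞`, `sq ψ e n ∈ 𝔞`: the bracket of `sq ψ f m` and `sq ψ e n` is
`sq ψ (sq ψ f m e) n + sq ψ e (sq ψ f m n)` (`sq_bracket`, `sq_skew`), `sq ψ f m e = - m`, `sq ψ f m n = ψ m n • f`; so `sq ψ m n ∈ 𝔞`.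

(2) Case `V = V'`.  If `sq ψ f f ∉ 𝔞`, `line` for `v = f` gives `f = α • e + m` with `ψ e m = 0`, so `1 = ψ e f = 0`: contradiction.  If
`sq ψ e e ∉ 𝔞`, `line` for the pair `(f, - e)` (`ψ f (- e) = 1`, `sq ψ f (- e) = - sq ψ e f`, `sq ψ (- e) (- e) = sq ψ e e`) and `v = e` gives the same
contradiction.  So `plane` gives `u = α • e + β • f + m`, `v = α' • e + β' • f + m'`, and by bilinearity (`sq_add`, `sq_smul`, `sq_comm`) it is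
enough that `sq ψ e e`, `sq ψ e f`, `sq ψ f f`, `sq ψ e m`, `sq ψ f m`, `sq ψ e m'`, `sq ψ f m'`, `sq ψ m m'` are in `𝔞`: (1).

(3) Case `f ∉ V`, `e ∉ V'`.  `sq ψ f f ∉ 𝔞`, as `sq ψ f f e = - 2 • f ∉ V`; `sq ψ e e ∉ 𝔞`, as `sq ψ e e f = 2 • e ∉ V'`.  `line` for `(e, f)`, `V` gives
`u = α • e + m`, and for `(f, - e)`, `V'` it gives `v = β • f + n` with `sq ψ e n ∈ 𝔞`.  `sq ψ u v` is a combination of `sq ψ e f`,
`sq ψ e n`, `sq ψ m f`, `sq ψ m n`: all in `𝔞` by (1). -/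

set_option autoImplicit false

namespace TPR

open Module Function

private theorem PL2_neg {H : Type} [AddCommGroup H] [Module ℂ H] (ψ : H →ₗ[ℂ] H →ₗ[ℂ] ℂ) (a b : H) :
    sq ψ (-a) b = - sq ψ a b := by
  have h := sq_smul ψ (-1) b a
  rw [neg_one_smul, neg_one_smul] at h
  rw [sq_comm, h, sq_comm]

private theorem PL2_add {H : Type} [AddCommGroup H] [Module ℂ H] (ψ : H →ₗ[ℂ] H →ₗ[ℂ] ℂ) (a b c : H) :
    sq ψ (a + b) c = sq ψ a c + sq ψ b c := by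
  rw [sq_comm, sq_add, sq_comm ψ c a, sq_comm ψ c b]

private theorem PL2_smul {H : Type} [AddCommGroup H] [Module ℂ H] (ψ : H →ₗ[ℂ] H →ₗ[ℂ] ℂ) (z : ℂ) (a b : H) :
    sq ψ (z • a) b = z • sq ψ a b := by
  rw [sq_comm, sq_smul, sq_comm]

private theorem PL2_mn {H : Type} [AddCommGroup H] [Module ℂ H] {ψ : H →ₗ[ℂ] H →ₗ[ℂ] ℂ} (halt : ∀ u, ψ u u = 0)
    {𝔞 : Submodule ℂ (End ℂ H)} (hlie : ∀ X ∈ 𝔞, ∀ Y ∈ 𝔞, X * Y - Y * X ∈ 𝔞) {e f : H}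
    (hef : ψ e f = 1) (ht : sq ψ e f ∈ 𝔞) {m n : H} (hem : ψ e m = 0) (hfn : ψ f n = 0)
    (hfm : sq ψ f m ∈ 𝔞) (hen : sq ψ e n ∈ 𝔞) : sq ψ m n ∈ 𝔞 := by
  have hb := sq_bracket (sq_skew halt f m) e n
  have h1 : sq ψ f m e = - m := by
    rw [sq_apply, alt_neg halt f e, hef, alt_neg halt m e, hem, neg_zero, zero_smul, add_zero,
      neg_one_smul]
  have h2 : sq ψ f m n = ψ m n • f := by
    rw [sq_apply, hfn, zero_smul, zero_add]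
  rw [h1, h2, PL2_neg, sq_smul] at hb
  have h3 : sq ψ m n = ψ m n • sq ψ e f - (sq ψ f m * sq ψ e n - sq ψ e n * sq ψ f m) := by
    rw [hb]
    abel
  rw [h3]
  exact 𝔞.sub_mem (𝔞.smul_mem _ ht) (hlie _ hfm _ hen)

private theorem PL2_core {H : Type} [AddCommGroup H] [Module ℂ H] {ψ : H →ₗ[ℂ] H →ₗ[ℂ] ℂ} (halt : ∀ u, ψ u u = 0)
    {𝔞 : Submodule ℂ (End ℂ H)} (hlie : ∀ X ∈ 𝔞, ∀ Y ∈ 𝔞, X * Y - Y * X ∈ 𝔞) (hskew : ∀ X ∈ 𝔞, X ∈ TGR.sp ψ) {e f : H}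
    (hef : ψ e f = 1) (ht : sq ψ e f ∈ 𝔞) {V V' : Submodule ℂ H} (he : e ∈ V) (hf : f ∈ V')
    (hV : ∀ X ∈ 𝔞, ∀ v ∈ V, X v ∈ V) (hV' : ∀ X ∈ 𝔞, ∀ v ∈ V', X v ∈ V')
    (hs : ∀ S ≤ V, S ≠ ⊥ → (∀ X ∈ 𝔞, ∀ v ∈ S, X v ∈ S) → S = V)
    (hs' : ∀ S ≤ V', S ≠ ⊥ → (∀ X ∈ 𝔞, ∀ v ∈ S, X v ∈ S) → S = V') (hc : V = V' ∨ (f ∉ V ∧ e ∉ V')) {u v : H}
    (hu : u ∈ V) (hv : v ∈ V') : sq ψ u v ∈ 𝔞 := by
  have hfe : ψ f e = -1 := by rw [alt_neg halt, hef]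
  -- the pair (f, - e)
  have hef' : ψ f (-e) = 1 := by rw [map_neg, hfe, neg_neg]
  have ht' : sq ψ f (-e) ∈ 𝔞 := by
    rw [sq_comm, PL2_neg]
    exact 𝔞.neg_mem ht
  have hee' : sq ψ (-e) (-e) = sq ψ e e := by
    rw [PL2_neg, sq_comm, PL2_neg, neg_neg]
  rcases hc with rfl | ⟨hfV, heV⟩
  · have hff : sq ψ f f ∈ 𝔞 := by
      by_contra h
      obtain ⟨α, m, h1, h2, -, -⟩ := line halt hlie hskew hef ht he hV hs h hf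
      have h3 : ψ e f = 0 := by
        rw [h1, map_add, map_smul, halt, h2, smul_zero, add_zero]
      rw [hef] at h3
      exact one_ne_zero h3
    have hee : sq ψ e e ∈ 𝔞 := by
      by_contra h
      obtain ⟨α, m, h1, h2, -, -⟩ := line halt hlie hskew hef' ht' hf hV hs (by rwa [hee']) he
      have h3 : ψ f e = 0 := by
        rw [h1, map_add, map_smul, halt, h2, smul_zero, add_zero]
      rw [hfe] at h3
      exact one_ne_zero (neg_eq_zero.1 h3)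
    obtain ⟨α, β, m, h1, h2, h3, h4, h5⟩ := plane halt hlie hskew hef ht he hf hV hs hee hff hu
    obtain ⟨α', β', m', k1, k2, k3, k4, k5⟩ := plane halt hlie hskew hef ht he hf hV hs hee hff hv
    have hfe' : sq ψ f e ∈ 𝔞 := by rwa [sq_comm]
    have key : ∀ w, sq ψ e w ∈ 𝔞 → sq ψ f w ∈ 𝔞 → sq ψ m w ∈ 𝔞 →
        sq ψ (α • e + β • f + m) w ∈ 𝔞 := by
      intro w w1 w2 w3
      rw [PL2_add, PL2_add, PL2_smul, PL2_smul]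
      exact 𝔞.add_mem (𝔞.add_mem (𝔞.smul_mem _ w1) (𝔞.smul_mem _ w2)) w3
    rw [h1, k1, sq_add, sq_add, sq_smul, sq_smul]
    refine 𝔞.add_mem (𝔞.add_mem (𝔞.smul_mem _ ?_) (𝔞.smul_mem _ ?_)) ?_
    · exact key e hee hfe' (by rwa [sq_comm])
    · exact key f ht hff (by rwa [sq_comm])
    · exact key m' k4 k5 (PL2_mn halt hlie hef ht h2 k3 h5 k4)
  · have hff : sq ψ f f ∉ 𝔞 := by
      intro h
      have h1 := hV _ h e he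
      have h2 : sq ψ f f e = (-2 : ℂ) • f := by
        rw [sq_apply, hfe, ← add_smul]
        norm_num
      rw [h2] at h1
      have h3 := V.smul_mem (-2 : ℂ)⁻¹ h1
      rw [smul_smul, inv_mul_cancel₀ (by norm_num), one_smul] at h3
      exact hfV h3
    have hee : sq ψ e e ∉ 𝔞 := by
      intro h
      have h1 := hV' _ h f hf
      have h2 : sq ψ e e f = (2 : ℂ) • e := by
        rw [sq_apply, hef, ← add_smul]
        norm_num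
      rw [h2] at h1
      have h3 := V'.smul_mem (2 : ℂ)⁻¹ h1
      rw [smul_smul, inv_mul_cancel₀ (by norm_num), one_smul] at h3
      exact heV h3
    obtain ⟨α, m, h1, h2, h3, h4⟩ := line halt hlie hskew hef ht he hV hs hff hu
    obtain ⟨β, n, k1, k2, k3, k4⟩ := line halt hlie hskew hef' ht' hf hV' hs' (by rwa [hee']) hv
    have k4' : sq ψ e n ∈ 𝔞 := by
      rw [PL2_neg] at k4
      exact 𝔞.neg_mem_iff.1 k4
    rw [h1, k1, sq_add, sq_smul, PL2_add, PL2_smul, PL2_add, PL2_smul]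
    refine 𝔞.add_mem (𝔞.smul_mem _ (𝔞.add_mem (𝔞.smul_mem _ ht) ?_))
      (𝔞.add_mem (𝔞.smul_mem _ k4') ?_)
    · rwa [sq_comm]
    · exact PL2_mn halt hlie hef ht h2 k2 h4 k4'

theorem rk {H : Type} [AddCommGroup H] [Module ℂ H] {ψ : H →ₗ[ℂ] H →ₗ[ℂ] ℂ} (halt : ∀ u, ψ u u = 0)
    {𝔞 : Submodule ℂ (End ℂ H)} (hlie : ∀ X ∈ 𝔞, ∀ Y ∈ 𝔞, X * Y - Y * X ∈ 𝔞) (hskew : ∀ X ∈ 𝔞, X ∈ TGR.sp ψ) {e f : H}
    (hef : ψ e f ≠ 0) (ht : sq ψ e f ∈ 𝔞) {V V' : Submodule ℂ H} (he : e ∈ V) (hf : f ∈ V')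
    (hV : ∀ X ∈ 𝔞, ∀ v ∈ V, X v ∈ V) (hV' : ∀ X ∈ 𝔞, ∀ v ∈ V', X v ∈ V')
    (hs : ∀ S ≤ V, S ≠ ⊥ → (∀ X ∈ 𝔞, ∀ v ∈ S, X v ∈ S) → S = V)
    (hs' : ∀ S ≤ V', S ≠ ⊥ → (∀ X ∈ 𝔞, ∀ v ∈ S, X v ∈ S) → S = V') (hc : V = V' ∨ (f ∉ V ∧ e ∉ V')) {u v : H}
    (hu : u ∈ V) (hv : v ∈ V') : sq ψ u v ∈ 𝔞 := by
  have hz : (ψ e f)⁻¹ ≠ 0 := inv_ne_zero hef
  have h1 : ψ e ((ψ e f)⁻¹ • f) = 1 := by
    rw [map_smul, smul_eq_mul, inv_mul_cancel₀ hef]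
  have h2 : sq ψ e ((ψ e f)⁻¹ • f) ∈ 𝔞 := by
    rw [sq_smul]
    exact 𝔞.smul_mem _ ht
  refine PL2_core halt hlie hskew h1 h2 he (V'.smul_mem _ hf) hV hV' hs hs' ?_ hu hv
  rcases hc with h | ⟨h3, h4⟩
  · exact Or.inl h
  · refine Or.inr ⟨fun h => h3 ?_, h4⟩
    have h5 := V.smul_mem (ψ e f) h
    rwa [smul_smul, mul_inv_cancel₀ hef, one_smul] at h5

end TPR
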