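import Pool.Agent.Lib.MP_021685_agTP.PM2

/-! LEAF PM1 (medium+).  A complete hyperbolic family adapted to a decomposition.

PROOF.  Call `(n, u, u')` a family if `h1`, `h2`, `h3` of `hyp_ind` hold, every `u a` and every `u' a` is in some `D ∈ 𝒟`, and
`sq ψ (u a) (u' a) ∈ A`.  By `hyp_ind` `2 n ≤ finrank H` (`LinearIndependent.fintype_card_le_finrank`), so there is a family with
`n` maximal (`n = 0` is a family).  Let `v` be orthogonal to all `u a`, `u' a`, and suppose `v ≠ 0`.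
(1) Homogeneous components: let `v` be orthogonal to all `u a`, `u' a`; `v = ∑ D ∈ 𝒟, v_D` with `v_D ∈ D` (`𝒟` is finite,
`Submodule.mem_sSup`.. / `Submodule.mem_iSup_of_..` / `Submodule.mem_sup`; for example by `h𝒟.toFinset` and `Submodule.mem_iSup_finset_iff_exists_sum`).
Then every `v_D` is orthogonal to all `u a`, `u' a`: `u a ∈ D₁ ∈ 𝒟`; let `D'` be the partner of `D₁` (hypothesis `h2`); `ψ (u a) v_D = 0` if
`D ≠ D'`, and `0 = ψ (u a) v = ψ (u a) v_D'`.  The same for `u' a`.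
(2) As `v ≠ 0` some `w := v_D ≠ 0`, `w ∈ D`, orthogonal to the family.  There is `x` with `ψ w x ≠ 0` (`hnd`).  Let
`x' = x - ∑ a, ψ (u a) x • u' a + ∑ a, ψ (u' a) x • u a`, orthogonal to the family (as in `hyp_basis`), and `ψ w x' = ψ w x ≠ 0` (`w` is orthogonal to
the family, `alt_neg`).  Decompose `x' = ∑ D'', x'_D''`: `ψ w x' = ψ w x'_D'`, `D'` the partner of `D`; `x'_D'` is orthogonal to the family by (1).
Let `w' = (ψ w x'_D')⁻¹ • x'_D' ∈ D'`: `ψ w w' = 1`, and `sq ψ w w' ∈ A` by `h2`.  So `(n + 1, Fin.snoc u w, Fin.snoc u' w')` (or `Fin.cons`) is a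
family: contradiction to the maximality.  So `v = 0`. -/

set_option autoImplicit false

namespace TPR

open Module Function

/-- a hyperbolic family of vectors in the members of `𝒟` -/
private def PM1_fam {H : Type} [AddCommGroup H] [Module ℂ H] (ψ : H →ₗ[ℂ] H →ₗ[ℂ] ℂ) (A : Submodule ℂ (End ℂ H))
    (𝒟 : Set (Submodule ℂ H)) (n : ℕ) (u u' : Fin n → H) : Prop :=
  (∀ a b, ψ (u a) (u b) = 0) ∧ (∀ a b, ψ (u' a) (u' b) = 0) ∧ (∀ a b, ψ (u a) (u' b) = if a = b then 1 else 0) ∧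
    (∀ a, sq ψ (u a) (u' a) ∈ A) ∧ (∀ a, ∃ D ∈ 𝒟, u a ∈ D) ∧ ∀ a, ∃ D ∈ 𝒟, u' a ∈ D

private theorem PM1_cons {H : Type} [AddCommGroup H] [Module ℂ H] {ψ : H →ₗ[ℂ] H →ₗ[ℂ] ℂ} (halt : ∀ u, ψ u u = 0)
    {A : Submodule ℂ (End ℂ H)} {𝒟 : Set (Submodule ℂ H)} {n : ℕ} {u u' : Fin n → H} (hf : PM1_fam ψ A 𝒟 n u u')
    {w w' : H} {D D' : Submodule ℂ H} (hD : D ∈ 𝒟) (hD' : D' ∈ 𝒟) (hw : w ∈ D) (hw' : w' ∈ D')
    (h1 : ∀ a, ψ (u a) w = 0 ∧ ψ (u' a) w = 0) (h2 : ∀ a, ψ (u a) w' = 0 ∧ ψ (u' a) w' = 0) (h3 : ψ w w' = 1)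
    (h4 : sq ψ w w' ∈ A) : PM1_fam ψ A 𝒟 (n + 1) (Fin.cons w u) (Fin.cons w' u') := by
  obtain ⟨f1, f2, f3, f4, f5, f6⟩ := hf
  have k1 : ∀ a, ψ w (u a) = 0 := fun a => by rw [alt_neg halt, (h1 a).1, neg_zero]
  have k2 : ∀ a, ψ w (u' a) = 0 := fun a => by rw [alt_neg halt, (h1 a).2, neg_zero]
  have k4 : ∀ a, ψ w' (u' a) = 0 := fun a => by rw [alt_neg halt, (h2 a).2, neg_zero]
  refine ⟨?_, ?_, ?_, ?_, ?_, ?_⟩
  · refine Fin.cases ?_ (fun a => ?_) <;> refine Fin.cases ?_ (fun b => ?_)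
    · rw [Fin.cons_zero]
      exact halt w
    · rw [Fin.cons_zero, Fin.cons_succ]
      exact k1 b
    · rw [Fin.cons_zero, Fin.cons_succ]
      exact (h1 a).1
    · rw [Fin.cons_succ, Fin.cons_succ]
      exact f1 a b
  · refine Fin.cases ?_ (fun a => ?_) <;> refine Fin.cases ?_ (fun b => ?_)
    · rw [Fin.cons_zero]
      exact halt w'
    · rw [Fin.cons_zero, Fin.cons_succ]
      exact k4 b
    · rw [Fin.cons_zero, Fin.cons_succ]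
      exact (h2 a).2
    · rw [Fin.cons_succ, Fin.cons_succ]
      exact f2 a b
  · refine Fin.cases ?_ (fun a => ?_) <;> refine Fin.cases ?_ (fun b => ?_)
    · rw [Fin.cons_zero, Fin.cons_zero, if_pos rfl]
      exact h3
    · rw [Fin.cons_zero, Fin.cons_succ, if_neg (Fin.succ_ne_zero b).symm]
      exact k2 b
    · rw [Fin.cons_zero, Fin.cons_succ, if_neg (Fin.succ_ne_zero a)]
      exact (h2 a).1
    · rw [Fin.cons_succ, Fin.cons_succ, f3]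
      by_cases hab : a = b
      · rw [if_pos hab, if_pos (congrArg Fin.succ hab)]
      · rw [if_neg hab, if_neg fun h => hab (Fin.succ_injective _ h)]
  · refine Fin.cases ?_ (fun a => ?_)
    · rw [Fin.cons_zero, Fin.cons_zero]
      exact h4
    · rw [Fin.cons_succ, Fin.cons_succ]
      exact f4 a
  · refine Fin.cases ?_ (fun a => ?_)
    · rw [Fin.cons_zero]
      exact ⟨D, hD, hw⟩
    · rw [Fin.cons_succ]
      exact f5 a
  · refine Fin.cases ?_ (fun a => ?_)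
    · rw [Fin.cons_zero]
      exact ⟨D', hD', hw'⟩
    · rw [Fin.cons_succ]
      exact f6 a

/-- the projection to the orthogonal complement of the family -/
private theorem PM1_proj {H : Type} [AddCommGroup H] [Module ℂ H] {ψ : H →ₗ[ℂ] H →ₗ[ℂ] ℂ} (halt : ∀ u, ψ u u = 0)
    {n : ℕ} {u u' : Fin n → H} (f1 : ∀ a b, ψ (u a) (u b) = 0) (f2 : ∀ a b, ψ (u' a) (u' b) = 0)
    (f3 : ∀ a b, ψ (u a) (u' b) = if a = b then 1 else 0) {w : H} (hw : ∀ a, ψ (u a) w = 0 ∧ ψ (u' a) w = 0) (x : H) :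
    ∃ x' : H, (∀ a, ψ (u a) x' = 0 ∧ ψ (u' a) x' = 0) ∧ ψ w x' = ψ w x := by
  have k1 : ∀ a, ψ w (u a) = 0 := fun a => by rw [alt_neg halt, (hw a).1, neg_zero]
  have k2 : ∀ a, ψ w (u' a) = 0 := fun a => by rw [alt_neg halt, (hw a).2, neg_zero]
  have f4 : ∀ a b, ψ (u' a) (u b) = - if b = a then 1 else 0 := fun a b => by rw [alt_neg halt, f3]
  have hgen : ∀ y : H, ψ y (x - ∑ a, ψ (u a) x • u' a + ∑ a, ψ (u' a) x • u a) =
      ψ y x - ∑ a, ψ (u a) x * ψ y (u' a) + ∑ a, ψ (u' a) x * ψ y (u a) := fun y => by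
    rw [map_add, map_sub, map_sum, map_sum]
    simp only [map_smul, smul_eq_mul]
  refine ⟨x - ∑ a, ψ (u a) x • u' a + ∑ a, ψ (u' a) x • u a, fun b => ⟨?_, ?_⟩, ?_⟩
  · rw [hgen, Finset.sum_eq_single b, Finset.sum_eq_zero, f3, if_pos rfl]
    · ring
    · intro a _
      rw [f1, mul_zero]
    · intro a _ hab
      rw [f3, if_neg hab.symm, mul_zero]
    · exact fun h => absurd (Finset.mem_univ b) h
  · rw [hgen, Finset.sum_eq_zero, Finset.sum_eq_single b, f4, if_pos rfl]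
    · ring
    · intro a _ hab
      rw [f4, if_neg hab, neg_zero, mul_zero]
    · exact fun h => absurd (Finset.mem_univ b) h
    · intro a _
      rw [f2, mul_zero]
  · rw [hgen, Finset.sum_eq_zero, Finset.sum_eq_zero]
    · ring
    · intro a _
      rw [k1, mul_zero]
    · intro a _
      rw [k2, mul_zero]

theorem exists_family {H : Type} [AddCommGroup H] [Module ℂ H] [FiniteDimensional ℂ H] {ψ : H →ₗ[ℂ] H →ₗ[ℂ] ℂ}
    (halt : ∀ u, ψ u u = 0) (hnd : ∀ u, (∀ v, ψ u v = 0) → u = 0) {A : Submodule ℂ (End ℂ H)}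
    {𝒟 : Set (Submodule ℂ H)} (h𝒟 : 𝒟.Finite) (htop : sSup 𝒟 = ⊤)
    (h : ∀ D ∈ 𝒟, ∃ D' ∈ 𝒟, (∀ D'' ∈ 𝒟, D'' ≠ D' → ∀ u ∈ D, ∀ v ∈ D'', ψ u v = 0) ∧
      ∀ u ∈ D, ∀ v ∈ D', sq ψ u v ∈ A) :
    ∃ (n : ℕ) (u u' : Fin n → H), (∀ a b, ψ (u a) (u b) = 0) ∧ (∀ a b, ψ (u' a) (u' b) = 0) ∧
      (∀ a b, ψ (u a) (u' b) = if a = b then 1 else 0) ∧ (∀ a, sq ψ (u a) (u' a) ∈ A) ∧
        ∀ v, (∀ a, ψ (u a) v = 0 ∧ ψ (u' a) v = 0) → v = 0 := by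
  classical
  have hdec : ∀ v : H, ∃ μ : ∀ D : Submodule ℂ H, D, ∑ D ∈ h𝒟.toFinset, (μ D : H) = v := fun v => by
    refine (Submodule.mem_iSup_finset_iff_exists_sum (s := h𝒟.toFinset) (fun D => D) v).1 ?_
    have h1 : ⨆ D ∈ h𝒟.toFinset, D = ⊤ := by
      rw [← htop, sSup_eq_iSup]
      refine iSup_congr fun D => ?_
      exact iSup_congr_Prop h𝒟.mem_toFinset fun _ => rfl
    rw [h1]
    exact Submodule.mem_top
  have hval : ∀ {D D' : Submodule ℂ H}, D' ∈ 𝒟 → (∀ D'' ∈ 𝒟, D'' ≠ D' → ∀ u ∈ D, ∀ v ∈ D'', ψ u v = 0) →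
      ∀ y ∈ D, ∀ μ : ∀ D : Submodule ℂ H, D, ψ y (∑ D ∈ h𝒟.toFinset, (μ D : H)) = ψ y (μ D') := by
    intro D D' hD' h2 y hy μ
    rw [map_sum]
    refine Finset.sum_eq_single_of_mem D' (h𝒟.mem_toFinset.2 hD') fun D'' hD'' hne => ?_
    exact h2 D'' (h𝒟.mem_toFinset.1 hD'') hne y hy _ (μ D'').2
  have hcomp : ∀ {y : H}, (∃ D ∈ 𝒟, y ∈ D) → ∀ μ : ∀ D : Submodule ℂ H, D,
      ψ y (∑ D ∈ h𝒟.toFinset, (μ D : H)) = 0 → ∀ D ∈ 𝒟, ψ y (μ D) = 0 := by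
    rintro y ⟨D, hD, hy⟩ μ h0 D₁ hD₁
    obtain ⟨D', hD', h2, -⟩ := h D hD
    by_cases hne : D₁ = D'
    · rw [hne, ← hval hD' h2 y hy μ]
      exact h0
    · exact h2 D₁ hD₁ hne y hy _ (μ D₁).2
  have hmax : ∃ n, (∃ u u' : Fin n → H, PM1_fam ψ A 𝒟 n u u') ∧
      ¬ ∃ u u' : Fin (n + 1) → H, PM1_fam ψ A 𝒟 (n + 1) u u' := by
    by_contra hcon
    have hall : ∀ n, ∃ u u' : Fin n → H, PM1_fam ψ A 𝒟 n u u' := by
      intro n
      induction n with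
      | zero =>
        exact ⟨Fin.elim0, Fin.elim0, fun a => a.elim0, fun a => a.elim0, fun a => a.elim0, fun a => a.elim0,
          fun a => a.elim0, fun a => a.elim0⟩
      | succ n ih =>
        by_contra h1
        exact hcon ⟨n, ih, h1⟩
    obtain ⟨u, u', f1, f2, f3, -⟩ := hall (finrank ℂ H + 1)
    have h1 := (hyp_ind halt f1 f2 f3).fintype_card_le_finrank
    rw [Fintype.card_sum, Fintype.card_fin] at h1
    omega
  obtain ⟨n, ⟨u, u', hf⟩, hmax⟩ := hmax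
  obtain ⟨f1, f2, f3, f4, f5, f6⟩ := hf
  refine ⟨n, u, u', f1, f2, f3, f4, fun v hv => ?_⟩
  by_contra hv0
  obtain ⟨μ, rfl⟩ := hdec v
  have hμ : ∃ D ∈ 𝒟, (μ D : H) ≠ 0 := by
    by_contra hcon
    push Not at hcon
    exact hv0 (Finset.sum_eq_zero fun D hD => hcon D (h𝒟.mem_toFinset.1 hD))
  obtain ⟨D, hD, hw0⟩ := hμ
  have hw : ∀ a, ψ (u a) (μ D) = 0 ∧ ψ (u' a) (μ D) = 0 := fun a =>
    ⟨hcomp (f5 a) μ (hv a).1 D hD, hcomp (f6 a) μ (hv a).2 D hD⟩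
  have hx : ∃ x, ψ (μ D) x ≠ 0 := by
    by_contra hcon
    push Not at hcon
    exact hw0 (hnd _ hcon)
  obtain ⟨x, hx⟩ := hx
  obtain ⟨x', hx', hwx⟩ := PM1_proj halt f1 f2 f3 hw x
  obtain ⟨ν, rfl⟩ := hdec x'
  obtain ⟨D', hD', h2, h3⟩ := h D hD
  have hν : ∀ a, ψ (u a) (ν D') = 0 ∧ ψ (u' a) (ν D') = 0 := fun a =>
    ⟨hcomp (f5 a) ν (hx' a).1 D' hD', hcomp (f6 a) ν (hx' a).2 D' hD'⟩
  have hc : ψ (μ D) (ν D') ≠ 0 := by
    rw [← hval hD' h2 _ (μ D).2 ν, hwx]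
    exact hx
  refine hmax ⟨_, _, PM1_cons halt ⟨f1, f2, f3, f4, f5, f6⟩ (w := (μ D : H))
    (w' := (ψ (μ D) (ν D'))⁻¹ • (ν D' : H)) hD hD' (μ D).2 (D'.smul_mem _ (ν D').2) hw (fun a => ⟨?_, ?_⟩) ?_ ?_⟩
  · rw [map_smul, (hν a).1, smul_zero]
  · rw [map_smul, (hν a).2, smul_zero]
  · rw [map_smul, smul_eq_mul, inv_mul_cancel₀ hc]
  · exact h3 _ (μ D).2 _ (D'.smul_mem _ (ν D').2)

end TPR
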