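import Pool.Agent.Lib.MP_021685_agTP.P0
import Pool.Agent.Lib.MP_021685_agTG.GC
import Pool.Agent.Lib.MP_021685_agTG.GT
import Pool.Agent.Lib.MP_021685_agTG.GE
import Pool.Agent.Lib.MP_021685_agTG.GF
import Pool.Agent.Lib.MP_021685_agTG.GG
import Pool.Agent.Lib.MP_021685_agTG.GI
import Pool.Agent.Lib.MP_021685_agTG.GJ
import Pool.Agent.Lib.MP_021685_agTG.GL
import Pool.Agent.Lib.MP_021685_agTL2.R2
import Pool.Agent.Lib.MP_021685_agTL3.MA2
import Pool.Agent.Lib.MP_021685_agTL3.MI
import Pool.Agent.Lib.MP_021685_agTL3.MS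
import Pool.Agent.Lib.MP_021685_agTL3.MT

/-!
# A form killed by a torus of maximal rank is a combination of products
-/

set_option autoImplicit false

namespace TPR

open Polynomial Module Function TGR TLL Pool.Agent.Lib.MP_802513_agJ

theorem full_of_torus {G H W : Type} [Group G] [AddCommGroup H] [Module ℂ H] [FiniteDimensional ℂ H] [AddCommGroup W]
    [Module ℂ W] [FiniteDimensional ℂ W] {ρ : Representation ℂ G H} {σ : Representation ℂ G W} {μ : G →* ℂˣ}
    {ψ : H →ₗ[ℂ] H →ₗ[ℂ] ℂ} (hψ : ∀ g u v, ψ (ρ g u) (ρ g v) = μ g * ψ u v) {ι : Type} [Fintype ι] [DecidableEq ι]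
    {bar : ι → ι} {ε : ι → ℂ} {e : Basis ι ℂ H} (hnf : Nf bar ε e ψ) {G' : Subgroup G} (hG' : G'.FiniteIndex) {k : ℕ}
    {i : ℤ} {T : MultilinearMap ℂ (fun _ : Fin k => H) (W →ₗ[ℂ] ℂ)} (hT : IsTate ρ σ μ G' i T)
    (hdiag : ∀ x : ι → ℂ, (∀ i, x (bar i) = - x i) → Matrix.toLin e e (Matrix.diagonal x) ∈ kill T) :
    ∃ G'' : Subgroup G, G''.FiniteIndex ∧
      T ∈ Submodule.span ℂ {T' : MultilinearMap ℂ (fun _ : Fin k => H) (W →ₗ[ℂ] ℂ) | IsProduct ρ σ μ G'' i T'} := by
  classical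
  obtain ⟨hbb, hbn, h1, h2, h3, h4⟩ := id hnf
  have hlie := torusLie hnf hdiag
  have hd' : ∀ i w, Kills bar ε (coords e (slice T w)) i i := fun i =>
    (kills_iff hnf i i).1 (TLF.uu_self hlie i).1
  have hs : ∀ i l, (∀ w, Kills bar ε (coords e (slice T w)) i l) → ∀ w, Kills bar ε (coords e (slice T w)) l i :=
    fun i l hil w => kills_symm hbb hbn h1 h2 h3 (fun m => hd' m w) (hil w)
  let s : Setoid ι :=
    { r := fun i l => ∀ w, Kills bar ε (coords e (slice T w)) i l
      iseqv := ⟨hd', fun {i l} hil => hs i l hil, fun {i l m} hil hlm w =>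
        kills_trans hbb hbn h1 h3 (fun m => hd' m w) (hil w) (hlm w)⟩ }
  have hA : ∀ X ∈ alg T ψ, ∀ k l, LinearMap.toMatrix e e X k l ≠ 0 → s k l := by
    intro X hX k l hne
    have h5 : LinearMap.toMatrix e e X ∈ (alg T ψ).comap (Matrix.toLin e e).toLinearMap := by
      show Matrix.toLin e e (LinearMap.toMatrix e e X) ∈ alg T ψ
      rw [Matrix.toLin_toMatrix]
      exact hX
    exact (kills_iff hnf k l).1 (TLF.uu_mem hlie h5 hne).1
  have hfin := finite_stable hbb hbn e (A := alg T ψ) fun x hx => hlie.tor x hx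
  obtain ⟨G'', hG'', hle, hfix⟩ := exists_fix ρ G' hG' {S | IsStable (alg T ψ) S} hfin
    fun g hg S hS => stable_map hT hψ hg hS
  let φc : ι → Quotient s := Quotient.mk s
  let Y : FFT.Sys ι (Quotient s) :=
    { bar := bar
      ε := ε
      φ := φc
      bar_bar := hbb
      ε_bar := h3
      ε_sq := h1
      ε_conj := h2
      φ_bar := fun i l hil => by
        have h5 : ∀ w, Kills bar ε (coords e (slice T w)) i l := Quotient.exact hil
        refine Quotient.sound (hs (bar l) (bar i) fun w j => ?_)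
        have h6 := h5 w j
        rw [hbb, hbb, h3, h3]
        linear_combination h6 }
  refine ⟨G'', hG'', mem_of_slices (fun g hg => hT g (hle hg)) (Products bar ε φc e k)
    (fun w => mem_products Y e (slice T w) fun i l hil j => ?_) ?_⟩
  · have h5 : ∀ w, Kills bar ε (coords e (slice T w)) i l := Quotient.exact hil
    exact h5 w j
  · rintro τ ⟨m, r, f, hτ⟩
    refine ⟨m, r, _, fun j g hg u v => pair_inv hnf (hψ g) (fun k l hne => Quotient.sound ?_) (f j) u v, hτ⟩
    exact block e s hA (fun S hS => (hfix g hg S hS).le) hne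

end TPR
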