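import Pool.Agent.Lib.MP_021685_agTP.PA
import Pool.Agent.Lib.MP_021685_agTP.PB
import Pool.Agent.Lib.MP_021685_agTP.PC
import Pool.Agent.Lib.MP_021685_agTP.PC2
import Pool.Agent.Lib.MP_021685_agTP.PF
import Pool.Agent.Lib.MP_021685_agTP.PG
import Pool.Agent.Lib.MP_021685_agTP.PH
import Pool.Agent.Lib.MP_021685_agTP.PI
import Pool.Agent.Lib.MP_021685_agTP.PJ
import Pool.Agent.Lib.MP_021685_agTP.PL2
import Pool.Agent.Lib.MP_021685_agTP.PM1
import Pool.Agent.Lib.MP_021685_agTP.PN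
import Pool.Agent.Lib.MP_021685_agTP.PT
import Pool.Agent.Lib.MP_021685_agTG.GA
import Pool.Agent.Lib.MP_021685_agTG.GB1
import Pool.Agent.Lib.MP_021685_agTG.GX

/-!
# Semisimple groups with one element with characteristic polynomial `P R`
-/

set_option autoImplicit false

namespace TPR

open Polynomial Module Function TGR

/-- The pieces are in the Lie algebra of the form. -/
theorem piece_mem {G H W : Type} [Group G] [AddCommGroup H] [Module ℂ H] [FiniteDimensional ℂ H] [AddCommGroup W]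
    [Module ℂ W] {ρ : Representation ℂ G H} {σ : Representation ℂ G W} {μ : G →* ℂˣ}
    {ψ : H →ₗ[ℂ] H →ₗ[ℂ] ℂ} (halt : ∀ u, ψ u u = 0) (hψ : ∀ g u v, ψ (ρ g u) (ρ g v) = μ g * ψ u v) {G' : Subgroup G}
    {k : ℕ} {i : ℤ} {T : MultilinearMap ℂ (fun _ : Fin k => H) (W →ₗ[ℂ] ℂ)} (hT : IsTate ρ σ μ G' i T) {K : Subgroup G}
    (hK : K.FiniteIndex) (hKle : K ≤ G') {ι : Type} {e : ι → H} (he : ∀ j, e j ≠ 0) {bar : ι → ι}
    (hbb : ∀ j, bar (bar j) = j) (hne : ∀ j, ψ (e j) (e (bar j)) ≠ 0)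
    (hkill : ∀ j, sq ψ (e j) (e (bar j)) ∈ kill T)
    (hsimple : ∀ K' : Subgroup G, K' ≤ K → K'.FiniteIndex → ∀ j, ∀ S ≤ orb ρ K (e j), Stab ρ K' S →
      S = ⊥ ∨ S = orb ρ K (e j))
    (horth : ∀ j l, orb ρ K (e l) ≠ orb ρ K (e (bar j)) → ∀ u ∈ orb ρ K (e j), ∀ v ∈ orb ρ K (e l), ψ u v = 0)
    (j : ι) {u v : H} (hu : u ∈ orb ρ K (e j)) (hv : v ∈ orb ρ K (e (bar j))) : sq ψ u v ∈ alg T ψ := by
  classical
  let V := orb ρ K (e j)
  let V' := orb ρ K (e (bar j))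
  let 𝔞 : Submodule ℂ (End ℂ H) :=
    { carrier := {X | X ∈ alg T ψ ∧ (∀ v ∈ V, X v ∈ V) ∧ ∀ v ∈ V', X v ∈ V'}
      add_mem' := by
        rintro X Y ⟨hX1, hX2, hX3⟩ ⟨hY1, hY2, hY3⟩
        exact ⟨add_mem hX1 hY1, fun v hv => add_mem (hX2 v hv) (hY2 v hv), fun v hv => add_mem (hX3 v hv) (hY3 v hv)⟩
      zero_mem' := ⟨zero_mem _, fun v _ => zero_mem _, fun v _ => zero_mem _⟩
      smul_mem' := by
        rintro c X ⟨hX1, hX2, hX3⟩
        exact ⟨Submodule.smul_mem _ _ hX1, fun v hv => Submodule.smul_mem _ _ (hX2 v hv),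
          fun v hv => Submodule.smul_mem _ _ (hX3 v hv)⟩ }
  have hmem : ∀ X, X ∈ 𝔞 ↔ X ∈ alg T ψ ∧ (∀ v ∈ V, X v ∈ V) ∧ ∀ v ∈ V', X v ∈ V' := fun X => Iff.rfl
  have hlie : ∀ X ∈ 𝔞, ∀ Y ∈ 𝔞, X * Y - Y * X ∈ 𝔞 := by
    intro X hX Y hY
    obtain ⟨⟨hX0, hX1⟩, hX2, hX3⟩ := hX
    obtain ⟨⟨hY0, hY1⟩, hY2, hY3⟩ := hY
    refine ⟨⟨kill_bracket hX0 hY0, ?_⟩, fun v hv => sub_mem (hX2 _ (hY2 v hv)) (hY2 _ (hX2 v hv)),
      fun v hv => sub_mem (hX3 _ (hY3 v hv)) (hY3 _ (hX3 v hv))⟩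
    refine TGR.mem_sp.2 fun u v => ?_
    have h1 := TGR.mem_sp.1 hX1 (Y u) v
    have h2 := TGR.mem_sp.1 hX1 u (Y v)
    have h3 := TGR.mem_sp.1 hY1 (X u) v
    have h4 := TGR.mem_sp.1 hY1 u (X v)
    rw [LinearMap.sub_apply, LinearMap.sub_apply, map_sub, map_sub, LinearMap.sub_apply, Module.End.mul_apply,
      Module.End.mul_apply, Module.End.mul_apply, Module.End.mul_apply]
    linear_combination h1 - h3 - h4 + h2
  have hskew : ∀ X ∈ 𝔞, X ∈ sp ψ := fun X hX => hX.1.2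
  have hcase : V = V' ∨ V ≠ V' := eq_or_ne _ _
  have hVV : V ≠ V' → (∀ u ∈ V, ∀ v ∈ V, ψ u v = 0) ∧ ∀ u ∈ V', ∀ v ∈ V', ψ u v = 0 := by
    intro h
    refine ⟨horth j j h, horth (bar j) (bar j) ?_⟩
    rw [hbb]
    exact fun h' => h h'.symm
  have hsq : sq ψ (e j) (e (bar j)) ∈ 𝔞 := by
    refine ⟨⟨hkill j, sq_skew halt _ _⟩, fun v hv => ?_, fun v hv => ?_⟩
    · rw [sq_apply]
      refine add_mem ?_ (Submodule.smul_mem _ _ (mem_orb K _))
      rcases hcase with h | h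
      · rw [h]
        exact Submodule.smul_mem _ _ (mem_orb K _)
      · rw [(hVV h).1 _ (mem_orb K _) v hv, zero_smul]
        exact zero_mem _
    · rw [sq_apply]
      refine add_mem (Submodule.smul_mem _ _ (mem_orb K _)) ?_
      rcases hcase with h | h
      · rw [← h]
        exact Submodule.smul_mem _ _ (mem_orb K _)
      · rw [(hVV h).2 _ (mem_orb K _) v hv, zero_smul]
        exact zero_mem _
  have hinv : ∀ g : G, ∀ v, ρ g (ρ g⁻¹ v) = v := by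
    intro g v
    have h1 : ρ g (ρ g⁻¹ v) = (ρ (g * g⁻¹)) v := by
      rw [map_mul]
      rfl
    rw [h1, mul_inv_cancel, map_one]
    rfl
  have hn : ∀ g ∈ K, ∀ X ∈ (𝔞 : Set (End ℂ H)), ρ g * X * ρ g⁻¹ ∈ (𝔞 : Set (End ℂ H)) := by
    rintro g hg X ⟨⟨hX0, hX1⟩, hX2, hX3⟩
    refine ⟨⟨kill_conj hT (hKle hg) hX0, sp_conj hψ g hX1⟩, fun v hv => ?_, fun v hv => ?_⟩
    · exact orb_stab K _ g hg _ (hX2 _ (orb_stab K _ g⁻¹ (K.inv_mem hg) _ hv))
    · exact orb_stab K _ g hg _ (hX3 _ (orb_stab K _ g⁻¹ (K.inv_mem hg) _ hv))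
  have hne' : ψ (e (bar j)) (e j) ≠ 0 := by
    rw [alt_neg halt]
    exact neg_ne_zero.2 (hne j)
  have hs := clifford hK (𝔞 := (𝔞 : Set (End ℂ H))) hn (orb_stab K (e j)) (fun K' h1 h2 => hsimple K' h1 h2 j) (he j)
    (mem_orb K _) (fun 𝒮 h𝒮 hm => star halt (hne j) (𝔞 := (𝔞 : Set (End ℂ H))) hsq 𝒮 h𝒮 hm)
  have hs' := clifford hK (𝔞 := (𝔞 : Set (End ℂ H))) hn (orb_stab K (e (bar j)))
    (fun K' h1 h2 => hsimple K' h1 h2 (bar j)) (he (bar j)) (mem_orb K _)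
    (fun 𝒮 h𝒮 hm => star halt hne' (𝔞 := (𝔞 : Set (End ℂ H))) (by rw [sq_comm]; exact hsq) 𝒮 h𝒮 hm)
  have hc : V = V' ∨ (e (bar j) ∉ V ∧ e j ∉ V') := by
    rcases hcase with h | h
    · exact Or.inl h
    · refine Or.inr ⟨fun h1 => hne j ((hVV h).1 _ (mem_orb K _) _ h1), fun h1 => hne j ((hVV h).2 _ h1 _ (mem_orb K _))⟩
  exact (rk halt hlie hskew (hne j) hsq (mem_orb K _) (mem_orb K _) (fun X hX => hX.2.1) (fun X hX => hX.2.2) hs hs' hc
    hu hv).1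

theorem full_of_data {Q g : ℕ} (hQ : 1 < Q) {P : ℤ[X]} (hg : (∃ z : ℂ, aeval z P = 0) → 0 < g)
    (hsep : (P.map (Int.castRingHom ℂ)).Separable) (hmon : P.Monic)
    (hW : ∀ z : ℂ, aeval z P = 0 → ‖z‖ ^ 2 = (Q : ℝ) ∧ z ^ 2 ≠ (Q : ℂ)) (hF : TAR.FullOver Q P g) :
    TPR.Full Q P g := by
  intro G H W _ _ _ _ _ _ _ ρ σ μ hform φ R hφ hchar hcase hR hsm G' k i T hG' hT
  classical
  rcases hcase with rfl | ⟨hss, hmeet⟩
  · rw [mul_one] at hchar
    exact TGR.full_of_data hQ hg hsep hW hF G H W ρ σ μ hform φ hφ hchar hsm G' k i T hG' hT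
  obtain ⟨ψ, halt, hnd, hψ⟩ := hform
  have hev : ∀ z : ℂ, aeval z P = (P.map (Int.castRingHom ℂ)).eval z := by
    intro z
    rw [Polynomial.eval_map, Polynomial.aeval_def]
    rfl
  -- the roots of `P`
  obtain ⟨ι, _, lam, hprod, hinj⟩ : ∃ (ι : Type) (_ : Fintype ι) (lam : ι → ℂ),
      P.map (Int.castRingHom ℂ) = ∏ i, (X - C (lam i)) ∧ Function.Injective lam := by
    refine ⟨{z : ℂ // z ∈ (P.map (Int.castRingHom ℂ)).roots.toFinset}, inferInstance, fun z => z.1, ?_,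
      Subtype.val_injective⟩
    have h1 : (P.map (Int.castRingHom ℂ)).Monic := hmon.map _
    have h2 := (IsAlgClosed.splits (P.map (Int.castRingHom ℂ))).eq_prod_roots_of_monic h1
    have h3 : (P.map (Int.castRingHom ℂ)).roots.Nodup := nodup_roots hsep
    conv_lhs => rw [h2]
    rw [Finset.prod_coe_sort (P.map (Int.castRingHom ℂ)).roots.toFinset fun z => (X - C z : ℂ[X]),
      Finset.prod_multiset_map_count]
    refine Finset.prod_congr rfl fun z hz => ?_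
    rw [Multiset.count_eq_one_of_mem h3 (Multiset.mem_toFinset.1 hz), pow_one]
  obtain ⟨-, bar, hbb, hbn, hbar⟩ := TLF.exists_bar hprod hinj hW
  have hroot : ∀ z : ℂ, aeval z P = 0 ↔ ∃ i, lam i = z := by
    intro z
    rw [hev, hprod, eval_prod, Finset.prod_eq_zero_iff]
    constructor
    · rintro ⟨i, -, hi⟩
      rw [eval_sub, eval_X, eval_C, sub_eq_zero] at hi
      exact ⟨i, hi.symm⟩
    · rintro ⟨i, hi⟩
      exact ⟨i, Finset.mem_univ _, by rw [eval_sub, eval_X, eval_C, hi, sub_self]⟩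
  rcases isEmpty_or_nonempty ι with hι | ⟨⟨i₀⟩⟩
  · have htop : (⊤ : Submodule ℂ H) = ⊥ := by
      by_contra h
      obtain ⟨z, hz, -⟩ := hmeet ⊤ ⊤ inferInstance (fun _ _ _ _ => trivial) h
      obtain ⟨i, -⟩ := (hroot z).1 hz
      exact isEmptyElim i
    have hsub : Subsingleton H := by
      refine ⟨fun a b => ?_⟩
      have ha : a ∈ (⊤ : Submodule ℂ H) := trivial
      have hb : b ∈ (⊤ : Submodule ℂ H) := trivial
      rw [htop, Submodule.mem_bot] at ha hb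
      rw [ha, hb]
    obtain ⟨b, -, hnf⟩ := hyp_basis (ψ := ψ) (n := 0) (u := fun _ => 0) (u' := fun _ => 0) halt
      (fun a => a.elim0) (fun a => a.elim0) (fun a => a.elim0) (fun v _ => Subsingleton.elim _ _)
    exact full_of_torus hψ hnf hG' hT fun x hx => diag_mem hnf (A := kill T) (fun a => a.elim0) hx
  · have hg' : 0 < g := hg ⟨lam i₀, (hroot _).2 ⟨i₀, rfl⟩⟩
    have hQ0 : (Q : ℂ) ≠ 0 := Nat.cast_ne_zero.2 (by omega)
    have hpn := fun (d : ℕ) (hd : 0 < d) (j : ι) => pow_ne hQ hg' hF hprod hinj hbb hbn hbar hd j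
    obtain ⟨e, he⟩ := eigen_data (F := ρ φ) (R := R) (lam := lam) (by rw [hchar, hprod])
      fun d hd j => ⟨(hpn d hd j).1, fun y hy => (hpn d hd j).2 y (hR y hy)⟩
    have hψφ : ∀ u v, ψ (ρ φ u) (ρ φ v) = (Q : ℂ) * ψ u v := by
      intro u v
      rw [hψ, hφ]
    obtain ⟨d₀, hd₀, hTd⟩ := exists_pow hφ hG' hT
    have hkill : ∀ j, sq ψ (e j) (e (bar j)) ∈ kill T := torus_kill hQ hg' hF hprod hinj hbb hbn hbar hchar hR he halt
      hnd hψφ hsm hd₀ hTd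
    obtain ⟨K, hKle, hK, hKn, hmin⟩ := exists_min ρ G' hG'
    obtain ⟨d, hd, hφd⟩ : ∃ d, 0 < d ∧ φ ^ d ∈ K := by
      obtain ⟨n, hn, -, h⟩ := Subgroup.exists_pow_mem_of_index_ne_zero hK.index_ne_zero φ
      exact ⟨n, hn, h⟩
    have hρd : ρ (φ ^ d) = ρ φ ^ d := map_pow ρ φ d
    have hpow : ∀ (n : ℕ) (j : ι), (ρ φ ^ n) (e j) = lam j ^ n • e j := by
      intro n j
      induction n with
      | zero => rw [pow_zero, pow_zero, one_smul]; rfl
      | succ n ih => rw [pow_succ', Module.End.mul_apply, ih, map_smul, (he j).2.1, smul_smul, pow_succ]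
    have hψd : ∀ u v, ψ ((ρ φ ^ d) u) ((ρ φ ^ d) v) = (Q : ℂ) ^ d * ψ u v := by
      intro u v
      rw [← hρd, hψ, map_pow, Units.val_pow_eq_pow_val, hφ]
    have hlam0 : ∀ j, lam j ≠ 0 := fun j h0 => hQ0 (by rw [← hbar j, h0, zero_mul])
    have hpr : ∀ j, ∃ π : End ℂ H, π (e j) = e j ∧ (∀ v, ∃ c : ℂ, π v = c • e j) ∧
        (∀ S : Submodule ℂ H, (∀ v ∈ S, (ρ φ ^ d) v ∈ S) → ∀ v ∈ S, π v ∈ S) ∧
        ∀ v, ψ (e (bar j)) (π v) = ψ (e (bar j)) v := by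
      intro j
      refine exists_proj (f := ρ φ ^ d) (z := lam j ^ d) (ℓ := ψ (e (bar j))) (he j).1 ((he j).2.2 d hd) fun v => ?_
      have h1 := hψd (e (bar j)) v
      rw [hpow, map_smul, LinearMap.smul_apply, smul_eq_mul] at h1
      have h2 : lam (bar j) ^ d ≠ 0 := pow_ne_zero _ (hlam0 _)
      have h3 : (Q : ℂ) ^ d = lam j ^ d * lam (bar j) ^ d := by rw [← mul_pow, hbar]
      rw [h3] at h1
      exact mul_left_cancel₀ h2 (by linear_combination h1)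
    choose π hπ1 hπ2 hπ3 hπ4 using hpr
    have hπ3' : ∀ i S, Stab ρ K S → ∀ v ∈ S, π i v ∈ S := by
      intro i S hS
      refine hπ3 i S fun v hv => ?_
      rw [← hρd]
      exact hS _ hφd v hv
    have hπ4' : ∀ i v, ψ (e i) (π (bar i) v) = ψ (e i) v := by
      intro i v
      have h1 := hπ4 (bar i) v
      rwa [hbb] at h1
    have hssK : ∀ S, Stab ρ K S → ∃ S' : Submodule ℂ H, Stab ρ K S' ∧ IsCompl S S' := fun S hS =>
      semisimple_normal hss hKn hS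
    have hmeetK : ∀ S, Stab ρ K S → S ≠ ⊥ → ∃ i, e i ∈ S := by
      intro S hS hne
      obtain ⟨z, hz, v, hv, hv0, hev⟩ := hmeet K S hK hS hne
      obtain ⟨i, rfl⟩ := (hroot z).1 hz
      refine ⟨i, ?_⟩
      have h1 : v ∈ Submodule.span ℂ {e i} := by
        rw [← (he i).2.2 1 one_pos, pow_one, pow_one]
        refine Module.End.mem_maxGenEigenspace _ _ _ |>.2 ⟨1, ?_⟩
        rw [pow_one, LinearMap.sub_apply, hev, LinearMap.smul_apply, Module.End.one_apply, sub_self]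
      obtain ⟨c, rfl⟩ := Submodule.mem_span_singleton.1 h1
      have hc : c ≠ 0 := by
        rintro rfl
        exact hv0 (zero_smul _ _)
      have h2 := Submodule.smul_mem S c⁻¹ hv
      rwa [smul_smul, inv_mul_cancel₀ hc, one_smul] at h2
    have hps := fun (i : ι) (S : Submodule ℂ H) (hS : Stab ρ K S) (hle : S ≤ orb ρ K (e i)) =>
      piece_simple hssK (fun i => (he i).1) hπ1 hπ2 hπ3' i hS hle
    have hne : ∀ j, ψ (e j) (e (bar j)) ≠ 0 := by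
      intro j h0
      refine (he j).1 (hnd _ fun v => ?_)
      obtain ⟨c, hc⟩ := hπ2 (bar j) v
      rw [← hπ4' j v, hc, map_smul, h0, smul_zero]
    have horth : ∀ j l, orb ρ K (e l) ≠ orb ρ K (e (bar j)) → ∀ u ∈ orb ρ K (e j), ∀ v ∈ orb ρ K (e l), ψ u v = 0 :=
      fun j l hjl u hu v hv => piece_orth hssK (fun i => (he i).1) hπ1 hπ2 hπ3' hbb hψ hπ4' hjl hu hv
    have hmem : ∀ j, ∀ u ∈ orb ρ K (e j), ∀ v ∈ orb ρ K (e (bar j)), sq ψ u v ∈ alg T ψ := fun j u hu v hv =>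
      piece_mem halt hψ hT hK hKle (fun i => (he i).1) hbb hne hkill
        (fun K' h1 h2 j S hle hS => hps j S (hmin K' h1 h2 S hS) hle) horth j hu hv
    obtain ⟨n, u, u', h1, h2, h3, h4, h5⟩ := exists_family halt hnd (A := kill T)
      (𝒟 := Set.range fun j => orb ρ K (e j)) (Set.finite_range _)
      (by rw [sSup_range]; exact piece_top hssK (fun i => (he i).1) hmeetK) (by
        rintro D ⟨j, rfl⟩
        refine ⟨_, ⟨bar j, rfl⟩, ?_, fun u hu v hv => (hmem j u hu v hv).1⟩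
        rintro D'' ⟨l, rfl⟩ hne u hu v hv
        exact horth j l hne u hu v hv)
    obtain ⟨b, hb, hnf⟩ := hyp_basis halt h1 h2 h3 h5
    exact full_of_torus hψ hnf hG' hT fun x hx => diag_mem hnf (A := kill T)
      (fun a => by rw [(hb a).1, (hb a).2]; exact h4 a) hx

end TPR
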