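import Pool.Agent.Lib.MP_021685_agTP.P0

/-! LEAF PN (easy+).  The torus of a hyperbolic basis.

PROOF.  `Matrix.toLin e e (Matrix.diagonal x) = - ∑ a, x (Sum.inl a) • sq ψ (e (Sum.inl a)) (e (Sum.inr a))`: compare on the basis (`Basis.ext`).
`Matrix.toLin e e (Matrix.diagonal x) (e i) = x i • e i` (`Matrix.toLin_self`, or as `GF_repr` in `MP_021685_agTG/GF.lean`).  With `u = e (Sum.inl a)`,
`u' = e (Sum.inr a)` and the form in `TGR.Nf` (`h.form`: `ψ u u' = 1`, `ψ u' u = - 1`, the other products are zero):
`sq ψ u u' u = - u`, `sq ψ u u' u' = u'`, and `sq ψ u u'` is zero on the other basis vectors.  `x (Sum.inr a) = - x (Sum.inl a)` by `hx`.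
Then the sum is in `A`. -/

set_option autoImplicit false

namespace TPR

open Module Function

theorem diag_mem {H : Type} [AddCommGroup H] [Module ℂ H] {ψ : H →ₗ[ℂ] H →ₗ[ℂ] ℂ} {n : ℕ}
    {e : Basis (Fin n ⊕ Fin n) ℂ H} (h : TGR.Nf Sum.swap (Sum.elim (fun _ => (1 : ℂ)) (fun _ => -1)) e ψ)
    {A : Submodule ℂ (End ℂ H)} (hA : ∀ a, sq ψ (e (Sum.inl a)) (e (Sum.inr a)) ∈ A) {x : Fin n ⊕ Fin n → ℂ}
    (hx : ∀ i, x (Sum.swap i) = - x i) : Matrix.toLin e e (Matrix.diagonal x) ∈ A := by
  classical
  have hL : ∀ i, Matrix.toLin e e (Matrix.diagonal x) (e i) = x i • e i := by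
    intro i
    rw [Matrix.toLin_self, Finset.sum_eq_single i]
    · rw [Matrix.diagonal_apply_eq]
    · intro j _ hj
      rw [Matrix.diagonal_apply_ne _ hj, zero_smul]
    · intro hi
      exact absurd (Finset.mem_univ i) hi
  have key : Matrix.toLin e e (Matrix.diagonal x) =
      ∑ a, (- x (Sum.inl a)) • sq ψ (e (Sum.inl a)) (e (Sum.inr a)) := by
    refine e.ext fun i => ?_
    rw [hL, LinearMap.sum_apply]
    rcases i with b | b
    · rw [Finset.sum_eq_single b]
      · rw [LinearMap.smul_apply, sq_apply, h.form, h.form, if_neg (by simp), if_pos (by simp)]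
        simp
      · intro a _ hab
        rw [LinearMap.smul_apply, sq_apply, h.form, h.form, if_neg (by simp), if_neg (by
          intro h1
          apply hab
          simpa using h1.symm)]
        simp
      · intro hb
        exact absurd (Finset.mem_univ b) hb
    · have hxb : x (Sum.inr b) = - x (Sum.inl b) := hx (Sum.inl b)
      rw [Finset.sum_eq_single b]
      · rw [LinearMap.smul_apply, sq_apply, h.form, h.form, if_pos (by simp), if_neg (by simp), hxb]
        simp
      · intro a _ hab
        rw [LinearMap.smul_apply, sq_apply, h.form, h.form, if_neg (by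
          intro h1
          apply hab
          simpa using h1.symm), if_neg (by simp)]
        simp
      · intro hb
        exact absurd (Finset.mem_univ b) hb
  rw [key]
  exact Submodule.sum_mem _ fun a _ => Submodule.smul_mem _ _ (hA a)

end TPR
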