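import Pool.Agent.Lib.MP_021685_agTG.GD

/-! Definitions used in the statement of `MP_021685_ag.AlmostAllLifts` (number fields: the abelian varieties with one reduction
in the one hundred per cent, or with one factor of one reduction).  `HasForm`, `IsTate`, `IsPairing`, `IsProduct`, `IsOver` are
defined in `MP_021685_agTG/GD.lean`, `frobPoly` in `MP_021685_agTI/TD.lean`, `IsFrobField` in `MP_802513_agHI/HA.lean`, `Small` (roots of
products of algebraic numbers of small degree, or of small angle rank, or with foreign splitting field) in
`MP_021685_agTAR/RD.lean`.  The dictionary is in `MP_021685_agTG/GD.lean`. -/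

set_option autoImplicit false

namespace TPR

open Polynomial Module

section

variable {G H : Type} [Group G] [AddCommGroup H] [Module ℂ H] (ρ : Representation ℂ G H)

/-- Every `G`-stable subspace of `H` has a `G`-stable complement (for an abelian variety over a number field: a theorem of
Faltings). -/
def IsSemisimple : Prop :=
  ∀ S : Submodule ℂ H, (∀ g, ∀ v ∈ S, ρ g v ∈ S) → ∃ S' : Submodule ℂ H, (∀ g, ∀ v ∈ S', ρ g v ∈ S') ∧ IsCompl S S'

/-- Every non-zero subspace of `H` which is stable under a subgroup of finite index contains an eigenvector of `φ` whose
eigenvalue is a root of `P` (every simple factor of the abelian variety, over any finite extension, has a Frobenius eigenvalue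
which is a root of `P`; no condition if the abelian variety is simple over all extensions and one of its Frobenius eigenvalues
is a root of `P`). -/
def Meets (φ : G) (P : ℤ[X]) : Prop :=
  ∀ (G' : Subgroup G) (S : Submodule ℂ H), G'.FiniteIndex → (∀ g ∈ G', ∀ v ∈ S, ρ g v ∈ S) → S ≠ ⊥ →
    ∃ z : ℂ, aeval z P = 0 ∧ ∃ v ∈ S, v ≠ 0 ∧ ρ φ v = z • v

end

/-- For all groups `G` with actions on `H`, which preserves a non-degenerate alternating form up to a character `μ`, and on `W`:
if one element `φ` with `μ (φ) = Q` has the characteristic polynomial `P R` on `H`, where `R = 1`, or the action on `H` is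
semisimple and every non-zero subspace of `H` which is stable under a subgroup of finite index contains an eigenvector of `φ` for
a root of `P`; and if all roots of `R` and all eigenvalues of `φ` on `W` are roots of products of algebraic numbers of degree
less than `2 g`, or of angle rank less than `g`, or with a splitting field without root of `P`, then every Tate form over a
finite extension (for a subgroup `G'` of finite index) is a linear combination of products of Tate pairings on `H` and of one
Tate form on `W`, over a finite extension.  (`W = ℂ` with the trivial action: every Tate form on `H` is a linear combination of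
products of Tate pairings.) -/
def Full (Q : ℕ) (P : ℤ[X]) (g : ℕ) : Prop :=
  ∀ (G H W : Type) [Group G] [AddCommGroup H] [Module ℂ H] [FiniteDimensional ℂ H] [AddCommGroup W] [Module ℂ W]
    [FiniteDimensional ℂ W] (ρ : Representation ℂ G H) (σ : Representation ℂ G W) (μ : G →* ℂˣ), TGR.HasForm ρ μ →
      ∀ (φ : G) (R : ℂ[X]), (μ φ : ℂ) = Q → (ρ φ).charpoly = P.map (Int.castRingHom ℂ) * R →
        (R = 1 ∨ (IsSemisimple ρ ∧ Meets ρ φ P)) → (∀ y, R.IsRoot y → TAR.Small Q P g y) →
          (∀ y, End.HasEigenvalue (σ φ) y → TAR.Small Q P g y) →
            ∀ (G' : Subgroup G) (k : ℕ) (i : ℤ) (T : MultilinearMap ℂ (fun _ : Fin k => H) (W →ₗ[ℂ] ℂ)),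
              G'.FiniteIndex → TGR.IsTate ρ σ μ G' i T → ∃ G'' : Subgroup G, G''.FiniteIndex ∧
                T ∈ Submodule.span ℂ {T' : MultilinearMap ℂ (fun _ : Fin k => H) (W →ₗ[ℂ] ℂ) |
                  TGR.IsProduct ρ σ μ G'' i T'}

/-- The property of the polynomials `t i`, for all number fields `E i` generated by roots of the `frobPoly q (t i)`:

* the `E i` are CM fields of degree `2 g`, and the product of the `frobPoly q (t i)` is one of the polynomials over the `E i`
  for `q`;
* for all `Q > 1` and all polynomials `P` over the `E i` for `Q` (`Full Q P g`): let `A` be an abelian variety over a number field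
  with a place with Frobenius polynomial `P R`, `R = 1`, or all roots of `R` small and every simple factor of `A` over any
  finite extension with a Frobenius eigenvalue which is a root of `P`; then all Tate classes on the powers of `A` are
  combinations of products of Tate classes of degree one, and for all varieties `Z` with small or foreign Frobenius eigenvalues
  at the place there are no new Tate classes on the products of the powers of `A` and of `Z`. -/
def AllLift (q g : ℕ) {r : ℕ} (t : Fin r → ℤ[X]) : Prop :=
  ∀ (E : Fin r → Type) [∀ i, Field (E i)] [∀ i, NumberField (E i)], (∀ i, HIA.IsFrobField q (t i) (E i)) →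
    (∀ i, NumberField.IsCMField (E i) ∧ finrank ℚ (E i) = 2 * g) ∧
    TGR.IsOver q E (∏ i, TI.frobPoly q (t i)) ∧
    ∀ (Q : ℕ) (P : ℤ[X]), 1 < Q → TGR.IsOver Q E P → Full Q P g

end TPR
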