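import Pool.Agent.Lib.MP_021685_agTP.P0

/-! LEAF PK (medium).  The graded pieces of an endomorphism.

Let `t = sq ψ e f`, `t v = ψ e v • f + ψ f v • e` (`sq_apply`): `t e = - e`, `t f = f` (`ψ f e = - 1`: `alt_neg`), and `t u = 0` if `ψ e u = ψ f u = 0`;
write `U` for the space of these `u`.  Every `v` is `- ψ f v • e + ψ e v • f + v₀` with `v₀ ∈ U`.

PROOF.  `X` is skew: `ψ (X u) v + ψ u (X v) = 0` (`TGR.mem_sp`).  Let `a = - ψ f (X e)`, `b = ψ e (X e)`, `m = X e - a • e - b • f`, `c = - ψ f (X f)`,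
`n = X f - c • e + a • f` (the coefficient of `f` in `X f` is `ψ e (X f) = - ψ (X e) f = - a`); then `m, n ∈ U`.
Let `X₂ = - (b / 2) • sq ψ f f` (`e ↦ b • f`), `X₋₂ = (c / 2) • sq ψ e e` (`f ↦ c • e`), `X₁ = - sq ψ f m` (`e ↦ m`, `f ↦ 0`, `u ↦ - ψ m u • f` for
`u ∈ U`), `X₋₁ = sq ψ e n` (`f ↦ n`, `e ↦ 0`, `u ↦ ψ n u • e`), and `X₀ = X - X₂ - X₋₂ - X₁ - X₋₁`: `X₀ e = a • e`, `X₀ f = - a • f`, and `X₀ u ∈ U` for
`u ∈ U` (`ψ e (X u) = - ψ (X e) u = - ψ m u`, `ψ f (X u) = - ψ (X f) u = - ψ n u`).  Let `D Y = t * Y - Y * t`; `D` maps `𝔞` to `𝔞`.  By `sq_bracket`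
(`sq_skew` for `t`) `D X₂ = 2 • X₂`, `D X₋₂ = - 2 • X₋₂`, `D X₁ = X₁`, `D X₋₁ = - X₋₁`, and `D X₀ = 0` (check on `e`, `f`, `U`).  So
`D X = X₁ - X₋₁ + 2 X₂ - 2 X₋₂`, `D² X = X₁ + X₋₁ + 4 X₂ + 4 X₋₂`, `D³ X = X₁ - X₋₁ + 8 X₂ - 8 X₋₂`, `D⁴ X = X₁ + X₋₁ + 16 X₂ + 16 X₋₂` are in `𝔞`, and
hence `X₂, X₋₂, X₁, X₋₁` are linear combinations of them: all in `𝔞`, and so is `X₀`.
For `u ∈ U` let `u' = X₀ u`: `X u = X₀ u + X₁ u + X₋₁ u = u' - ψ m u • f + ψ n u • e`.  If `sq ψ f u ∈ 𝔞` then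
`X₀ * sq ψ f u - sq ψ f u * X₀ = sq ψ (X₀ f) u + sq ψ f (X₀ u) = - a • sq ψ f u + sq ψ f u' ∈ 𝔞` (`sq_bracket`, `X₀ ∈ 𝔞` is skew), so `sq ψ f u' ∈ 𝔞`;
in the same way for `e`. -/

set_option autoImplicit false

namespace TPR

open Module Function

private theorem PK_step {R : Type} [Ring R] [Algebra ℂ R] {𝔞 : Submodule ℂ R} {t A B C E : R}
    (hlie : ∀ Y ∈ 𝔞, t * Y - Y * t ∈ 𝔞) (hA : t * A - A * t = (2 : ℂ) • A) (hB : t * B - B * t = B)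
    (hC : t * C - C * t = (-2 : ℂ) • C) (hE : t * E - E * t = - E) {p q r s : ℂ}
    (h : p • A + q • B + r • C + s • E ∈ 𝔞) :
    (2 * p) • A + q • B + (-2 * r) • C + (-s) • E ∈ 𝔞 := by
  have h1 := hlie _ h
  have h2 : t * (p • A + q • B + r • C + s • E) - (p • A + q • B + r • C + s • E) * t =
      p • (t * A - A * t) + q • (t * B - B * t) + r • (t * C - C * t) + s • (t * E - E * t) := by
    simp only [mul_add, add_mul, mul_smul_comm, smul_mul_assoc, smul_sub]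
    abel
  rw [h2, hA, hB, hC, hE] at h1
  have h3 : (2 * p) • A + q • B + (-2 * r) • C + (-s) • E =
      p • (2 : ℂ) • A + q • B + r • (-2 : ℂ) • C + s • (-E) := by module
  rw [h3]
  exact h1

private theorem PK_solve {R : Type} [Ring R] [Algebra ℂ R] {𝔞 : Submodule ℂ R} {t A B C E : R}
    (hlie : ∀ Y ∈ 𝔞, t * Y - Y * t ∈ 𝔞) (hA : t * A - A * t = (2 : ℂ) • A) (hB : t * B - B * t = B)
    (hC : t * C - C * t = (-2 : ℂ) • C) (hE : t * E - E * t = - E)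
    (h : A + B + C + E ∈ 𝔞) : A ∈ 𝔞 ∧ B ∈ 𝔞 ∧ C ∈ 𝔞 ∧ E ∈ 𝔞 := by
  have y1 : (1 : ℂ) • A + (1 : ℂ) • B + (1 : ℂ) • C + (1 : ℂ) • E ∈ 𝔞 := by
    rw [one_smul, one_smul, one_smul, one_smul]
    exact h
  have y2 := PK_step hlie hA hB hC hE y1
  have y3 := PK_step hlie hA hB hC hE y2
  have y4 := PK_step hlie hA hB hC hE y3
  have hA' : A ∈ 𝔞 := by
    have h1 := 𝔞.add_mem (𝔞.smul_mem (1 / 6 : ℂ) (𝔞.sub_mem y3 y1)) (𝔞.smul_mem (1 / 12 : ℂ) (𝔞.sub_mem y4 y2))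
    refine (congrArg (· ∈ 𝔞) ?_).mp h1
    module
  have hC' : C ∈ 𝔞 := by
    have h1 := 𝔞.sub_mem (𝔞.smul_mem (1 / 6 : ℂ) (𝔞.sub_mem y3 y1)) (𝔞.smul_mem (1 / 12 : ℂ) (𝔞.sub_mem y4 y2))
    refine (congrArg (· ∈ 𝔞) ?_).mp h1
    module
  have hB' : B ∈ 𝔞 := by
    have h1 := 𝔞.smul_mem (1 / 2 : ℂ) (𝔞.add_mem (𝔞.sub_mem (𝔞.add_mem y1 y2) (𝔞.smul_mem (3 : ℂ) hA')) hC')
    refine (congrArg (· ∈ 𝔞) ?_).mp h1
    module
  have hE' : E ∈ 𝔞 := by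
    have h1 := 𝔞.sub_mem (𝔞.sub_mem (𝔞.sub_mem h hA') hB') hC'
    refine (congrArg (· ∈ 𝔞) ?_).mp h1
    module
  exact ⟨hA', hB', hC', hE'⟩

theorem grade {H : Type} [AddCommGroup H] [Module ℂ H] {ψ : H →ₗ[ℂ] H →ₗ[ℂ] ℂ} (halt : ∀ u, ψ u u = 0)
    {𝔞 : Submodule ℂ (End ℂ H)} (hlie : ∀ X ∈ 𝔞, ∀ Y ∈ 𝔞, X * Y - Y * X ∈ 𝔞) (hskew : ∀ X ∈ 𝔞, X ∈ TGR.sp ψ) {e f : H}
    (hef : ψ e f = 1) (ht : sq ψ e f ∈ 𝔞) {X : End ℂ H} (hX : X ∈ 𝔞) :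
    ∃ (a b c : ℂ) (m n : H), (ψ e m = 0 ∧ ψ f m = 0 ∧ sq ψ f m ∈ 𝔞) ∧ (ψ e n = 0 ∧ ψ f n = 0 ∧ sq ψ e n ∈ 𝔞) ∧
      X e = a • e + b • f + m ∧ X f = c • e - a • f + n ∧ b • sq ψ f f ∈ 𝔞 ∧ c • sq ψ e e ∈ 𝔞 ∧
        ∀ u, ψ e u = 0 → ψ f u = 0 → ∃ u', ψ e u' = 0 ∧ ψ f u' = 0 ∧ X u = u' + ψ n u • e - ψ m u • f ∧
          (sq ψ f u ∈ 𝔞 → sq ψ f u' ∈ 𝔞) ∧ (sq ψ e u ∈ 𝔞 → sq ψ e u' ∈ 𝔞) := by
  have hXs := TGR.mem_sp.1 (hskew X hX)
  have hts := hskew _ ht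
  have hfe : ψ f e = -1 := by rw [alt_neg halt f e, hef]
  have hte : sq ψ e f e = - e := by
    rw [sq_apply, halt, hfe]
    module
  have htf : sq ψ e f f = f := by
    rw [sq_apply, halt, hef]
    module
  have htu : ∀ u, ψ e u = 0 → ψ f u = 0 → sq ψ e f u = 0 := by
    intro u h1 h2
    rw [sq_apply, h1, h2]
    module
  obtain ⟨a, ha⟩ : ∃ a, a = - ψ f (X e) := ⟨_, rfl⟩
  obtain ⟨b, hb⟩ : ∃ b, b = ψ e (X e) := ⟨_, rfl⟩
  obtain ⟨c, hc⟩ : ∃ c, c = - ψ f (X f) := ⟨_, rfl⟩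
  obtain ⟨m, hm⟩ : ∃ m, m = X e - a • e - b • f := ⟨_, rfl⟩
  obtain ⟨n, hn⟩ : ∃ n, n = X f - c • e + a • f := ⟨_, rfl⟩
  have hXe : X e = a • e + b • f + m := by
    rw [hm]
    module
  have hXf : X f = c • e - a • f + n := by
    rw [hn]
    module
  have heXf : ψ e (X f) = - a := by
    have h1 := hXs e f
    rw [alt_neg halt (X e) f] at h1
    rw [ha]
    linear_combination h1
  have hem : ψ e m = 0 := by
    rw [hm, map_sub, map_sub, map_smul, map_smul, halt, hef, smul_eq_mul, smul_eq_mul, ← hb]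
    ring
  have hfm : ψ f m = 0 := by
    rw [hm, map_sub, map_sub, map_smul, map_smul, halt, hfe, smul_eq_mul, smul_eq_mul, ha]
    ring
  have hen : ψ e n = 0 := by
    rw [hn, map_add, map_sub, map_smul, map_smul, halt, hef, smul_eq_mul, smul_eq_mul, heXf]
    ring
  have hfn : ψ f n = 0 := by
    rw [hn, map_add, map_sub, map_smul, map_smul, halt, hfe, smul_eq_mul, smul_eq_mul, hc]
    ring
  have hme : ψ m e = 0 := by rw [alt_neg halt m e, hem, neg_zero]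
  have hmf : ψ m f = 0 := by rw [alt_neg halt m f, hfm, neg_zero]
  have hne : ψ n e = 0 := by rw [alt_neg halt n e, hen, neg_zero]
  have hnf : ψ n f = 0 := by rw [alt_neg halt n f, hfn, neg_zero]
  have bA : sq ψ e f * (b • sq ψ f f) - (b • sq ψ f f) * sq ψ e f = (2 : ℂ) • (b • sq ψ f f) := by
    rw [mul_smul_comm, smul_mul_assoc, ← smul_sub, sq_bracket hts, htf]
    module
  have bB : sq ψ e f * sq ψ f m - sq ψ f m * sq ψ e f = sq ψ f m := by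
    rw [sq_bracket hts, htf, htu m hem hfm, sq_zero, add_zero]
  have bC : sq ψ e f * (c • sq ψ e e) - (c • sq ψ e e) * sq ψ e f = (-2 : ℂ) • (c • sq ψ e e) := by
    have h1 : sq ψ (-e) e = - sq ψ e e := by
      rw [sq_comm, ← neg_one_smul ℂ e, sq_smul, neg_one_smul]
    have h2 : sq ψ e (-e) = - sq ψ e e := by
      rw [sq_comm, h1]
    rw [mul_smul_comm, smul_mul_assoc, ← smul_sub, sq_bracket hts, hte, h1, h2]
    module
  have bE : sq ψ e f * sq ψ e n - sq ψ e n * sq ψ e f = - sq ψ e n := by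
    have h1 : sq ψ (-e) n = - sq ψ e n := by
      rw [sq_comm, ← neg_one_smul ℂ e, sq_smul, neg_one_smul, sq_comm]
    rw [sq_bracket hts, hte, htu n hen hfn, sq_zero, add_zero, h1]
  have hsum : b • sq ψ f f + sq ψ f m + c • sq ψ e e + sq ψ e n ∈ 𝔞 := by
    have h1 := hlie X hX _ ht
    rw [sq_bracket (hskew X hX), sq_comm ψ (X e) f, hXe, hXf] at h1
    have h2 : sq ψ f (a • e + b • f + m) + sq ψ e (c • e - a • f + n) =
        b • sq ψ f f + sq ψ f m + c • sq ψ e e + sq ψ e n := by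
      rw [sub_eq_add_neg, ← neg_smul, sq_add, sq_add, sq_add, sq_add, sq_smul, sq_smul, sq_smul, sq_smul,
        sq_comm ψ f e]
      module
    rw [h2] at h1
    exact h1
  obtain ⟨hA, hB, hC, hE⟩ := PK_solve (fun Y hY => hlie _ ht Y hY) bA bB bC bE hsum
  obtain ⟨X₀, hX₀⟩ : ∃ X₀ : End ℂ H, X₀ = X + (1 / 2 : ℂ) • (b • sq ψ f f) - (1 / 2 : ℂ) • (c • sq ψ e e) +
      sq ψ f m - sq ψ e n := ⟨_, rfl⟩
  have hX₀m : X₀ ∈ 𝔞 := by
    rw [hX₀]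
    exact 𝔞.sub_mem (𝔞.add_mem (𝔞.sub_mem (𝔞.add_mem hX (𝔞.smul_mem _ hA)) (𝔞.smul_mem _ hC)) hB) hE
  have hv : ∀ v, X₀ v = X v + (1 / 2 : ℂ) • (b • (ψ f v • f + ψ f v • f)) -
      (1 / 2 : ℂ) • (c • (ψ e v • e + ψ e v • e)) + (ψ f v • m + ψ m v • f) - (ψ e v • n + ψ n v • e) := by
    intro v
    rw [hX₀]
    rfl
  have hX₀e : X₀ e = a • e := by
    rw [hv, hXe, hfe, halt, hme, hne]
    module
  have hX₀f : X₀ f = (-a) • f := by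
    rw [hv, hXf, halt, hef, hmf, hnf]
    module
  refine ⟨a, b, c, m, n, ⟨hem, hfm, hB⟩, ⟨hen, hfn, hE⟩, hXe, hXf, hA, hC, fun u hu1 hu2 => ?_⟩
  have hX₀u : X₀ u = X u - ψ n u • e + ψ m u • f := by
    rw [hv, hu1, hu2]
    module
  have heXu : ψ e (X u) = - ψ m u := by
    have h1 := hXs e u
    rw [hXe, map_add, map_add, LinearMap.add_apply, LinearMap.add_apply, map_smul, map_smul, LinearMap.smul_apply,
      LinearMap.smul_apply, hu1, hu2, smul_zero, smul_zero] at h1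
    linear_combination h1
  have hfXu : ψ f (X u) = - ψ n u := by
    have h1 := hXs f u
    rw [hXf, map_add, map_sub, LinearMap.add_apply, LinearMap.sub_apply, map_smul, map_smul, LinearMap.smul_apply,
      LinearMap.smul_apply, hu1, hu2, smul_zero, smul_zero] at h1
    linear_combination h1
  refine ⟨X u - ψ n u • e + ψ m u • f, ?_, ?_, by module, fun h => ?_, fun h => ?_⟩
  · rw [map_add, map_sub, map_smul, map_smul, heXu, halt, hef, smul_eq_mul, smul_eq_mul]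
    ring
  · rw [map_add, map_sub, map_smul, map_smul, hfXu, halt, hfe, smul_eq_mul, smul_eq_mul]
    ring
  · have h1 := hlie X₀ hX₀m _ h
    rw [sq_bracket (hskew X₀ hX₀m), hX₀f, hX₀u, sq_comm ψ ((-a) • f) u, sq_smul, sq_comm ψ u f] at h1
    have h2 := 𝔞.sub_mem h1 (𝔞.smul_mem (-a) h)
    rw [add_sub_cancel_left] at h2
    exact h2
  · have h1 := hlie X₀ hX₀m _ h
    rw [sq_bracket (hskew X₀ hX₀m), hX₀e, hX₀u, sq_comm ψ (a • e) u, sq_smul, sq_comm ψ u e] at h1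
    have h2 := 𝔞.sub_mem h1 (𝔞.smul_mem a h)
    rw [add_sub_cancel_left] at h2
    exact h2

end TPR
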