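import Pool.Agent.Lib.MP_021685_agTP.PK

/-! LEAF PL1 (medium).  The two stable subspaces.

Write `M` for the set of the `m` with `ψ e m = 0`, `ψ f m = 0`, `sq ψ f m ∈ 𝔞`: a subspace (`sq_add`, `sq_smul`, `sq_zero`).  `m ∈ V` for `m ∈ M`:
`sq ψ f m e = ψ f e • m + ψ m e • f = - m` (`sq_apply`, `alt_neg`), and `V` is stable.

PROOF of `line`.  For `m, m₁ ∈ M`: `sq ψ f m * sq ψ f m₁ - sq ψ f m₁ * sq ψ f m = sq ψ (sq ψ f m f) m₁ + sq ψ f (sq ψ f m m₁)` (`sq_bracket`, `sq_skew`),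
`sq ψ f m f = 0`, `sq ψ f m m₁ = ψ m m₁ • f`, so it is `ψ m m₁ • sq ψ f f ∈ 𝔞`, and as `sq ψ f f ∉ 𝔞`, `ψ m m₁ = 0`.  Let `S` be the subspace of the
`α • e + m`, `m ∈ M` (for example `Submodule.span ℂ {e} ⊔ M`).  It is stable under `X ∈ 𝔞`: by `grade`, `X e = a • e + b • f + m` with
`b • sq ψ f f ∈ 𝔞`, so `b = 0`, `m ∈ M`; and for `m₁ ∈ M`: `X m₁ = u' + ψ n m₁ • e - ψ m m₁ • f` with `u' ∈ M` and `ψ m m₁ = 0`.  `S ≤ V`, `S ≠ ⊥`
(`e ≠ 0` as `ψ e f = 1`), so `S = V`.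

PROOF of `plane`.  Let `M' = {m | ψ e m = 0 ∧ ψ f m = 0 ∧ sq ψ f m ∈ 𝔞 ∧ sq ψ e m ∈ 𝔞}`, a subspace.  If `ψ e m = ψ f m = 0` and `sq ψ f m ∈ 𝔞` then
`sq ψ e m ∈ 𝔞`: the bracket of `sq ψ e e` and `sq ψ f m` is `sq ψ (sq ψ e e f) m + sq ψ f (sq ψ e e m) = 2 • sq ψ e m` (`sq ψ e e f = 2 • e`,
`sq ψ e e m = 0`); conversely if `sq ψ e m ∈ 𝔞` the bracket of `sq ψ f f` and `sq ψ e m` is `- 2 • sq ψ f m`.  So in `grade` both `m` and `n` are in
`M'`, and `u' ∈ M'` if `u ∈ M'`: the subspace `S` of the `α • e + β • f + m`, `m ∈ M'`, is stable under all `X ∈ 𝔞`.  `S ≤ V` (as above), `S ≠ ⊥`,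
so `S = V`. -/

set_option autoImplicit false

namespace TPR

open Module Function

variable {H : Type} [AddCommGroup H] [Module ℂ H] {ψ : H →ₗ[ℂ] H →ₗ[ℂ] ℂ}

private theorem PL1_fe (halt : ∀ u, ψ u u = 0) {e f : H} (hef : ψ e f = 1) : ψ f e = -1 := by
  rw [alt_neg halt, hef]

private theorem PL1_zero (halt : ∀ u, ψ u u = 0) {u v : H} (h : ψ u v = 0) : ψ v u = 0 := by
  rw [alt_neg halt, h, neg_zero]

/-- The members of the span of the `sq ψ f m` are in `V`. -/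
private theorem PL1_mem (halt : ∀ u, ψ u u = 0) {𝔞 : Submodule ℂ (End ℂ H)} {e f : H} (hef : ψ e f = 1)
    {V : Submodule ℂ H} (he : e ∈ V) (hV : ∀ X ∈ 𝔞, ∀ v ∈ V, X v ∈ V) {m : H} (h1 : ψ e m = 0)
    (h3 : sq ψ f m ∈ 𝔞) : m ∈ V := by
  have h4 := hV _ h3 e he
  rw [sq_apply, PL1_fe halt hef, PL1_zero halt h1, zero_smul, add_zero, neg_smul, one_smul] at h4
  exact (Submodule.neg_mem_iff V).1 h4

private theorem PL1_scal {𝔞 : Submodule ℂ (End ℂ H)} {Y : End ℂ H} {b : ℂ} (h : b • Y ∈ 𝔞) (hY : Y ∉ 𝔞) : b = 0 := by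
  by_contra hb
  apply hY
  have h1 := Submodule.smul_mem 𝔞 b⁻¹ h
  rwa [smul_smul, inv_mul_cancel₀ hb, one_smul] at h1

private theorem PL1_zl (a : H) : sq ψ 0 a = 0 := by
  rw [sq_comm, sq_zero]

private theorem PL1_sl (z : ℂ) (a b : H) : sq ψ (z • a) b = z • sq ψ a b := by
  rw [sq_comm, sq_smul, sq_comm]

theorem line (halt : ∀ u, ψ u u = 0) {𝔞 : Submodule ℂ (End ℂ H)} (hlie : ∀ X ∈ 𝔞, ∀ Y ∈ 𝔞, X * Y - Y * X ∈ 𝔞)
    (hskew : ∀ X ∈ 𝔞, X ∈ TGR.sp ψ) {e f : H} (hef : ψ e f = 1) (ht : sq ψ e f ∈ 𝔞) {V : Submodule ℂ H} (he : e ∈ V)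
    (hV : ∀ X ∈ 𝔞, ∀ v ∈ V, X v ∈ V) (hs : ∀ S ≤ V, S ≠ ⊥ → (∀ X ∈ 𝔞, ∀ v ∈ S, X v ∈ S) → S = V)
    (hff : sq ψ f f ∉ 𝔞) {v : H} (hv : v ∈ V) :
    ∃ (α : ℂ) (m : H), v = α • e + m ∧ ψ e m = 0 ∧ ψ f m = 0 ∧ sq ψ f m ∈ 𝔞 := by
  have hiso : ∀ m m₁ : H, ψ f m = 0 → sq ψ f m ∈ 𝔞 → ψ f m₁ = 0 → sq ψ f m₁ ∈ 𝔞 → ψ m m₁ = 0 := by
    intro m m₁ h1 h2 h3 h4
    have h5 := hlie _ h2 _ h4
    rw [sq_bracket (sq_skew halt f m), sq_apply, sq_apply, halt, PL1_zero halt h1, h3, zero_smul, zero_smul,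
      zero_add, zero_add, PL1_zl, zero_add, sq_smul] at h5
    exact PL1_scal h5 hff
  let S : Submodule ℂ H :=
    { carrier := {v | ∃ (α : ℂ) (m : H), v = α • e + m ∧ ψ e m = 0 ∧ ψ f m = 0 ∧ sq ψ f m ∈ 𝔞}
      add_mem' := by
        rintro _ _ ⟨α, m, rfl, h1, h2, h3⟩ ⟨α', m', rfl, h1', h2', h3'⟩
        refine ⟨α + α', m + m', ?_, ?_, ?_, ?_⟩
        · module
        · rw [map_add, h1, h1', add_zero]
        · rw [map_add, h2, h2', add_zero]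
        · rw [sq_add]
          exact add_mem h3 h3'
      zero_mem' := ⟨0, 0, by rw [zero_smul, add_zero], map_zero _, map_zero _, by
        rw [sq_zero]
        exact zero_mem _⟩
      smul_mem' := by
        rintro c _ ⟨α, m, rfl, h1, h2, h3⟩
        refine ⟨c * α, c • m, ?_, ?_, ?_, ?_⟩
        · module
        · rw [map_smul, h1, smul_zero]
        · rw [map_smul, h2, smul_zero]
        · rw [sq_smul]
          exact Submodule.smul_mem _ _ h3 }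
  have hSV : S = V := by
    refine hs S ?_ ?_ ?_
    · rintro _ ⟨α, m, rfl, h1, h2, h3⟩
      exact add_mem (Submodule.smul_mem _ _ he) (PL1_mem halt hef he hV h1 h3)
    · intro h0
      have h1 : e ∈ S := ⟨1, 0, by rw [one_smul, add_zero], map_zero _, map_zero _, by
        rw [sq_zero]
        exact zero_mem _⟩
      rw [h0, Submodule.mem_bot] at h1
      rw [h1, map_zero, LinearMap.zero_apply] at hef
      exact zero_ne_one hef
    · rintro X hX _ ⟨α, m₁, rfl, h1, h2, h3⟩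
      obtain ⟨a, b, c, m, n, ⟨hm1, hm2, hm3⟩, _, hXe, _, hb, _, hu⟩ := grade halt hlie hskew hef ht hX
      obtain ⟨u', hu1, hu2, hXu, hu3, _⟩ := hu m₁ h1 h2
      have hb0 := PL1_scal hb hff
      have hmm := hiso m m₁ hm2 hm3 h2 h3
      refine ⟨α * a + ψ n m₁, α • m + u', ?_, ?_, ?_, ?_⟩
      · rw [map_add, map_smul, hXe, hXu, hb0, hmm]
        module
      · rw [map_add, map_smul, hm1, hu1, smul_zero, add_zero]
      · rw [map_add, map_smul, hm2, hu2, smul_zero, add_zero]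
      · rw [sq_add, sq_smul]
        exact add_mem (Submodule.smul_mem _ _ hm3) (hu3 h3)
  rw [← hSV] at hv
  exact hv

theorem plane (halt : ∀ u, ψ u u = 0) {𝔞 : Submodule ℂ (End ℂ H)} (hlie : ∀ X ∈ 𝔞, ∀ Y ∈ 𝔞, X * Y - Y * X ∈ 𝔞)
    (hskew : ∀ X ∈ 𝔞, X ∈ TGR.sp ψ) {e f : H} (hef : ψ e f = 1) (ht : sq ψ e f ∈ 𝔞) {V : Submodule ℂ H} (he : e ∈ V)
    (hf : f ∈ V) (hV : ∀ X ∈ 𝔞, ∀ v ∈ V, X v ∈ V)
    (hs : ∀ S ≤ V, S ≠ ⊥ → (∀ X ∈ 𝔞, ∀ v ∈ S, X v ∈ S) → S = V) (hee : sq ψ e e ∈ 𝔞) (hff : sq ψ f f ∈ 𝔞) {v : H}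
    (hv : v ∈ V) :
    ∃ (α β : ℂ) (m : H), v = α • e + β • f + m ∧ ψ e m = 0 ∧ ψ f m = 0 ∧ sq ψ e m ∈ 𝔞 ∧ sq ψ f m ∈ 𝔞 := by
  have hfe := PL1_fe halt hef
  have hi : ∀ m : H, ψ e m = 0 → ψ f m = 0 → sq ψ f m ∈ 𝔞 → sq ψ e m ∈ 𝔞 := by
    intro m h1 h2 h3
    have h5 := hlie _ hee _ h3
    rw [sq_bracket (sq_skew halt e e), sq_apply, sq_apply, h1, hef, zero_smul, add_zero, sq_zero, add_zero,
      ← add_smul, PL1_sl] at h5
    have h6 := Submodule.smul_mem 𝔞 ((1 : ℂ) + 1)⁻¹ h5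
    rwa [smul_smul, inv_mul_cancel₀ (by norm_num), one_smul] at h6
  have hj : ∀ m : H, ψ e m = 0 → ψ f m = 0 → sq ψ e m ∈ 𝔞 → sq ψ f m ∈ 𝔞 := by
    intro m h1 h2 h3
    have h5 := hlie _ hff _ h3
    rw [sq_bracket (sq_skew halt f f), sq_apply, sq_apply, h2, hfe, zero_smul, add_zero, sq_zero, add_zero,
      ← add_smul, PL1_sl] at h5
    have h6 := Submodule.smul_mem 𝔞 ((-1 : ℂ) + -1)⁻¹ h5
    rwa [smul_smul, inv_mul_cancel₀ (by norm_num), one_smul] at h6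
  let S : Submodule ℂ H :=
    { carrier := {v | ∃ (α β : ℂ) (m : H), v = α • e + β • f + m ∧ ψ e m = 0 ∧ ψ f m = 0 ∧ sq ψ e m ∈ 𝔞 ∧
        sq ψ f m ∈ 𝔞}
      add_mem' := by
        rintro _ _ ⟨α, β, m, rfl, h1, h2, h3, h4⟩ ⟨α', β', m', rfl, h1', h2', h3', h4'⟩
        refine ⟨α + α', β + β', m + m', ?_, ?_, ?_, ?_, ?_⟩
        · module
        · rw [map_add, h1, h1', add_zero]
        · rw [map_add, h2, h2', add_zero]
        · rw [sq_add]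
          exact add_mem h3 h3'
        · rw [sq_add]
          exact add_mem h4 h4'
      zero_mem' := ⟨0, 0, 0, by rw [zero_smul, zero_smul, add_zero, add_zero], map_zero _, map_zero _, by
        rw [sq_zero]
        exact zero_mem _, by
        rw [sq_zero]
        exact zero_mem _⟩
      smul_mem' := by
        rintro c _ ⟨α, β, m, rfl, h1, h2, h3, h4⟩
        refine ⟨c * α, c * β, c • m, ?_, ?_, ?_, ?_, ?_⟩
        · module
        · rw [map_smul, h1, smul_zero]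
        · rw [map_smul, h2, smul_zero]
        · rw [sq_smul]
          exact Submodule.smul_mem _ _ h3
        · rw [sq_smul]
          exact Submodule.smul_mem _ _ h4 }
  have hSV : S = V := by
    refine hs S ?_ ?_ ?_
    · rintro _ ⟨α, β, m, rfl, h1, h2, h3, h4⟩
      exact add_mem (add_mem (Submodule.smul_mem _ _ he) (Submodule.smul_mem _ _ hf)) (PL1_mem halt hef he hV h1 h4)
    · intro h0
      have h1 : e ∈ S := ⟨1, 0, 0, by rw [one_smul, zero_smul, add_zero, add_zero], map_zero _, map_zero _, by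
        rw [sq_zero]
        exact zero_mem _, by
        rw [sq_zero]
        exact zero_mem _⟩
      rw [h0, Submodule.mem_bot] at h1
      rw [h1, map_zero, LinearMap.zero_apply] at hef
      exact zero_ne_one hef
    · rintro X hX _ ⟨α, β, m₁, rfl, h1, h2, h3, h4⟩
      obtain ⟨a, b, c, m, n, ⟨hm1, hm2, hm3⟩, ⟨hn1, hn2, hn3⟩, hXe, hXf, _, _, hu⟩ :=
        grade halt hlie hskew hef ht hX
      obtain ⟨u', hu1, hu2, hXu, hu3, hu4⟩ := hu m₁ h1 h2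
      refine ⟨α * a + β * c + ψ n m₁, α * b - β * a - ψ m m₁, α • m + β • n + u', ?_, ?_, ?_, ?_, ?_⟩
      · rw [map_add, map_add, map_smul, map_smul, hXe, hXf, hXu]
        module
      · rw [map_add, map_add, map_smul, map_smul, hm1, hn1, hu1, smul_zero, smul_zero, add_zero, add_zero]
      · rw [map_add, map_add, map_smul, map_smul, hm2, hn2, hu2, smul_zero, smul_zero, add_zero, add_zero]
      · rw [sq_add, sq_add, sq_smul, sq_smul]
        exact add_mem (add_mem (Submodule.smul_mem _ _ (hi m hm1 hm2 hm3)) (Submodule.smul_mem _ _ hn3)) (hu4 h3)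
      · rw [sq_add, sq_add, sq_smul, sq_smul]
        exact add_mem (add_mem (Submodule.smul_mem _ _ hm3) (Submodule.smul_mem _ _ (hj n hn1 hn2 hn3))) (hu3 h4)
  rw [← hSV] at hv
  exact hv

end TPR
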