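import Pool.Agent.Lib.MP_021685_agTP.P0

/-! LEAF PM2 (medium-).  Hyperbolic families.

PROOF of `hyp_ind`.  Let `∑ a, x a • u a + ∑ a, x' a • u' a = 0`.  Apply `ψ (u b)`: `x' b = 0`; apply `ψ (u' b)`: `- x b = 0` (`alt_neg`).
(`Fintype.linearIndependent_iff`, `Fintype.sum_sum_type`.)

PROOF of `hyp_basis`.  For `v : H` let `v' = v - ∑ a, ψ (u a) v • u' a + ∑ a, ψ (u' a) v • u a`; `ψ (u b) v' = ψ (u b) v - ψ (u b) v = 0` and
`ψ (u' b) v' = ψ (u' b) v + ψ (u' b) v * ψ (u' b) (u b) = 0`.  So `v' = 0` by `h`, and the family spans `H`: `Basis.mk`.  The five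
conditions of `TGR.Nf` (structure in `MP_021685_agTG/G0.lean`) are checked on `Sum.inl a`, `Sum.inr a`. -/

set_option autoImplicit false

namespace TPR

open Module Function

variable {H : Type} [AddCommGroup H] [Module ℂ H] {ψ : H →ₗ[ℂ] H →ₗ[ℂ] ℂ} {n : ℕ} {u u' : Fin n → H}

private theorem PM2_h4 (halt : ∀ u, ψ u u = 0)
    (h3 : ∀ a b, ψ (u a) (u' b) = if a = b then 1 else 0) (a b : Fin n) :
    ψ (u' a) (u b) = if a = b then -1 else 0 := by
  rw [alt_neg halt, h3]
  by_cases hab : a = b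
  · rw [if_pos hab, if_pos hab.symm]
  · rw [if_neg hab, if_neg (Ne.symm hab), neg_zero]

theorem hyp_ind (halt : ∀ u, ψ u u = 0) (h1 : ∀ a b, ψ (u a) (u b) = 0) (h2 : ∀ a b, ψ (u' a) (u' b) = 0)
    (h3 : ∀ a b, ψ (u a) (u' b) = if a = b then 1 else 0) : LinearIndependent ℂ (Sum.elim u u') := by
  have h4 := PM2_h4 halt h3
  rw [Fintype.linearIndependent_iff]
  intro g hg i
  rw [Fintype.sum_sum_type] at hg
  simp only [Sum.elim_inl, Sum.elim_inr] at hg
  rcases i with b | b
  · have h5 := congrArg (ψ (u' b)) hg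
    rw [map_add, map_sum, map_sum, map_zero] at h5
    simp only [map_smul, smul_eq_mul, h4, h2, mul_zero, mul_ite, Finset.sum_const_zero, Finset.sum_ite_eq,
      Finset.mem_univ, if_true, add_zero] at h5
    linear_combination -h5
  · have h5 := congrArg (ψ (u b)) hg
    rw [map_add, map_sum, map_sum, map_zero] at h5
    simp only [map_smul, smul_eq_mul, h1, h3, mul_zero, mul_ite, Finset.sum_const_zero, Finset.sum_ite_eq,
      Finset.mem_univ, if_true, zero_add] at h5
    linear_combination h5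

theorem hyp_basis (halt : ∀ u, ψ u u = 0) (h1 : ∀ a b, ψ (u a) (u b) = 0) (h2 : ∀ a b, ψ (u' a) (u' b) = 0)
    (h3 : ∀ a b, ψ (u a) (u' b) = if a = b then 1 else 0)
    (h : ∀ v, (∀ a, ψ (u a) v = 0 ∧ ψ (u' a) v = 0) → v = 0) :
    ∃ e : Basis (Fin n ⊕ Fin n) ℂ H, (∀ a, e (Sum.inl a) = u a ∧ e (Sum.inr a) = u' a) ∧
      TGR.Nf Sum.swap (Sum.elim (fun _ => (1 : ℂ)) (fun _ => -1)) e ψ := by
  have h4 := PM2_h4 halt h3
  have hli := hyp_ind halt h1 h2 h3
  have hsp : ⊤ ≤ Submodule.span ℂ (Set.range (Sum.elim u u')) := by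
    intro v _
    have hv' := h (v - ∑ a, ψ (u a) v • u' a + ∑ a, ψ (u' a) v • u a) (by
      intro b
      constructor
      · rw [map_add, map_sub, map_sum, map_sum]
        simp only [map_smul, smul_eq_mul, h1, h3, mul_zero, mul_ite, mul_one, Finset.sum_const_zero,
          Finset.sum_ite_eq, Finset.mem_univ, if_true, add_zero, sub_self]
      · rw [map_add, map_sub, map_sum, map_sum]
        simp only [map_smul, smul_eq_mul, h2, h4, mul_zero, mul_ite, Finset.sum_const_zero,
          Finset.sum_ite_eq, Finset.mem_univ, if_true, sub_zero]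
        ring)
    have h6 : v = ∑ a, ψ (u a) v • u' a - ∑ a, ψ (u' a) v • u a := by
      rw [← sub_eq_zero, ← hv']
      abel
    rw [h6]
    exact Submodule.sub_mem _
      (Submodule.sum_mem _ fun a _ => Submodule.smul_mem _ _ (Submodule.subset_span ⟨Sum.inr a, rfl⟩))
      (Submodule.sum_mem _ fun a _ => Submodule.smul_mem _ _ (Submodule.subset_span ⟨Sum.inl a, rfl⟩))
  refine ⟨Basis.mk hli hsp, ?_, ?_⟩
  · intro a
    rw [Basis.mk_apply, Basis.mk_apply]
    exact ⟨rfl, rfl⟩
  · refine ⟨?_, ?_, ?_, ?_, ?_, ?_⟩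
    · rintro (a | a) <;> rfl
    · rintro (a | a)
      · exact Sum.inr_ne_inl
      · exact Sum.inl_ne_inr
    · rintro (a | a)
      · simp only [Sum.elim_inl, mul_one]
      · simp only [Sum.elim_inr, mul_neg, mul_one, neg_neg]
    · rintro (a | a)
      · simp only [Sum.elim_inl, map_one]
      · simp only [Sum.elim_inr, map_neg, map_one]
    · rintro (a | a)
      · simp only [Sum.swap_inl, Sum.elim_inl, Sum.elim_inr]
      · simp only [Sum.swap_inr, Sum.elim_inl, Sum.elim_inr, neg_neg]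
    · intro i j
      rw [Basis.mk_apply, Basis.mk_apply]
      rcases i with a | a <;> rcases j with b | b
      · simp only [Sum.elim_inl, Sum.swap_inl, reduceCtorEq, if_false, h1]
      · simp only [Sum.elim_inl, Sum.elim_inr, Sum.swap_inl, Sum.inr.injEq, h3]
        by_cases hab : a = b
        · rw [if_pos hab, if_pos hab.symm]
        · rw [if_neg hab, if_neg (Ne.symm hab)]
      · simp only [Sum.elim_inl, Sum.elim_inr, Sum.swap_inr, Sum.inl.injEq, h4]
        by_cases hab : a = b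
        · rw [if_pos hab, if_pos hab.symm]
        · rw [if_neg hab, if_neg (Ne.symm hab)]
      · simp only [Sum.elim_inr, Sum.swap_inr, reduceCtorEq, if_false, h2]

end TPR
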