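import Pool.Agent.Lib.MP_021685_agTP.PO
import Pool.Agent.Lib.MP_021685_agTG.GY

/-!
# The polynomials over the fields `E i`
-/

set_option autoImplicit false

namespace TPR

open Polynomial Module

theorem full_of_over {Q g r : ℕ} (hQ : 1 < Q) {E : Fin r → Type} [∀ i, Field (E i)] [∀ i, NumberField (E i)]
    (hE : ∀ i, finrank ℚ (E i) = 2 * g) {P : ℤ[X]} (hP : TGR.IsOver Q E P) (hF : TAR.FullOver Q P g) :
    TPR.Full Q P g := by
  classical
  obtain ⟨hmon, hsep, J, _, a, ha, hind, hroot⟩ := hP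
  refine full_of_data hQ ?_ hsep hmon (fun z hz => ?_) hF
  · rintro ⟨z, hz⟩
    obtain ⟨j, -, -⟩ := (hroot _).1 hz
    have h3 := hE j
    have h4 : 0 < finrank ℚ (E j) := finrank_pos
    omega
  · obtain ⟨i, k, φ, rfl⟩ := (hroot z).1 hz
    refine ⟨?_, fun h0 => ?_⟩
    · have h1 := ha i k φ
      rw [Complex.mul_conj, Complex.normSq_eq_norm_sq] at h1
      exact_mod_cast h1
    · have hQ0 : (Q : E i) ≠ 0 := Nat.cast_ne_zero.2 (by omega)
      have h1 : a i k ^ 2 = (Q : E i) := φ.injective (by rw [map_pow, map_natCast, h0])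
      have h2 := hind i (Pi.single k 1) (by
        rw [Finset.prod_eq_single k]
        · rw [Pi.single_eq_same, zpow_one, h1, div_self hQ0]
        · intro l _ hl
          rw [Pi.single_eq_of_ne hl, zpow_zero]
        · intro hk
          exact absurd (Finset.mem_univ k) hk) k
      rw [Pi.single_eq_same] at h2
      exact one_ne_zero h2

theorem allLift_of_crit {q g r : ℕ} (hq : 0 < q) (hg : 2 ≤ g) {t : Fin r → ℤ[X]} (hC : HI.Crit q g r t)
    (hF : TI.Full q (∏ i, TI.frobPoly q (t i))) : TPR.AllLift q g t := by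
  intro E _ _ hE
  obtain ⟨h1, h2⟩ := TAR.allWeil_of_crit hq hg hC E hE
  refine ⟨h1, TGR.isOver_frob hq hC hF E hE, fun Q P hQ hP => ?_⟩
  obtain ⟨hm, -, J, _, a, ha, hind, hroot⟩ := id hP
  exact full_of_over hQ (fun i => (h1 i).2) hP ((h2 Q J a P (by omega) hm ha hroot).1 hind)

end TPR
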